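import Pool.Agent.Lib.MP_6bc951_gt.Trig

open Real Set Filter Topology

namespace Pool.Agent.Lib.MP_6bc951_gt

noncomputable def sphPt (a b c : ℝ) (h : a ^ 2 + b ^ 2 + c ^ 2 = 1) :
    Metric.sphere (0 : EuclideanSpace ℝ (Fin 3)) 1 :=
  ⟨!₂[a, b, c], by
    rw [mem_sphere_zero_iff_norm, EuclideanSpace.norm_eq]
    simp [Fin.sum_univ_three, h]⟩

lemma sphDist_sphPt (a b c a' b' c' : ℝ) (h : a ^ 2 + b ^ 2 + c ^ 2 = 1)
    (h' : a' ^ 2 + b' ^ 2 + c' ^ 2 = 1) :
    sphDist (sphPt a b c h) (sphPt a' b' c' h') = arccos (a * a' + b * b' + c * c') := by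
  unfold sphDist sphPt
  simp [PiLp.inner_apply, Fin.sum_univ_three, mul_comm]

variable {U : Type*} [MetricSpace U]

/-- truncated cosine of the distance -/
noncomputable def tc (u v : U) : ℝ := cos (min π (dist u v))

lemma tc_comm (u v : U) : tc u v = tc v u := by unfold tc; rw [dist_comm]

lemma tc_of_le {u v : U} (h : dist u v ≤ π) : tc u v = cos (dist u v) := by
  unfold tc; rw [min_eq_right h]

lemma tc_le_one (u v : U) : tc u v ≤ 1 := cos_le_one _

lemma tc_le_cos {u v : U} {η : ℝ} (h0 : 0 ≤ η) (h1 : η ≤ π) (h : η ≤ dist u v) :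
    tc u v ≤ cos η :=
  cos_le_cos_of_nonneg_of_le_pi h0 (min_le_left _ _) (le_min h1 h)

lemma cos_le_tc {u v : U} {η : ℝ} (h1 : η ≤ π) (h : dist u v ≤ η) : cos η ≤ tc u v :=
  cos_le_cos_of_nonneg_of_le_pi (le_min pi_pos.le dist_nonneg) h1 ((min_le_right _ _).trans h)

lemma tc_add_nonpos {u v : U} (h : π ≤ dist u v) (w : U) : tc u w + tc v w ≤ 0 := by
  have t := dist_triangle_right u v w
  rcases le_total π (dist u w) with h1 | h1
  · have := tc_le_cos pi_pos.le le_rfl h1
    rw [cos_pi] at this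
    linarith [tc_le_one v w]
  · have := tc_le_cos (u := v) (v := w) (η := π - dist u w) (by linarith)
      (by linarith [dist_nonneg (x := u) (y := w)]) (by linarith)
    rw [cos_pi_sub] at this
    rw [tc_of_le h1]
    linarith

lemma big_perim {θ t d1 d2 d : ℝ} (hθ : θ < π) (ht0 : 0 ≤ t) (ht : t ≤ θ) (h1 : d1 ≤ π)
    (h2 : d2 ≤ π) (hp : 2 * π ≤ d1 + d2 + θ) (hd0 : 0 ≤ d) (hd1 : d ≤ t + d1)
    (hd2 : d ≤ θ - t + d2) : sin (θ - t) * cos d1 + sin t * cos d2 ≤ sin θ * cos d := by
  have s0 : 0 ≤ sin θ := sin_nonneg_of_nonneg_of_le_pi (by linarith) hθ.le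
  have s1 : 0 ≤ sin t := sin_nonneg_of_nonneg_of_le_pi ht0 (by linarith)
  have s2 : 0 ≤ sin (θ - t) := sin_nonneg_of_nonneg_of_le_pi (by linarith) (by linarith)
  by_cases c1 : t + d1 ≤ π
  · have a1 := mul_le_mul_of_nonneg_left (cos_le_cos_of_nonneg_of_le_pi hd0 c1 hd1) s0
    have a2 : cos d2 ≤ cos (θ + d1) := by
      rw [← cos_two_pi_sub (θ + d1)]
      exact cos_le_cos_of_nonneg_of_le_pi (by linarith) h2 (by linarith)
    have a3 := mul_le_mul_of_nonneg_left a2 s1
    rw [cos_add] at a1 a3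
    rw [sin_sub]
    linarith
  by_cases c2 : θ - t + d2 ≤ π
  · have a1 := mul_le_mul_of_nonneg_left (cos_le_cos_of_nonneg_of_le_pi hd0 c2 hd2) s0
    have a2 : cos d1 ≤ cos (θ + d2) := by
      rw [← cos_two_pi_sub (θ + d2)]
      exact cos_le_cos_of_nonneg_of_le_pi (by linarith) h1 (by linarith)
    have a3 := mul_le_mul_of_nonneg_left a2 s2
    have a4 : sin t = sin θ * cos (θ - t) - cos θ * sin (θ - t) := by
      rw [← sin_sub]; congr 1; ring
    rw [cos_add] at a1 a3
    rw [a4]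
    linarith
  · have a1 : cos d1 ≤ cos (π - t) :=
      cos_le_cos_of_nonneg_of_le_pi (by linarith) h1 (by linarith)
    have a2 : cos d2 ≤ cos (π - (θ - t)) :=
      cos_le_cos_of_nonneg_of_le_pi (by linarith) h2 (by linarith)
    rw [cos_pi_sub] at a1 a2
    have a3 := mul_le_mul_of_nonneg_left a1 s2
    have a4 := mul_le_mul_of_nonneg_left a2 s1
    have a5 := mul_le_mul_of_nonneg_left (neg_one_le_cos d) s0
    have a6 : sin θ = sin (θ - t) * cos t + cos (θ - t) * sin t := by
      rw [← sin_add]; congr 1; ring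
    linarith

lemma IsGeodesic.dist_left {γ : ℝ → U} {u v : U} (h : IsGeodesic γ u v) {t : ℝ}
    (ht : t ∈ Icc 0 (dist u v)) : dist u (γ t) = t := by
  have := h.2.2 0 ⟨le_rfl, dist_nonneg⟩ t ht
  rw [h.1, zero_sub, abs_neg, abs_of_nonneg ht.1] at this
  exact this

lemma IsGeodesic.dist_right {γ : ℝ → U} {u v : U} (h : IsGeodesic γ u v) {t : ℝ}
    (ht : t ∈ Icc 0 (dist u v)) : dist v (γ t) = dist u v - t := by
  have := h.2.2 _ ⟨dist_nonneg, le_rfl⟩ t ht
  rw [h.2.1, abs_of_nonneg (by linarith [ht.2])] at this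
  exact this

lemma IsCATOne.tc_concave (hU : IsCATOne U) {γ : ℝ → U} {u v : U} (hγ : IsGeodesic γ u v)
    (hθ : dist u v < π) {t : ℝ} (ht : t ∈ Icc 0 (dist u v)) (w : U) :
    sin (dist u v - t) * tc u w + sin t * tc v w ≤ sin (dist u v) * tc (γ t) w := by
  have t1 := dist_triangle_left v w u
  have t2 := dist_triangle u v w
  have t3 := dist_triangle_right u v w
  rcases (dist_nonneg (x := u) (y := v)).eq_or_lt with h0 | h0
  · have : t = 0 := le_antisymm (h0 ▸ ht.2) ht.1
    simp [this, ← h0]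
  by_cases hp : perim u v w < 2 * π
  · have hp' := hp
    unfold perim at hp'
    have b1 : dist u w < π := by linarith
    have b2 : dist v w < π := by linarith
    obtain ⟨σ, hσ⟩ := hU.geodesic u w b1
    have hs : 0 < sin (dist u v) := sin_pos_of_pos_of_lt_pi h0 hθ
    have cs := cos_sides (dist_nonneg (x := v) (y := w)) t1 t3 t2 hp'.le
    rw [cos_add, cos_sub] at cs
    set θ := dist u v
    set b := dist u w
    set c := dist v w
    set β := (cos c - cos θ * cos b) / sin θ with hβ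
    have hβe : sin θ * β = cos c - cos θ * cos b := by rw [hβ]; field_simp
    have hβ2 : β ^ 2 ≤ sin b ^ 2 := by
      apply sq_le_sq'
      · rw [hβ, le_div_iff₀ hs]; linarith [cs.1]
      · rw [hβ, div_le_iff₀ hs]; linarith [cs.2]
    have hn : 0 ≤ 1 - cos b ^ 2 - β ^ 2 := by nlinarith [sin_sq_add_cos_sq b]
    have hy : cos b ^ 2 + β ^ 2 + √(1 - cos b ^ 2 - β ^ 2) ^ 2 = 1 := by
      rw [sq_sqrt hn]; ring
    have key := hU.comparison u v w γ σ hp hγ hσ t ht b ⟨dist_nonneg, le_rfl⟩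
      (sphPt 1 0 0 (by norm_num)) (sphPt (cos θ) (sin θ) 0 (by simp))
      (sphPt (cos b) β _ hy) (sphPt (cos t) (sin t) 0 (by simp)) (sphPt (cos b) β _ hy)
      (by rw [sphDist_sphPt]; simpa using arccos_cos h0.le hθ.le)
      (by rw [sphDist_sphPt]; simpa using arccos_cos dist_nonneg b1.le)
      (by
        rw [sphDist_sphPt, hβe, zero_mul, add_zero, add_sub_cancel]
        exact arccos_cos dist_nonneg b2.le)
      (by rw [sphDist_sphPt]; simpa using arccos_cos ht.1 (by linarith [ht.2]))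
      (by
        rw [sphDist_sphPt, zero_mul, add_zero, mul_comm (cos t), mul_comm (sin t), ← cos_sub]
        exact arccos_cos (by linarith [ht.2]) (by linarith [ht.1]))
      (by rw [sphDist_sphPt]; simpa using arccos_cos dist_nonneg b1.le)
      (by
        rw [sphDist_sphPt, ← sq, ← sq, ← sq, hy, arccos_one]
        exact (sub_self _).symm)
    rw [hσ.2.1, sphDist_sphPt, zero_mul, add_zero] at key
    have k2 := cos_le_tc (arccos_le_pi _) key
    have hb1 : (cos t * cos b + sin t * β) ^ 2 ≤ 1 := by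
      nlinarith [sin_sq_add_cos_sq t, sq_nonneg (cos t * β - sin t * cos b)]
    have hb2 := abs_le.1 ((sq_le_one_iff_abs_le_one _).1 hb1)
    rw [cos_arccos hb2.1 hb2.2] at k2
    have k3 := mul_le_mul_of_nonneg_left k2 hs.le
    rw [tc_of_le b1.le, tc_of_le b2.le, sin_sub]
    have : sin t * cos c = sin t * (sin θ * β) + sin t * (cos θ * cos b) := by rw [hβe]; ring
    linarith
  · unfold perim at hp
    have e1 := hγ.dist_left ht
    have e2 := hγ.dist_right ht
    have t4 := dist_triangle_left (γ t) w u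
    have t5 := dist_triangle_left (γ t) w v
    refine big_perim hθ ht.1 ht.2 (min_le_left _ _) (min_le_left _ _) ?_
      (le_min pi_pos.le dist_nonneg) ?_ ?_
    · rcases le_total π (dist u w) with c1 | c1 <;> rcases le_total π (dist v w) with c2 | c2 <;>
        simp only [min_eq_left, min_eq_right, c1, c2] <;> linarith
    · rcases le_total π (dist u w) with c1 | c1
      · rw [min_eq_left c1]; linarith [min_le_left π (dist (γ t) w), ht.1]
      · rw [min_eq_right c1]; linarith [min_le_right π (dist (γ t) w)]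
    · rcases le_total π (dist v w) with c1 | c1
      · rw [min_eq_left c1]; linarith [min_le_left π (dist (γ t) w), ht.2]
      · rw [min_eq_right c1]; linarith [min_le_right π (dist (γ t) w)]

/-- concave functions -/
structure Conc (ψ : U → ℝ) : Prop where
  cont : Continuous ψ
  bdd : ∃ M, ∀ u, |ψ u| ≤ M
  far : ∀ u v, π ≤ dist u v → ψ u + ψ v ≤ 0
  conc : ∀ γ u v, IsGeodesic γ u v → dist u v < π → ∀ t ∈ Icc 0 (dist u v),
    sin (dist u v - t) * ψ u + sin t * ψ v ≤ sin (dist u v) * ψ (γ t)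

lemma IsCATOne.conc_tc (hU : IsCATOne U) (w : U) : Conc fun u => tc u w where
  cont := by unfold tc; fun_prop
  bdd := ⟨1, fun _ => abs_cos_le_one _⟩
  far _ _ h := tc_add_nonpos h w
  conc _ _ _ hγ hθ _ ht := hU.tc_concave hγ hθ ht w

lemma Conc.zero : Conc fun _ : U => (0 : ℝ) where
  cont := continuous_const
  bdd := ⟨0, fun _ => by simp⟩
  far _ _ _ := by simp
  conc _ _ _ _ _ _ _ := by simp

lemma Conc.add {ψ φ : U → ℝ} (h : Conc ψ) (h' : Conc φ) : Conc fun u => ψ u + φ u where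
  cont := h.cont.add h'.cont
  bdd := by
    obtain ⟨M, hM⟩ := h.bdd
    obtain ⟨N, hN⟩ := h'.bdd
    exact ⟨M + N, fun u => (abs_add_le _ _).trans (add_le_add (hM u) (hN u))⟩
  far u v huv := by linarith [h.far u v huv, h'.far u v huv]
  conc γ u v hγ hθ t ht := by linarith [h.conc γ u v hγ hθ t ht, h'.conc γ u v hγ hθ t ht]

lemma Conc.smul {ψ : U → ℝ} (h : Conc ψ) {c : ℝ} (hc : 0 ≤ c) : Conc fun u => c * ψ u where
  cont := continuous_const.mul h.cont
  bdd := by
    obtain ⟨M, hM⟩ := h.bdd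
    exact ⟨c * M, fun u => by
      rw [abs_mul, abs_of_nonneg hc]; exact mul_le_mul_of_nonneg_left (hM u) hc⟩
  far u v huv := by linarith [mul_le_mul_of_nonneg_left (h.far u v huv) hc]
  conc γ u v hγ hθ t ht := by linarith [mul_le_mul_of_nonneg_left (h.conc γ u v hγ hθ t ht) hc]

lemma Conc.sum {ι : Type*} (s : Finset ι) {ψ : ι → U → ℝ} (h : ∀ i ∈ s, Conc (ψ i)) :
    Conc fun u => ∑ i ∈ s, ψ i u := by
  classical
  induction s using Finset.induction_on with
  | empty => simpa using Conc.zero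
  | insert i s hi ih =>
    simp only [Finset.sum_insert hi]
    exact (h i (Finset.mem_insert_self _ _)).add (ih fun j hj => h j (Finset.mem_insert_of_mem hj))

end Pool.Agent.Lib.MP_6bc951_gt
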