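import Pool.Agent.Lib.MP_6bc951_gt.Ultra

open Real Set Filter Topology

namespace Pool.Agent.Lib.MP_6bc951_gt

def UnitSpeed {X : Type*} [MetricSpace X] (γ : ℝ → X) (a b : ℝ) : Prop :=
  ∀ s ∈ Icc a b, ∀ t ∈ Icc a b, dist (γ s) (γ t) = |s - t|

variable {X : Type*} [MetricSpace X]

lemma UnitSpeed.mono {γ : ℝ → X} {a b c d : ℝ} (h : UnitSpeed γ a b) (hac : a ≤ c) (hdb : d ≤ b) :
    UnitSpeed γ c d := fun s hs t ht =>
  h s ⟨hac.trans hs.1, hs.2.trans hdb⟩ t ⟨hac.trans ht.1, ht.2.trans hdb⟩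

lemma UnitSpeed.continuousOn {γ : ℝ → X} {a b : ℝ} (h : UnitSpeed γ a b) :
    ContinuousOn γ (Icc a b) := by
  have : LipschitzOnWith 1 γ (Icc a b) := LipschitzOnWith.of_dist_le_mul fun s hs t ht => by
    rw [h s hs t ht, Real.dist_eq]; simp
  exact this.continuousOn

lemma UnitSpeed.continuousOn_cos {γ : ℝ → X} {a b : ℝ} (h : UnitSpeed γ a b) (w : X) :
    ContinuousOn (fun t => cos (dist (γ t) w)) (Icc a b) :=
  (Continuous.continuousOn (s := univ) (f := fun x : X => cos (dist x w)) (by fun_prop)).comp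
    h.continuousOn (mapsTo_univ _ _)

/-- symmetric local inequality -/
lemma GoodSpace.loc_symm (hX : GoodSpace X) {γ : ℝ → X} {t δ : ℝ} (hδ : 0 < δ) (hδ' : δ < π / 2)
    (h : UnitSpeed γ (t - δ) (t + δ)) (w : X)
    (h1 : δ + dist (γ t) w + dist (γ (t - δ)) w < 2 * π)
    (h2 : δ + dist (γ t) w + dist (γ (t + δ)) w < 2 * π) :
    2 * cos δ * cos (dist (γ t) w) ≤ cos (dist (γ (t - δ)) w) + cos (dist (γ (t + δ)) w) := by
  have m0 : t ∈ Icc (t - δ) (t + δ) := ⟨by linarith, by linarith⟩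
  have m1 : t - δ ∈ Icc (t - δ) (t + δ) := ⟨le_rfl, by linarith⟩
  have m2 : t + δ ∈ Icc (t - δ) (t + δ) := ⟨by linarith, le_rfl⟩
  have e1 : dist (γ t) (γ (t - δ)) = δ := by
    rw [h _ m0 _ m1, sub_sub_cancel, abs_of_pos hδ]
  have e2 : dist (γ t) (γ (t + δ)) = δ := by
    rw [h _ m0 _ m2, sub_add_cancel_left, abs_neg, abs_of_pos hδ]
  have e3 : dist (γ (t - δ)) (γ (t + δ)) = δ + δ := by
    rw [h _ m1 _ m2, abs_of_nonpos (by linarith)]; ring
  have := hX.loc (γ t) (γ (t - δ)) (γ (t + δ)) w (by rw [e1, e2, e3])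
    (by unfold perim; rw [e1]; linarith)
    (by unfold perim; rw [e2, dist_comm w]; linarith)
    (by unfold perim; rw [e1, e2, dist_comm, e3]; linarith)
  rw [e1, e2, ← two_mul, sin_two_mul] at this
  have hs : 0 < sin δ := sin_pos_of_pos_of_lt_pi hδ (by linarith [pi_pos])
  have h4 : sin δ * (2 * cos δ * cos (dist (γ t) w)) ≤
      sin δ * (cos (dist (γ (t - δ)) w) + cos (dist (γ (t + δ)) w)) := by linarith
  exact le_of_mul_le_mul_left h4 hs

lemma GoodSpace.loc_of_lt (hX : GoodSpace X) {γ : ℝ → X} {a b : ℝ} (h : UnitSpeed γ a b)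
    (hπ : b - a < π) (w : X) {t : ℝ} (ht : t ∈ Ioo a b) (hw : dist (γ t) w < π) :
    ∃ δ > 0, a ≤ t - δ ∧ t + δ ≤ b ∧
      2 * cos δ * cos (dist (γ t) w) ≤ cos (dist (γ (t - δ)) w) + cos (dist (γ (t + δ)) w) := by
  set δ := min (min (t - a) (b - t)) ((π - dist (γ t) w) / 2) with hδ
  have d1 : δ ≤ t - a := (min_le_left _ _).trans (min_le_left _ _)
  have d2 : δ ≤ b - t := (min_le_left _ _).trans (min_le_right _ _)
  have d3 : δ ≤ (π - dist (γ t) w) / 2 := min_le_right _ _
  have d0 : 0 < δ := lt_min (lt_min (by linarith [ht.1]) (by linarith [ht.2])) (by linarith)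
  refine ⟨δ, d0, by linarith, by linarith, hX.loc_symm d0 (by linarith)
    (h.mono (by linarith) (by linarith)) w ?_ ?_⟩
  · linarith [hX.diam_le (γ (t - δ)) w]
  · linarith [hX.diam_le (γ (t + δ)) w]

lemma GoodSpace.not_flat (hX : GoodSpace X) {γ : ℝ → X} {t δ : ℝ} (hδ : 0 < δ) (hδ' : δ < π / 2)
    (h : UnitSpeed γ (t - δ) (t + δ)) (w : X) (h0 : dist (γ t) w = π)
    (h1 : dist (γ (t - δ)) w = π) (h2 : dist (γ (t + δ)) w = π) : False := by
  obtain ⟨σ, s0, s1, hσ⟩ := hX.geodesic w (γ t)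
  rw [dist_comm w, h0] at s1 hσ
  set s := (δ + π / 2) / 2 with hs
  have hs1 : δ < s := by linarith
  have hs2 : s < π / 2 := by linarith
  have ms : s ∈ Icc 0 π := ⟨by linarith, by linarith⟩
  have e1 : dist (σ s) w = s := by
    rw [← s0, hσ s ms 0 ⟨le_rfl, pi_pos.le⟩, sub_zero, abs_of_pos (by linarith)]
  have e2 : dist (γ t) (σ s) = π - s := by
    rw [← s1, hσ π ⟨pi_pos.le, le_rfl⟩ s ms, abs_of_pos (by linarith)]
  have t1 := dist_triangle (γ (t - δ)) (σ s) w
  have t2 := dist_triangle (γ (t + δ)) (σ s) w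
  have key := hX.loc_symm hδ hδ' h (σ s)
    (by linarith [hX.diam_le (γ (t - δ)) (σ s)]) (by linarith [hX.diam_le (γ (t + δ)) (σ s)])
  have c1 : cos (dist (γ (t - δ)) (σ s)) ≤ cos (π - s) :=
    cos_le_cos_of_nonneg_of_le_pi (by linarith) (hX.diam_le _ _) (by linarith)
  have c2 : cos (dist (γ (t + δ)) (σ s)) ≤ cos (π - s) :=
    cos_le_cos_of_nonneg_of_le_pi (by linarith) (hX.diam_le _ _) (by linarith)
  rw [e2] at key
  rw [cos_pi_sub] at key c1 c2
  have c3 : 0 < cos s := cos_pos_of_mem_Ioo ⟨by linarith, hs2⟩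
  have c4 : cos δ < 1 := by
    rw [← cos_zero]
    exact cos_lt_cos_of_nonneg_of_le_pi le_rfl (by linarith) hδ
  nlinarith

lemma dist_eq_pi_of_cos (hd : ∀ x y : X, dist x y ≤ π) {x y : X} (h : cos (dist x y) ≤ -1) :
    dist x y = π := by
  by_contra hne
  have := cos_lt_cos_of_nonneg_of_le_pi dist_nonneg le_rfl (lt_of_le_of_ne (hd x y) hne)
  rw [cos_pi] at this
  linarith

lemma GoodSpace.not_two (hX : GoodSpace X) {γ : ℝ → X} {a b : ℝ} (h : UnitSpeed γ a b)
    (hab : a < b) (hπ : b - a < π) (w : X) (ha : dist (γ a) w = π) (hb : dist (γ b) w = π) :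
    False := by
  have key := sturm (y := fun t => cos (dist (γ t) w) + 1) hab.le hπ
    ((h.continuousOn_cos w).add continuousOn_const) (by
      intro t ht
      rcases (hX.diam_le (γ t) w).eq_or_lt with hw | hw
      · refine ⟨min (t - a) (b - t), lt_min (by linarith [ht.1]) (by linarith [ht.2]),
          by linarith [min_le_left (t - a) (b - t)], by linarith [min_le_right (t - a) (b - t)],
          ?_⟩
        simp only [hw, cos_pi, neg_add_cancel, mul_zero]
        linarith [neg_one_le_cos (dist (γ (t - min (t - a) (b - t))) w),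
          neg_one_le_cos (dist (γ (t + min (t - a) (b - t))) w)]
      · obtain ⟨δ, d0, d1, d2, d3⟩ := hX.loc_of_lt h hπ w ht hw
        refine ⟨δ, d0, d1, d2, ?_⟩
        linarith [cos_le_one δ]) ((a + b) / 2) ⟨by linarith, by linarith⟩
  simp only [ha, hb, cos_pi, neg_add_cancel, mul_zero, add_zero] at key
  have hs : 0 < sin (b - a) := sin_pos_of_pos_of_lt_pi (by linarith) hπ
  have hm : dist (γ ((a + b) / 2)) w = π := dist_eq_pi_of_cos hX.diam_le (by nlinarith)
  have e1 : (a + b) / 2 - (b - a) / 2 = a := by ring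
  have e2 : (a + b) / 2 + (b - a) / 2 = b := by ring
  exact hX.not_flat (γ := γ) (t := (a + b) / 2) (δ := (b - a) / 2) (by linarith) (by linarith)
    (by rw [e1, e2]; exact h) w hm (by rw [e1]; exact ha) (by rw [e2]; exact hb)

/-- convexity along geodesics -/
theorem GoodSpace.convex (hX : GoodSpace X) {γ : ℝ → X} {a b : ℝ} (h : UnitSpeed γ a b)
    (hab : a ≤ b) (hπ : b - a < π) (w : X) : ∀ t ∈ Icc a b,
    sin (b - a) * cos (dist (γ t) w) ≤
      sin (b - t) * cos (dist (γ a) w) + sin (t - a) * cos (dist (γ b) w) := by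
  refine sturm (y := fun t => cos (dist (γ t) w)) hab hπ (h.continuousOn_cos w) fun t ht => ?_
  rcases (hX.diam_le (γ t) w).eq_or_lt with hw | hw
  swap
  · exact hX.loc_of_lt h hπ w ht hw
  set δ := min (t - a) (b - t) with hδ
  have d1 : δ ≤ t - a := min_le_left _ _
  have d2 : δ ≤ b - t := min_le_right _ _
  have d0 : 0 < δ := lt_min (by linarith [ht.1]) (by linarith [ht.2])
  have hδπ : δ < π := by linarith [ht.2]
  have hsδ : 0 ≤ sin δ := sin_nonneg_of_nonneg_of_le_pi d0.le hδπ.le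
  refine ⟨δ, d0, by linarith, by linarith, ?_⟩
  have hR : UnitSpeed γ t (t + δ) := h.mono ht.1.le (by linarith)
  have hL : UnitSpeed γ (t - δ) t := h.mono (by linarith) ht.2.le
  have kR := sturm (y := fun t => cos (dist (γ t) w)) (a := t) (b := t + δ) (by linarith)
    (by linarith) (hR.continuousOn_cos w) fun s hs => hX.loc_of_lt hR (by linarith) w hs
      (lt_of_le_of_ne (hX.diam_le _ _) fun hs' =>
        hX.not_two (hR.mono le_rfl hs.2.le) hs.1 (by linarith [hs.2]) w hw hs')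
  have kL := sturm (y := fun t => cos (dist (γ t) w)) (a := t - δ) (b := t) (by linarith)
    (by linarith) (hL.continuousOn_cos w) fun s hs => hX.loc_of_lt hL (by linarith) w hs
      (lt_of_le_of_ne (hX.diam_le _ _) fun hs' =>
        hX.not_two (hL.mono hs.1.le le_rfl) hs.2 (by linarith [hs.1]) w hs' hw)
  have r1 : -cos (dist (γ (t + δ)) w) ≤ 1 * cos δ := by
    refine le_mul_cos_of_forall d0 fun s hs => ?_
    have := kR (t + s) ⟨by linarith [hs.1], by linarith [hs.2]⟩
    simp only [hw, cos_pi, add_sub_cancel_left, add_sub_add_left_eq_sub] at this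
    nlinarith [neg_one_le_cos (dist (γ (t + s)) w)]
  have r2 : -cos (dist (γ (t - δ)) w) ≤ 1 * cos δ := by
    refine le_mul_cos_of_forall d0 fun s hs => ?_
    have := kL (t - s) ⟨by linarith [hs.2], by linarith [hs.1]⟩
    simp only [hw, cos_pi, sub_sub_cancel, sub_sub_sub_cancel_left] at this
    nlinarith [neg_one_le_cos (dist (γ (t - s)) w)]
  simp only [hw, cos_pi]
  linarith

/-- midpoints -/
lemma GoodSpace.midpoint (hX : GoodSpace X) {x y : X} (h : dist x y < π) :
    ∃ m, dist x m = dist x y / 2 ∧ ∀ w, 2 * cos (dist x y / 2) * cos (dist m w) ≤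
      cos (dist x w) + cos (dist y w) := by
  rcases (dist_nonneg (x := x) (y := y)).eq_or_lt with h0 | h0
  · refine ⟨x, by simp [← h0], fun w => ?_⟩
    have := eq_of_dist_eq_zero h0.symm
    subst this
    simp [two_mul]
  obtain ⟨γ, g0, g1, hγ⟩ := hX.geodesic x y
  have mm : dist x y / 2 ∈ Icc 0 (dist x y) := ⟨by linarith, by linarith⟩
  refine ⟨γ (dist x y / 2), ?_, fun w => ?_⟩
  · have := hγ 0 ⟨le_rfl, h0.le⟩ _ mm
    rw [g0] at this
    rw [this, zero_sub, abs_neg, abs_of_pos (by linarith)]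
  · have := hX.convex (γ := γ) (a := 0) (b := dist x y) hγ h0.le (by linarith) w _ mm
    rw [g0, g1, sub_zero, sub_zero, show dist x y - dist x y / 2 = dist x y / 2 by ring] at this
    have e : sin (dist x y) = 2 * sin (dist x y / 2) * cos (dist x y / 2) := by
      rw [← sin_two_mul]; congr 1; ring
    have hs : 0 < sin (dist x y / 2) := sin_pos_of_pos_of_lt_pi (by linarith) (by linarith)
    rw [e] at this
    have h4 : sin (dist x y / 2) * (2 * cos (dist x y / 2) * cos (dist (γ (dist x y / 2)) w)) ≤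
      sin (dist x y / 2) * (cos (dist x w) + cos (dist y w)) := by linarith
    exact le_of_mul_le_mul_left h4 hs

/-- antipodal points -/
lemma GoodSpace.antipodal (hX : GoodSpace X) {x y : X} (h : dist x y = π) (w : X) :
    0 ≤ cos (dist x w) + cos (dist y w) := by
  obtain ⟨γ, g0, g1, hγ⟩ := hX.geodesic x y
  rw [h] at g1 hγ
  have hu : UnitSpeed γ 0 π := hγ
  have h1 : Tendsto (fun s => cos (dist x w) + cos (dist (γ s) w)) (𝓝[Ioo 0 π] π)
      (𝓝 (cos (dist x w) + cos (dist y w))) := by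
    have := (hu.continuousOn_cos w π ⟨pi_pos.le, le_rfl⟩).tendsto
    rw [g1] at this
    exact tendsto_const_nhds.add (this.mono_left (nhdsWithin_mono _ Ioo_subset_Icc_self))
  have h2 : Tendsto (fun s => -(2 * cos (s / 2))) (𝓝[Ioo 0 π] π) (𝓝 0) := by
    have : Continuous fun s : ℝ => -(2 * cos (s / 2)) := by fun_prop
    have := this.tendsto π
    simp only [cos_pi_div_two, mul_zero, neg_zero] at this
    exact this.mono_left nhdsWithin_le_nhds
  have : (𝓝[Ioo 0 π] π).NeBot := right_nhdsWithin_Ioo_neBot pi_pos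
  refine le_of_tendsto_of_tendsto h2 h1 ?_
  filter_upwards [self_mem_nhdsWithin] with s hs
  have e : dist x (γ s) = s := by
    rw [← g0, hγ 0 ⟨le_rfl, pi_pos.le⟩ s ⟨hs.1.le, hs.2.le⟩, zero_sub, abs_neg, abs_of_pos hs.1]
  obtain ⟨m, -, hm⟩ := hX.midpoint (x := x) (y := γ s) (by rw [e]; exact hs.2)
  have k := hm w
  rw [e] at k
  have : 0 ≤ cos (s / 2) := cos_nonneg_of_mem_Icc ⟨by linarith [hs.1, pi_pos], by linarith [hs.2]⟩
  nlinarith [neg_one_le_cos (dist m w)]

end Pool.Agent.Lib.MP_6bc951_gt
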