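import Mathlib

open Real Set

namespace Pool.Agent.Lib.MP_6bc951_gt

universe u

/-- Length space: the distance is the infimum of the lengths of curves joining the points. -/
def IsLengthSpace (X : Type*) [MetricSpace X] : Prop :=
  ∀ x y : X, edist x y = ⨅ γ : Path x y, eVariationOn γ Set.univ

/-- Perimeter of a triple of points. -/
def perim {X : Type*} [MetricSpace X] (p x y : X) : ℝ :=
  dist p x + dist p y + dist x y

/-- Model angle at `p`: the angle of the triangle on the unit 2-sphere with side lengths
`|px|`, `|py|`, `|xy|` (spherical law of cosines). -/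
noncomputable def modelAngle {X : Type*} [MetricSpace X] (p x y : X) : ℝ :=
  arccos ((cos (dist x y) - cos (dist p x) * cos (dist p y)) / (sin (dist p x) * sin (dist p y)))

/-- Alex(1): complete length space of diameter at most `π` with the (1+3)-point comparison
for every quadruple whose three model angles are defined. -/
structure IsAlexOne (L : Type*) [MetricSpace L] : Prop where
  complete : CompleteSpace L
  length : IsLengthSpace L
  diam_le : ∀ x y : L, dist x y ≤ π
  comparison : ∀ p x y z : L, x ≠ p → y ≠ p → z ≠ p →
    perim p x y < 2 * π → perim p y z < 2 * π → perim p z x < 2 * π →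
    modelAngle p x y + modelAngle p y z + modelAngle p z x ≤ 2 * π

/-- `γ` restricted to `[0, |xy|]` is a unit speed geodesic segment from `x` to `y`. -/
def IsGeodesic {X : Type*} [MetricSpace X] (γ : ℝ → X) (x y : X) : Prop :=
  γ 0 = x ∧ γ (dist x y) = y ∧
    ∀ s ∈ Icc 0 (dist x y), ∀ t ∈ Icc 0 (dist x y), dist (γ s) (γ t) = |s - t|

/-- The angle metric on the unit sphere of a real inner product space. -/
noncomputable def sphDist {H : Type*} [NormedAddCommGroup H] [InnerProductSpace ℝ H]
    (a b : Metric.sphere (0 : H) 1) : ℝ :=
  arccos (inner ℝ (a : H) (b : H))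

/-- CAT(1): complete length space in which points at distance less than `π` are joined by a
geodesic and every geodesic triangle of perimeter less than `2π` is thinner than its comparison
triangle `p' x' y'` on the unit 2-sphere (`a`, `b` are the comparison points of `γ s`, `σ t`). -/
structure IsCATOne (U : Type*) [MetricSpace U] : Prop where
  complete : CompleteSpace U
  length : IsLengthSpace U
  geodesic : ∀ x y : U, dist x y < π → ∃ γ, IsGeodesic γ x y
  comparison : ∀ (p x y : U) (γ σ : ℝ → U), perim p x y < 2 * π →
    IsGeodesic γ p x → IsGeodesic σ p y →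
    ∀ s ∈ Icc 0 (dist p x), ∀ t ∈ Icc 0 (dist p y),
    ∀ p' x' y' a b : Metric.sphere (0 : EuclideanSpace ℝ (Fin 3)) 1,
      sphDist p' x' = dist p x → sphDist p' y' = dist p y → sphDist x' y' = dist x y →
      sphDist p' a = s → sphDist a x' = dist p x - s →
      sphDist p' b = t → sphDist b y' = dist p y - t →
      dist (γ s) (σ t) ≤ sphDist a b

/-- `f : Q → U` has no short extension to a strictly larger subset of `L`. -/
def IsMaximalShort {L U : Type*} [MetricSpace L] [MetricSpace U] (Q : Set L) (f : Q → U) : Prop :=
  ¬ ∃ (Q' : Set L) (h : Q ⊂ Q') (g : Q' → U),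
    LipschitzWith 1 g ∧ ∀ q : Q, g ⟨q, h.subset q.2⟩ = f q

/-- `X` is isometric to the unit sphere of a real Hilbert space with the angle metric. -/
def IsHilbertSphere (X : Type u) [MetricSpace X] : Prop :=
  ∃ (H : Type u) (_ : NormedAddCommGroup H) (_ : InnerProductSpace ℝ H) (_ : CompleteSpace H)
    (e : X ≃ Metric.sphere (0 : H) 1), ∀ a b : X, dist a b = sphDist (e a) (e b)

end Pool.Agent.Lib.MP_6bc951_gt
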