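import Pool.Agent.Lib.MP_6bc951_gt.Defs

open Real Set

namespace Pool.Agent.Lib.MP_6bc951_gt

/-- Curvature at least 1 in the sense of Alexander, Kapovitch and Petrunin: a complete length
space with the (1+3)-point comparison for every quadruple whose three model angles are defined.
Nothing is assumed on the diameter. -/
structure IsCBBOne (L : Type*) [MetricSpace L] : Prop where
  complete : CompleteSpace L
  length : IsLengthSpace L
  comparison : ∀ p x y z : L, x ≠ p → y ≠ p → z ≠ p →
    perim p x y < 2 * π → perim p y z < 2 * π → perim p z x < 2 * π →
    modelAngle p x y + modelAngle p y z + modelAngle p z x ≤ 2 * π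

end Pool.Agent.Lib.MP_6bc951_gt
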