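import Pool.Agent.Lib.MP_6bc951_gt.Cat

open Real Set Filter Topology

namespace Pool.Agent.Lib.MP_6bc951_gt

variable {U : Type*} [MetricSpace U]

lemma cos_lt_one' {η : ℝ} (h0 : 0 < η) (h1 : η ≤ π) : cos η < 1 := by
  rw [← cos_zero]
  exact cos_lt_cos_of_nonneg_of_le_pi le_rfl h1 h0

lemma Conc.exists_max (hU : IsCATOne U) {ψ : U → ℝ} (hψ : Conc ψ) (h : ∃ u, 0 < ψ u) :
    ∃ u0, 0 < ψ u0 ∧ ∀ u, ψ u ≤ ψ u0 * tc u0 u := by
  have := hU.complete
  obtain ⟨M, hM⟩ := hψ.bdd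
  obtain ⟨u1, hu1⟩ := h
  have hb : BddAbove (range ψ) := ⟨M, by rintro _ ⟨u, rfl⟩; exact (le_abs_self _).trans (hM u)⟩
  set N := sSup (range ψ) with hN
  have hle : ∀ u, ψ u ≤ N := fun u => le_csSup hb ⟨u, rfl⟩
  have hN0 : 0 < N := hu1.trans_le (hle u1)
  obtain ⟨r, -, hr, hrm⟩ := exists_seq_tendsto_sSup (S := range ψ) ⟨_, u1, rfl⟩ hb
  choose x hx using hrm
  have two : ∀ (u v : U) (η : ℝ), 0 < η → η ≤ π / 2 → 2 * η ≤ dist u v →
      ψ u + ψ v ≤ 2 * cos η * N := by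
    intro u v η h0 h1 h2
    have hc : 0 ≤ cos η := cos_nonneg_of_mem_Icc ⟨by linarith, h1⟩
    rcases le_or_gt π (dist u v) with h3 | h3
    · exact (hψ.far u v h3).trans (by positivity)
    obtain ⟨γ, hγ⟩ := hU.geodesic u v h3
    have k := hψ.conc γ u v hγ h3 (dist u v / 2) ⟨by linarith, by linarith⟩
    have e : sin (dist u v) = 2 * sin (dist u v / 2) * cos (dist u v / 2) := by
      rw [← sin_two_mul]; congr 1; ring
    have hs : 0 < sin (dist u v / 2) := sin_pos_of_pos_of_lt_pi (by linarith) (by linarith)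
    have hs' : 0 ≤ sin (dist u v) := sin_nonneg_of_nonneg_of_le_pi dist_nonneg h3.le
    have k2 := mul_le_mul_of_nonneg_left (hle (γ (dist u v / 2))) hs'
    rw [show dist u v - dist u v / 2 = dist u v / 2 by ring] at k
    have k3 : sin (dist u v / 2) * (ψ u + ψ v) ≤
        sin (dist u v / 2) * (2 * cos (dist u v / 2) * N) := by
      rw [e] at k k2; linarith
    have k4 := le_of_mul_le_mul_left k3 hs
    have k5 : cos (dist u v / 2) ≤ cos η :=
      cos_le_cos_of_nonneg_of_le_pi h0.le (by linarith) (by linarith)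
    nlinarith
  have hcau : CauchySeq x := by
    rw [Metric.cauchySeq_iff]
    intro ε hε
    have h0 : 0 < min (ε / 2) (π / 2) := lt_min (by linarith) (by linarith [pi_pos])
    have h1 := min_le_right (ε / 2) (π / 2)
    have h2 := min_le_left (ε / 2) (π / 2)
    set η := min (ε / 2) (π / 2)
    have hc := cos_lt_one' h0 (by linarith)
    obtain ⟨n0, hn0⟩ := eventually_atTop.1
      (hr.eventually (lt_mem_nhds (show cos η * N < N by nlinarith)))
    refine ⟨n0, fun m hm n hn => ?_⟩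
    by_contra hcon
    have := two (x m) (x n) η h0 h1 (by linarith)
    rw [hx, hx] at this
    linarith [hn0 m hm, hn0 n hn]
  obtain ⟨u0, hu0⟩ := cauchySeq_tendsto_of_complete hcau
  have e0 : ψ u0 = N := tendsto_nhds_unique ((hψ.cont.tendsto u0).comp hu0)
    (by simpa [Function.comp_def, hx] using hr)
  refine ⟨u0, e0 ▸ hN0, fun u => ?_⟩
  rcases le_or_gt π (dist u0 u) with h3 | h3
  · have := hψ.far u0 u h3
    unfold tc
    rw [min_eq_left h3, cos_pi]; linarith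
  rw [tc_of_le h3.le]
  rcases (dist_nonneg (x := u0) (y := u)).eq_or_lt with h0 | h0
  · rw [← h0, ← eq_of_dist_eq_zero h0.symm]; simp
  obtain ⟨γ, hγ⟩ := hU.geodesic u0 u h3
  refine le_mul_cos_of_forall h0 fun s hs => ?_
  have k := hψ.conc γ u0 u hγ h3 s ⟨hs.1.le, hs.2.le⟩
  have hs' : 0 ≤ sin (dist u0 u) := sin_nonneg_of_nonneg_of_le_pi dist_nonneg h3.le
  have k2 := mul_le_mul_of_nonneg_left (hle (γ s)) hs'
  rw [e0] at k ⊢
  linarith

/-- Farkas type lemma -/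
theorem farkas (hU : IsCATOne U) (P : (U → ℝ) → ℝ → Prop) (hconc : ∀ ψ c, P ψ c → Conc ψ)
    (hadd : ∀ ψ c φ d, P ψ c → P φ d → P (fun u => ψ u + φ u) (c + d))
    (hsmul : ∀ ψ c r, 0 ≤ r → P ψ c → P (fun u => r * ψ u) (r * c))
    (hdom : ∀ ψ c, P ψ c → 0 < c → ∃ u, c ≤ ψ u) :
    (∀ ψ c, P ψ c → c ≤ 0) ∨ ∃ r ∈ Ioc (0 : ℝ) 1, ∃ u, ∀ ψ c, P ψ c → c ≤ r * ψ u := by
  have := hU.complete
  by_cases hz : ∀ ψ c, P ψ c → c ≤ 0
  · exact Or.inl hz
  right
  push Not at hz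
  obtain ⟨ψ1, c1, hP1, hc1⟩ := hz
  set R := {c | ∃ ψ, P ψ c ∧ ∀ u, ψ u ≤ 1} with hR
  have hR1 : ∀ c ∈ R, c ≤ 1 := by
    rintro c ⟨ψ, hP, h1⟩
    rcases le_or_gt c 0 with h | h
    · linarith
    · obtain ⟨u, hu⟩ := hdom ψ c hP h
      exact hu.trans (h1 u)
  have hb : BddAbove R := ⟨1, hR1⟩
  have scale : ∀ ψ c N, P ψ c → 0 < N → (∀ u, ψ u ≤ N) → N⁻¹ * c ∈ R := by
    intro ψ c N hP hN h
    refine ⟨_, hsmul ψ c N⁻¹ (by positivity) hP, fun u => ?_⟩
    rw [inv_mul_le_iff₀ hN, mul_one]; exact h u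
  set ρ := sSup R with hρ
  have P1 : ∀ ψ c N, P ψ c → 0 < N → (∀ u, ψ u ≤ N) → c ≤ ρ * N := by
    intro ψ c N hP hN h
    have := le_csSup hb (scale ψ c N hP hN h)
    rwa [inv_mul_le_iff₀ hN, mul_comm] at this
  obtain ⟨M1, hM1⟩ := (hconc _ _ hP1).bdd
  have hM1' : ∀ u, ψ1 u ≤ |M1| + 1 := fun u => by
    linarith [le_abs_self (ψ1 u), hM1 u, le_abs_self M1]
  have hne : R.Nonempty := ⟨_, scale ψ1 c1 _ hP1 (by positivity) hM1'⟩
  have hρ0 : 0 < ρ := by
    have := P1 ψ1 c1 _ hP1 (by positivity) hM1'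
    by_contra hcon
    have : ρ * (|M1| + 1) ≤ 0 := mul_nonpos_of_nonpos_of_nonneg (not_lt.1 hcon) (by positivity)
    linarith
  have hρ1 : ρ ≤ 1 := csSup_le hne hR1
  have near : ∀ ε > 0, ∃ ψ c u, P ψ c ∧ ρ - ε < c ∧ ∀ v, ψ v ≤ tc u v := by
    intro ε hε
    obtain ⟨c, ⟨ψ, hP, h1⟩, hc⟩ := exists_lt_of_lt_csSup hne
      (show max (ρ - ε) 0 < ρ from max_lt (by linarith) hρ0)
    have hc0 : 0 < c := (le_max_right _ _).trans_lt hc
    obtain ⟨u', hu'⟩ := hdom ψ c hP hc0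
    obtain ⟨u, hu0, hu⟩ := (hconc _ _ hP).exists_max hU ⟨u', hc0.trans_le hu'⟩
    refine ⟨_, _, u, hsmul ψ c (ψ u)⁻¹ (by positivity) hP, ?_, fun v => ?_⟩
    · have : c ≤ (ψ u)⁻¹ * c := by
        rw [le_inv_mul_iff₀ hu0]; exact mul_le_of_le_one_left hc0.le (h1 u)
      exact ((le_max_left _ _).trans_lt hc).trans_le this
    · rw [inv_mul_le_iff₀ hu0]; exact hu v
  have h := fun n : ℕ => near (1 / ((n : ℝ) + 1)) (by positivity)
  choose Ψ C x hP hC hΨ using h
  have h0 : Tendsto (fun n : ℕ => ρ - 1 / ((n : ℝ) + 1)) atTop (𝓝 ρ) := by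
    simpa using (tendsto_const_nhds (x := ρ)).sub tendsto_one_div_add_atTop_nhds_zero_nat
  have hcau : CauchySeq x := by
    rw [Metric.cauchySeq_iff]
    intro ε hε
    have h0' : 0 < min (ε / 2) (π / 2) := lt_min (by linarith) (by linarith [pi_pos])
    have h1 := min_le_right (ε / 2) (π / 2)
    have h2 := min_le_left (ε / 2) (π / 2)
    set η := min (ε / 2) (π / 2)
    have hc := cos_lt_one' h0' (by linarith)
    have hc' : 0 ≤ cos η := cos_nonneg_of_mem_Icc ⟨by linarith, h1⟩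
    obtain ⟨n0, hn0⟩ := eventually_atTop.1
      (h0.eventually (lt_mem_nhds (show ρ * (1 + cos η) / 2 < ρ by nlinarith)))
    refine ⟨n0, fun m hm n hn => ?_⟩
    by_contra hcon
    have := P1 _ _ (1 + cos η) (hadd _ _ _ _ (hP m) (hP n)) (by linarith) fun v => by
      have t := dist_triangle_right (x m) (x n) v
      rcases le_total η (dist (x m) v) with h3 | h3
      · linarith [hΨ m v, hΨ n v, tc_le_cos h0'.le (by linarith) h3, tc_le_one (x n) v]
      · linarith [hΨ m v, hΨ n v, tc_le_one (x m) v,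
          tc_le_cos (u := x n) (v := v) h0'.le (by linarith) (by linarith)]
    linarith [hn0 m hm, hn0 n hn, hC m, hC n]
  obtain ⟨u, hu⟩ := cauchySeq_tendsto_of_complete hcau
  refine ⟨ρ, ⟨hρ0, hρ1⟩, u, fun ψ c hψ => ?_⟩
  obtain ⟨M0, hM0⟩ := (hconc _ _ hψ).bdd
  set M := |M0| + 1 with hMdef
  have hM : ∀ v, |ψ v| ≤ M := fun v => by linarith [hM0 v, le_abs_self M0]
  have hMpos : 0 < M := by positivity
  have key : ∀ η > 0, c ≤ ρ * ψ u + η := by
    intro η hη
    obtain ⟨δ0, hδ0, hδ⟩ := Metric.continuous_iff.1 (hconc _ _ hψ).cont u η hη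
    have d0 : 0 < min (δ0 / 2) (π / 2) := lt_min (by linarith) (by linarith [pi_pos])
    have d1 := min_le_right (δ0 / 2) (π / 2)
    have d2 := min_le_left (δ0 / 2) (π / 2)
    set δ := min (δ0 / 2) (π / 2)
    have hc := cos_lt_one' d0 (by linarith)
    have hc' : 0 ≤ cos δ := cos_nonneg_of_mem_Icc ⟨by linarith, d1⟩
    set t := (1 - cos δ) / (2 * M) with ht
    have ht0 : 0 < t := div_pos (by linarith) (by positivity)
    have hte : t * M = (1 - cos δ) / 2 := by rw [ht]; field_simp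
    have hu1 := abs_le.1 (hM u)
    have hu2 : -(t * M) ≤ t * ψ u := by nlinarith [hu1.1]
    have htη : 0 < t * η := mul_pos ht0 hη
    have ev : ∀ᶠ n : ℕ in atTop, ρ - 1 / ((n : ℝ) + 1) + t * c ≤ ρ * (1 + t * (ψ u + η)) := by
      filter_upwards [Metric.tendsto_nhds.1 hu δ d0] with n hn
      have := P1 _ _ (1 + t * (ψ u + η)) (hadd _ _ _ _ (hP n) (hsmul _ _ t ht0.le hψ))
        (by linarith) fun v => by
          rcases le_or_gt δ (dist (x n) v) with h3 | h3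
          · have a1 := tc_le_cos d0.le (by linarith) h3
            have a2 : t * ψ v ≤ t * M :=
              mul_le_mul_of_nonneg_left (abs_le.1 (hM v)).2 ht0.le
            linarith [hΨ n v]
          · have a1 := hδ v (by linarith [dist_triangle_left v u (x n)])
            rw [Real.dist_eq] at a1
            have a2 : t * ψ v ≤ t * (ψ u + η) :=
              mul_le_mul_of_nonneg_left (by linarith [(abs_lt.1 a1).2]) ht0.le
            linarith [hΨ n v, tc_le_one (x n) v]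
      linarith [hC n]
    have := le_of_tendsto (h0.add_const (t * c)) ev
    have h5 : t * c ≤ t * (ρ * (ψ u + η)) := by linarith
    have h6 := le_of_mul_le_mul_left h5 ht0
    nlinarith
  exact le_of_forall_pos_le_add key

end Pool.Agent.Lib.MP_6bc951_gt
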