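import Pool.Agent.Lib.MP_6bc951_gt.Defs

open Real Set Filter Topology

namespace Pool.Agent.Lib.MP_6bc951_gt

universe u

variable {ι : Type*}

noncomputable def lc (φ : ι → ℝ) : (ι →₀ ℝ) →ₗ[ℝ] ℝ := Finsupp.linearCombination ℝ φ

lemma lc_apply (φ : ι → ℝ) (μ : ι →₀ ℝ) : lc φ μ = ∑ i ∈ μ.support, μ i * φ i := by
  unfold lc
  rw [Finsupp.linearCombination_apply, Finsupp.sum]
  simp

@[simp] lemma lc_single (φ : ι → ℝ) (i : ι) (c : ℝ) : lc φ (Finsupp.single i c) = c * φ i := by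
  unfold lc; simp

lemma lc_mono {φ ψ : ι → ℝ} (h : ∀ i, φ i ≤ ψ i) {μ : ι →₀ ℝ} (hμ : 0 ≤ μ) :
    lc φ μ ≤ lc ψ μ := by
  rw [lc_apply, lc_apply]
  exact Finset.sum_le_sum fun i _ => mul_le_mul_of_nonneg_left (h i) (hμ i)

lemma lc_mul (c : ℝ) (φ : ι → ℝ) (μ : ι →₀ ℝ) : lc (fun i => c * φ i) μ = c * lc φ μ := by
  rw [lc_apply, lc_apply, Finset.mul_sum]
  exact Finset.sum_congr rfl fun i _ => by ring

lemma lc_sub (φ ψ : ι → ℝ) (μ : ι →₀ ℝ) : lc (fun i => φ i - ψ i) μ = lc φ μ - lc ψ μ := by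
  rw [lc_apply, lc_apply, lc_apply, ← Finset.sum_sub_distrib]
  exact Finset.sum_congr rfl fun i _ => by ring

lemma lc_nonneg {φ : ι → ℝ} (h : ∀ i, 0 ≤ φ i) {μ : ι →₀ ℝ} (hμ : 0 ≤ μ) : 0 ≤ lc φ μ := by
  rw [lc_apply]
  exact Finset.sum_nonneg fun i _ => mul_nonneg (hμ i) (h i)

lemma lc_nonpos {φ : ι → ℝ} (h : ∀ i, φ i ≤ 0) {μ : ι →₀ ℝ} (hμ : 0 ≤ μ) : lc φ μ ≤ 0 := by
  rw [lc_apply]
  exact Finset.sum_nonpos fun i _ => mul_nonpos_of_nonneg_of_nonpos (hμ i) (h i)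

noncomputable def pr (k : ι → ι → ℝ) (μ ν : ι →₀ ℝ) : ℝ := lc (fun i => lc (k i) ν) μ

lemma pr_apply (k : ι → ι → ℝ) (μ ν : ι →₀ ℝ) :
    pr k μ ν = ∑ i ∈ μ.support, ∑ j ∈ ν.support, μ i * ν j * k i j := by
  unfold pr
  rw [lc_apply]
  refine Finset.sum_congr rfl fun i _ => ?_
  rw [lc_apply, Finset.mul_sum]
  exact Finset.sum_congr rfl fun j _ => by ring

lemma pr_comm {k : ι → ι → ℝ} (hk : ∀ i j, k i j = k j i) (μ ν : ι →₀ ℝ) :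
    pr k μ ν = pr k ν μ := by
  rw [pr_apply, pr_apply, Finset.sum_comm]
  exact Finset.sum_congr rfl fun i _ => Finset.sum_congr rfl fun j _ => by rw [hk]; ring

lemma pr_add_left (k : ι → ι → ℝ) (μ μ' ν : ι →₀ ℝ) :
    pr k (μ + μ') ν = pr k μ ν + pr k μ' ν := map_add _ _ _

lemma pr_smul_left (k : ι → ι → ℝ) (c : ℝ) (μ ν : ι →₀ ℝ) :
    pr k (c • μ) ν = c * pr k μ ν := map_smul _ _ _

lemma pr_single_left (k : ι → ι → ℝ) (i : ι) (c : ℝ) (ν : ι →₀ ℝ) :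
    pr k (Finsupp.single i c) ν = c * lc (k i) ν := lc_single _ _ _

lemma pr_add_add {k : ι → ι → ℝ} (hk : ∀ i j, k i j = k j i) (μ ν : ι →₀ ℝ) :
    pr k (μ + ν) (μ + ν) = pr k μ μ + 2 * pr k μ ν + pr k ν ν := by
  rw [pr_add_left, pr_comm hk μ (μ + ν), pr_comm hk ν (μ + ν), pr_add_left, pr_add_left,
    pr_comm hk ν μ]
  ring

lemma pr_nonneg {k : ι → ι → ℝ} (hk : ∀ i j, 0 ≤ k i j) {μ ν : ι →₀ ℝ} (hμ : 0 ≤ μ) (hν : 0 ≤ ν) :
    0 ≤ pr k μ ν := lc_nonneg (fun i => lc_nonneg (hk i) hν) hμ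

lemma pr_sub (k k' : ι → ι → ℝ) (μ ν : ι →₀ ℝ) :
    pr (fun i j => k i j - k' i j) μ ν = pr k μ ν - pr k' μ ν := by
  unfold pr
  rw [← lc_sub]
  congr 2
  ext i
  exact lc_sub _ _ _

/-- type synonym -/
def H0 (κ : Type u) : Type u := κ →₀ ℝ

noncomputable instance (κ : Type u) : AddCommGroup (H0 κ) :=
  inferInstanceAs (AddCommGroup (κ →₀ ℝ))

noncomputable instance (κ : Type u) : Module ℝ (H0 κ) := inferInstanceAs (Module ℝ (κ →₀ ℝ))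

theorem exists_hilbert {κ : Type u} (k : κ → κ → ℝ) (hk : ∀ i j, k i j = k j i)
    (hpsd : ∀ ν : κ →₀ ℝ, 0 ≤ pr k ν ν) :
    ∃ (H : Type u) (_ : NormedAddCommGroup H) (_ : InnerProductSpace ℝ H) (_ : CompleteSpace H)
      (J : (κ →₀ ℝ) →ₗ[ℝ] H), DenseRange J ∧ ∀ μ ν, inner ℝ (J μ) (J ν) = pr k μ ν := by
  let c : PreInnerProductSpace.Core ℝ (H0 κ) :=
    { inner := fun μ ν => pr k μ ν
      conj_inner_symm := fun μ ν => by simpa using pr_comm hk ν μ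
      re_inner_nonneg := fun μ => by simpa using hpsd μ
      add_left := fun μ ν ρ => pr_add_left k μ ν ρ
      smul_left := fun μ ν r => pr_smul_left k r μ ν }
  let _ : SeminormedAddCommGroup (H0 κ) := InnerProductSpace.Core.toSeminormedAddCommGroup (𝕜 := ℝ)
  let _ : InnerProductSpace ℝ (H0 κ) := .ofCore c
  refine ⟨UniformSpace.Completion (H0 κ), inferInstance, inferInstance, inferInstance,
    (UniformSpace.Completion.toComplL (𝕜 := ℝ) (E := H0 κ)).toLinearMap, ?_, fun μ ν => ?_⟩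
  · exact UniformSpace.Completion.denseRange_coe (α := H0 κ)
  · exact UniformSpace.Completion.inner_coe (𝕜 := ℝ) (E := H0 κ) μ ν

theorem exists_riesz {E H : Type*} [AddCommGroup E] [Module ℝ E] [NormedAddCommGroup H]
    [InnerProductSpace ℝ H] [CompleteSpace H] {J : E →ₗ[ℝ] H} (hJ : DenseRange J)
    (φ : E →ₗ[ℝ] ℝ) (h : ∀ x, ‖φ x‖ ≤ 1 * ‖J x‖) : ∃ v : H, ∀ x, inner ℝ v (J x) = φ x :=
  ⟨(InnerProductSpace.toDual ℝ H).symm (φ.extendOfNorm J), fun x => by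
    rw [InnerProductSpace.toDual_symm_apply, LinearMap.extendOfNorm_eq hJ ⟨1, h⟩]⟩

end Pool.Agent.Lib.MP_6bc951_gt
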