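import Pool.Agent.Lib.MP_6bc951_gt.Sturm

open Real Set Filter Topology

namespace Pool.Agent.Lib.MP_6bc951_gt

universe u

variable {X : Type*} [MetricSpace X]

lemma arcsin_aux {δ x : ℝ} (hδ0 : 0 < δ) (hδ : δ ≤ 1) (hx : 0 < x) (hx' : x ≤ sin (δ / 2)) :
    0 < arcsin x ∧ arcsin x ≤ δ / 2 ∧ sin (arcsin x) = x := by
  have h3 := pi_gt_three
  refine ⟨arcsin_pos.2 hx, ?_, sin_arcsin (by linarith) (hx'.trans (sin_le_one _))⟩
  rw [← arcsin_sin (x := δ / 2) (by linarith) (by linarith)]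
  exact arcsin_le_arcsin hx'

lemma wray_merge (hX : GoodSpace X) (p : X) (a b : WRay p) (l : List (WRay p)) :
    ∃ (ω : WRay p → ℝ) (D : ℝ), ∀ ε > 0, ∃ c : WRay p,
      c.pair c ≤ a.pair a + 2 * a.pair b + b.pair b + ε * D ∧
      ∀ k ∈ l, c.pair k ≤ a.pair k + b.pair k + ε * ω k := by
  by_cases ha : a.μ = 0
  · refine ⟨fun _ => 0, 0, fun ε _ => ⟨b, ?_, fun k _ => ?_⟩⟩ <;> simp [WRay.pair, ha]
  by_cases hb : b.μ = 0
  · refine ⟨fun _ => 0, 0, fun ε _ => ⟨a, ?_, fun k _ => ?_⟩⟩ <;> simp [WRay.pair, hb]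
  have ra := a.valid.resolve_left ha
  have rb := b.valid.resolve_left hb
  have ha0 : 0 < a.μ := lt_of_le_of_ne a.nonneg (Ne.symm ha)
  have hb0 : 0 < b.μ := lt_of_le_of_ne b.nonneg (Ne.symm hb)
  refine ⟨fun k => k.μ * (a.μ + b.μ + 2 * a.μ * b.μ), 10 * a.μ * b.μ, fun ε hε => ?_⟩
  have ev : ∀ᶠ δ in 𝓝[>] (0 : ℝ), ∀ k ∈ {k | k ∈ l}, k.μ = 0 ∨
      ((δ ≤ a.l ∧ δ ≤ k.l ∧ ∀ s ∈ Ioc 0 δ, ∀ t ∈ Ioc 0 δ,
        ratio p a.γ k.γ s t ≤ cosAng p a.γ a.l k.γ k.l + ε) ∧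
      (δ ≤ b.l ∧ δ ≤ k.l ∧ ∀ s ∈ Ioc 0 δ, ∀ t ∈ Ioc 0 δ,
        ratio p b.γ k.γ s t ≤ cosAng p b.γ b.l k.γ k.l + ε)) := by
    rw [eventually_all_finite (List.finite_toSet l)]
    intro k _
    rcases k.valid with h | h
    · exact Eventually.of_forall fun _ => Or.inl h
    · filter_upwards [cosAng_eventually hX ra h hε, cosAng_eventually hX rb h hε] with δ h1 h2
      exact Or.inr ⟨h1, h2⟩
  obtain ⟨δ, ⟨hk, hda, hdb, hab⟩, hδ0, hδ1⟩ :=
    ((ev.and (cosAng_eventually hX ra rb hε)).and (Ioc_mem_nhdsGT one_pos)).exists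
  have h3 := pi_gt_three
  have hsd : 0 < sin (δ / 2) := sin_pos_of_pos_of_lt_pi (by linarith) (by linarith)
  set τ := sin (δ / 2) / (a.μ + b.μ + 1) with hτ
  have hτ0 : 0 < τ := by positivity
  have hτe : τ * (a.μ + b.μ + 1) = sin (δ / 2) := by rw [hτ]; field_simp
  obtain ⟨p1, q1, e1⟩ := arcsin_aux (x := a.μ * τ) hδ0 hδ1 (by positivity) (by nlinarith)
  obtain ⟨p2, q2, e2⟩ := arcsin_aux (x := b.μ * τ) hδ0 hδ1 (by positivity) (by nlinarith)
  obtain ⟨p0, q0, e0⟩ := arcsin_aux (x := τ) hδ0 hδ1 (by positivity) (by nlinarith)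
  set s1 := arcsin (a.μ * τ)
  set s2 := arcsin (b.μ * τ)
  set s0 := arcsin τ
  have m1 : s1 ∈ Ioc 0 a.l := ⟨p1, by linarith⟩
  have m1' : 2 * s1 ∈ Ioc 0 a.l := ⟨by linarith, by linarith⟩
  have m2 : s2 ∈ Ioc 0 b.l := ⟨p2, by linarith⟩
  have d1 := ra.dist_eq m1
  have d1' := ra.dist_eq m1'
  have d2 := rb.dist_eq m2
  have tri := dist_triangle_left (a.γ s1) (b.γ s2) p
  rw [d1, d2] at tri
  obtain ⟨m, hm, hmw⟩ := hX.midpoint (x := a.γ s1) (y := b.γ s2) (by linarith)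
  set θ := dist (a.γ s1) (b.γ s2) with hθ
  have hθ0 : 0 ≤ θ := dist_nonneg
  set κ := 2 * cos (θ / 2) with hκ
  have hκ0 : 0 ≤ κ := by
    have : 0 ≤ cos (θ / 2) := cos_nonneg_of_mem_Icc ⟨by linarith, by linarith⟩
    positivity
  have hκ2 : κ ^ 2 = 2 + 2 * cos θ := by
    have := cos_sq (θ / 2)
    rw [show 2 * (θ / 2) = θ by ring] at this
    rw [hκ]; nlinarith
  set g := cosAng p a.γ a.l b.γ b.l with hg
  have sp1 := ra.sin_pos m1
  have sp2 := rb.sin_pos m2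
  have sp1' := ra.sin_pos m1'
  have B1 : g * (sin s1 * sin s2) ≤ cos θ - cos s1 * cos s2 := by
    have := cosAng_le hX ra rb m1 m2
    unfold ratio bil at this
    rwa [le_div_iff₀ (mul_pos sp1 sp2), d1, d2] at this
  have B2 : cos θ - cos s1 * cos s2 ≤ (g + ε) * (sin s1 * sin s2) := by
    have := hab s1 ⟨p1, by linarith⟩ s2 ⟨p2, by linarith⟩
    unfold ratio bil at this
    rwa [div_le_iff₀ (mul_pos sp1 sp2), d1, d2] at this
  have B3 : cos (dist (a.γ (2 * s1)) (b.γ s2)) - cos (2 * s1) * cos s2 ≤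
      (g + ε) * (sin (2 * s1) * sin s2) := by
    have := hab (2 * s1) ⟨by linarith, by linarith⟩ s2 ⟨p2, by linarith⟩
    unfold ratio bil at this
    rwa [div_le_iff₀ (mul_pos sp1' sp2), d1', d2] at this
  have c1 : 0 ≤ cos s1 := cos_nonneg_of_mem_Icc ⟨by linarith, by linarith⟩
  have c1' : cos s1 ≤ 1 := cos_le_one _
  have c2 : 0 ≤ cos s2 := cos_nonneg_of_mem_Icc ⟨by linarith, by linarith⟩
  have c2' : cos s2 ≤ 1 := cos_le_one _
  set E := cos s1 + cos s2 - κ * cos (dist p m) with hE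
  have E0 : 0 ≤ E := by
    have := hmw p
    rw [dist_comm m p, dist_comm _ p, dist_comm _ p, d1, d2] at this
    linarith
  have E1 : E ≤ 2 * ε * a.μ * b.μ * τ ^ 2 := by
    have k1 := hX.convex (ra.unit.mono le_rfl m1'.2) m1'.1.le (by linarith) m s1
      ⟨p1.le, by linarith⟩
    rw [ra.zero, sub_zero, sub_zero, show 2 * s1 - s1 = s1 by ring, sin_two_mul, hm] at k1
    have k2 : κ * cos s1 ≤ cos (dist p m) + cos (dist (a.γ (2 * s1)) m) := by
      have : sin s1 * (κ * cos s1) ≤ sin s1 * (cos (dist p m) + cos (dist (a.γ (2 * s1)) m)) := by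
        rw [hκ]; linarith
      exact le_of_mul_le_mul_left this sp1
    have k3 := hmw (a.γ (2 * s1))
    rw [ra.unit s1 ⟨p1.le, m1.2⟩ (2 * s1) ⟨m1'.1.le, m1'.2⟩, cos_abs,
      show s1 - 2 * s1 = -s1 by ring, cos_neg, dist_comm m, dist_comm (b.γ s2)] at k3
    have k4 := mul_le_mul_of_nonneg_left k2 hκ0
    have k5 := mul_le_mul_of_nonneg_left B1 c1
    rw [sin_two_mul, cos_two_mul] at B3
    have k6 : E ≤ 2 * ε * (cos s1 * (sin s1 * sin s2)) := by
      have : κ * (κ * cos s1) = (2 + 2 * cos θ) * cos s1 := by rw [← hκ2]; ring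
      rw [hE]
      linarith
    have k7 : cos s1 * (sin s1 * sin s2) ≤ a.μ * b.μ * τ ^ 2 := by
      have : sin s1 * sin s2 = a.μ * b.μ * τ ^ 2 := by rw [e1, e2]; ring
      have h0 : 0 ≤ sin s1 * sin s2 := (mul_pos sp1 sp2).le
      rw [← this]
      exact mul_le_of_le_one_left h0 c1'
    have k8 := mul_le_mul_of_nonneg_left k7 (show 0 ≤ 2 * ε by positivity)
    linarith
  obtain ⟨c, hc, hck, -⟩ := exists_wray hX p m (c := κ / τ) (by positivity)
  have τ2 : 0 < τ ^ 2 := by positivity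
  refine ⟨c, ?_, fun k hkl => ?_⟩
  · rw [c.pair_self, a.pair_self, b.pair_self, WRay.pair, hc, ← hg]
    have f1 : (κ / τ * sin (dist p m)) ^ 2 = (κ ^ 2 - (κ * cos (dist p m)) ^ 2) / τ ^ 2 := by
      rw [mul_pow (κ / τ), mul_pow κ (cos (dist p m)), div_pow, sin_sq]
      field_simp
    rw [f1, div_le_iff₀ τ2]
    have f2 : κ * cos (dist p m) = cos s1 + cos s2 - E := by rw [hE]; ring
    have f3 := sin_sq_add_cos_sq s1
    have f4 := sin_sq_add_cos_sq s2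
    rw [e1] at f3
    rw [e2] at f4
    rw [e1, e2] at B2
    rw [f2, hκ2]
    have f5 : E * (cos s1 + cos s2) ≤ E * 2 := mul_le_mul_of_nonneg_left (by linarith) E0
    have f6 := sq_nonneg E
    linarith
  · by_cases hk0 : k.μ = 0
    · simp [WRay.pair, hk0]
    obtain ⟨⟨-, hkl', ha'⟩, -, -, hb'⟩ := (hk k hkl).resolve_left hk0
    have rk := k.valid.resolve_left hk0
    have m0 : s0 ∈ Ioc 0 k.l := ⟨p0, by linarith⟩
    have d0 := rk.dist_eq m0
    have hkn := k.nonneg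
    have g1 := hck k (k.γ s0) (k.μ / τ) (by positivity) (by rw [d0, e0]; field_simp)
      (Or.inr (by rw [d0]; exact ⟨m0, rfl⟩))
    have g2 := ha' s1 ⟨p1, by linarith⟩ s0 ⟨p0, by linarith⟩
    have g3 := hb' s2 ⟨p2, by linarith⟩ s0 ⟨p0, by linarith⟩
    unfold ratio at g2 g3
    rw [div_le_iff₀ (mul_pos sp1 (rk.sin_pos m0)), e1, e0] at g2
    rw [div_le_iff₀ (mul_pos sp2 (rk.sin_pos m0)), e2, e0] at g3
    have g4 : κ * bil p m (k.γ s0) ≤ bil p (a.γ s1) (k.γ s0) + bil p (b.γ s2) (k.γ s0) + E := by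
      have := hmw (k.γ s0)
      unfold bil
      rw [d1, d2]
      have h5 : E * cos (dist p (k.γ s0)) ≤ E := mul_le_of_le_one_right E0 (cos_le_one _)
      rw [hE] at h5 ⊢
      linarith
    refine g1.trans ?_
    have g5 : κ / τ * (k.μ / τ) * bil p m (k.γ s0) = k.μ * (κ * bil p m (k.γ s0)) / τ ^ 2 := by
      field_simp
    rw [g5, div_le_iff₀ τ2]
    unfold WRay.pair
    have g6 : κ * bil p m (k.γ s0) ≤ (a.μ * cosAng p a.γ a.l k.γ k.l +
        b.μ * cosAng p b.γ b.l k.γ k.l + ε * (a.μ + b.μ + 2 * a.μ * b.μ)) * τ ^ 2 := by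
      linarith
    have := mul_le_mul_of_nonneg_left g6 hkn
    linarith

theorem GoodSpace.sturm_ineq (hX : GoodSpace X) {ι : Type*} (s : Finset ι) (p : X) (q : ι → X)
    (c : ι → ℝ) (hc : ∀ i ∈ s, 0 ≤ c i) :
    0 ≤ ∑ i ∈ s, ∑ j ∈ s, c i * c j * bil p (q i) (q j) := by
  have h := fun i : s => exists_wray hX p (q i) (hc i i.2)
  choose a h1 h2 h3 using h
  have key := list_form_nonneg (fun a b : WRay p => a.pair b) WRay.pair_comm
    (fun a => by rw [a.pair_self]; positivity) (wray_merge hX p) _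
    ((Finset.univ : Finset s).toList.map a) rfl
  simp only [List.map_map, Function.comp_def, Finset.sum_map_toList] at key
  refine key.trans ?_
  rw [← Finset.sum_coe_sort s]
  refine Finset.sum_le_sum fun i _ => ?_
  rw [← Finset.sum_coe_sort s]
  exact Finset.sum_le_sum fun j _ => h2 i (a j) (q j) (c j) (hc j j.2) (h1 j) (h3 j)

/-- Lang-Schroeder-Sturm inequality -/
theorem IsAlexOne.sturm_ineq {L : Type u} [MetricSpace L] (hL : IsAlexOne L) {ι : Type*}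
    (s : Finset ι) (p : L) (q : ι → L) (c : ι → ℝ) (hc : ∀ i ∈ s, 0 ≤ c i) :
    (∑ i ∈ s, c i * cos (dist p (q i))) ^ 2 ≤
      ∑ i ∈ s, ∑ j ∈ s, c i * c j * cos (dist (q i) (q j)) := by
  obtain ⟨X, _, j, hj, hX⟩ := hL.exists_good
  have := hX.sturm_ineq s (j p) (fun i => j (q i)) c hc
  simp only [bil, hj, mul_sub, Finset.sum_sub_distrib] at this
  rw [sq, Finset.sum_mul_sum]
  refine le_trans (le_of_eq ?_) (sub_nonneg.1 this)
  refine Finset.sum_congr rfl fun i _ => Finset.sum_congr rfl fun j _ => by ring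

end Pool.Agent.Lib.MP_6bc951_gt
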