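import Pool.Agent.Lib.MP_6bc951_gt.Kernel
import Pool.Agent.Lib.MP_6bc951_gt.Farkas
import Pool.Agent.Lib.MP_6bc951_gt.Sturm2

open Real Set Filter Topology

namespace Pool.Agent.Lib.MP_6bc951_gt

universe u v

variable {L : Type u} {U : Type v} [MetricSpace L] [MetricSpace U] {Q : Set L} {f : Q → U}

lemma conc_lc (hU : IsCATOne U) {ι : Type*} (g : ι → U) {μ : ι →₀ ℝ} (hμ : 0 ≤ μ) :
    Conc fun u => lc (fun i => tc u (g i)) μ := by
  simp only [lc_apply]
  exact Conc.sum _ fun i _ => (hU.conc_tc (g i)).smul (hμ i)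

lemma pr_tc_le (hU : IsCATOne U) {ι : Type*} (g : ι → U) {μ : ι →₀ ℝ} (hμ : 0 ≤ μ) :
    pr (fun i j => tc (g i) (g j)) μ μ ≤ 0 ∨ ∃ u, 0 < lc (fun i => tc u (g i)) μ ∧
      pr (fun i j => tc (g i) (g j)) μ μ ≤ (lc (fun i => tc u (g i)) μ) ^ 2 := by
  by_cases h : ∃ u, 0 < lc (fun i => tc u (g i)) μ
  · obtain ⟨u, h0, hu⟩ := (conc_lc hU g hμ).exists_max hU h
    refine Or.inr ⟨u, h0, ?_⟩
    have := lc_mono (fun i => hu (g i)) hμ
    rw [lc_mul, ← sq] at this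
    exact this
  · push Not at h
    exact Or.inl (lc_nonpos (fun i => h (g i)) hμ)

/-- cosine of the distance to points of `Q` -/
noncomputable def cq (Q : Set L) (x : L) : Q → ℝ := fun q => cos (dist x q)

noncomputable def kq (Q : Set L) : Q → Q → ℝ := fun a b => cos (dist (a : L) b)

lemma kq_symm (a b : Q) : kq Q a b = kq Q b a := by unfold kq; rw [dist_comm]

lemma mixed_pos (hL : IsAlexOne L) (m x : L) {s : ℝ} (hs : 0 ≤ s) {μ : Q →₀ ℝ} (hμ : 0 ≤ μ) :
    (s * cos (dist m x) + lc (cq Q m) μ) ^ 2 ≤ s ^ 2 + 2 * s * lc (cq Q x) μ + pr (kq Q) μ μ := by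
  have := hL.sturm_ineq (Finset.insertNone μ.support) m (fun o => o.elim x Subtype.val)
    (fun o => o.elim s μ) (by
      rintro (_ | i) _
      · exact hs
      · exact hμ i)
  simp only [Finset.sum_insertNone, Option.elim, dist_self, cos_zero, mul_one,
    Finset.sum_add_distrib] at this
  rw [lc_apply, lc_apply, pr_apply]
  have e1 : ∑ i ∈ μ.support, s * μ i * cos (dist x i) = s * ∑ i ∈ μ.support, μ i * cq Q x i := by
    rw [Finset.mul_sum]; exact Finset.sum_congr rfl fun i _ => by unfold cq; ring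
  have e2 : ∑ i ∈ μ.support, μ i * s * cos (dist (i : L) x) =
      s * ∑ i ∈ μ.support, μ i * cq Q x i := by
    rw [Finset.mul_sum]; exact Finset.sum_congr rfl fun i _ => by unfold cq; rw [dist_comm]; ring
  rw [e1, e2] at this
  unfold cq kq at *
  linarith

lemma sq_lc_le (hL : IsAlexOne L) (m : L) {μ : Q →₀ ℝ} (hμ : 0 ≤ μ) :
    (lc (cq Q m) μ) ^ 2 ≤ pr (kq Q) μ μ := by
  simpa using mixed_pos hL m m le_rfl hμ

lemma mem_of_ext (hf : LipschitzWith 1 f) (hmax : IsMaximalShort Q f) (x : L) (y : U)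
    (h : ∀ q : Q, dist y (f q) ≤ dist x q) : x ∈ Q := by
  classical
  by_contra hx
  apply hmax
  refine ⟨insert x Q, ssubset_insert hx, fun a => if ha : a.1 ∈ Q then f ⟨a.1, ha⟩ else y,
    LipschitzWith.of_dist_le_mul fun a b => ?_, fun q => by simp⟩
  have key : ∀ a : (insert x Q : Set L), a.1 ∉ Q → a.1 = x := fun a ha =>
    (mem_insert_iff.1 a.2).resolve_right ha
  simp only [NNReal.coe_one, one_mul, Subtype.dist_eq]
  by_cases ha : a.1 ∈ Q <;> by_cases hb : b.1 ∈ Q <;> simp only [ha, hb, dite_true, dite_false]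
  · simpa [Subtype.dist_eq] using hf.dist_le_mul ⟨a.1, ha⟩ ⟨b.1, hb⟩
  · rw [key b hb, dist_comm, dist_comm a.1]; exact h ⟨a.1, ha⟩
  · rw [key a ha]; exact h ⟨b.1, hb⟩
  · simp

lemma kq_le (hL : IsAlexOne L) (hf : LipschitzWith 1 f) (a b : Q) : kq Q a b ≤ tc (f a) (f b) :=
  cos_le_tc (hL.diam_le _ _) (by simpa [Subtype.dist_eq] using hf.dist_le_mul a b)

lemma pr_kq_le (hL : IsAlexOne L) (hf : LipschitzWith 1 f) {μ : Q →₀ ℝ} (hμ : 0 ≤ μ) :
    pr (kq Q) μ μ ≤ pr (fun i j => tc (f i) (f j)) μ μ :=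
  lc_mono (fun i => lc_mono (kq_le hL hf i) hμ) hμ

lemma dist_le_of_cos_le_tc {x y : L} {u w : U} (huw : dist u w ≤ π)
    (h : cos (dist x y) ≤ tc u w) : dist u w ≤ dist x y := by
  rw [tc_of_le huw] at h
  by_contra hcon
  have := cos_lt_cos_of_nonneg_of_le_pi dist_nonneg huw (not_le.1 hcon)
  linarith

/-- Kirszbraun theorem: no center -/
theorem no_center (hL : IsAlexOne L) (hU : IsCATOne U) (hQ : Q ≠ univ) (hf : LipschitzWith 1 f)
    (hmax : IsMaximalShort Q f) : ¬ ∃ z : U, ∀ q, dist z (f q) ≤ π / 2 := by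
  rintro ⟨z, hz⟩
  obtain ⟨p, hp⟩ := (ne_univ_iff_exists_notMem Q).1 hQ
  have hz0 : ∀ q, 0 ≤ tc z (f q) := fun q => by
    have := cos_le_tc (by linarith [pi_pos]) (hz q)
    rwa [cos_pi_div_two] at this
  have fin : ∀ m : U, dist z m ≤ π / 2 → (∀ q : Q, cos (dist p q) ≤ tc m (f q)) → False := by
    intro m hm h
    refine hp (mem_of_ext hf hmax p m fun q => dist_le_of_cos_le_tc ?_ (h q))
    linarith [dist_triangle_left m (f q) z, hz q]
  have fin0 : (∀ q : Q, cos (dist p q) ≤ tc z (f q)) → False :=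
    fin z (by simp; linarith [pi_pos])
  have hs : ∀ q : Q, (0 : Q →₀ ℝ) ≤ Finsupp.single q 1 := fun q =>
    Finsupp.single_nonneg.2 zero_le_one
  rcases farkas hU (fun ψ c => ∃ μ : Q →₀ ℝ, 0 ≤ μ ∧ (ψ = fun u => lc (fun q => tc u (f q)) μ) ∧
      c = lc (cq Q p) μ)
    (by rintro _ _ ⟨μ, hμ, rfl, -⟩; exact conc_lc hU f hμ)
    (by
      rintro _ _ _ _ ⟨μ, hμ, rfl, rfl⟩ ⟨ν, hν, rfl, rfl⟩
      exact ⟨μ + ν, add_nonneg hμ hν, by simp, by simp⟩)
    (by
      rintro _ _ r hr ⟨μ, hμ, rfl, rfl⟩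
      exact ⟨r • μ, smul_nonneg hr hμ, by simp, by simp⟩)
    (by
      rintro _ _ ⟨μ, hμ, rfl, rfl⟩ hc
      have h1 := (sq_lc_le hL p hμ).trans (pr_kq_le hL hf hμ)
      rcases pr_tc_le hU f hμ with h | ⟨u, h0, h⟩
      · nlinarith
      · exact ⟨u, le_of_sq_le_sq (h1.trans h) h0.le⟩) with h | ⟨r, hr, u, h⟩
  · refine fin0 fun q => le_trans ?_ (hz0 q)
    simpa [cq] using h _ _ ⟨_, hs q, rfl, rfl⟩
  have h' : ∀ q : Q, cos (dist p q) ≤ r * tc u (f q) := fun q => by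
    simpa [cq] using h _ _ ⟨_, hs q, rfl, rfl⟩
  rcases le_or_gt π (dist u z) with h1 | h1
  · refine fin0 fun q => (h' q).trans ?_
    have := tc_add_nonpos h1 (f q)
    nlinarith [hz0 q, hr.1]
  rcases (dist_nonneg (x := u) (y := z)).eq_or_lt with h0 | h0
  · have := eq_of_dist_eq_zero h0.symm
    subst this
    exact fin0 fun q => (h' q).trans (mul_le_of_le_one_left (hz0 q) hr.2)
  obtain ⟨γ, hγ⟩ := hU.geodesic u z h1
  have hsθ : 0 < sin (dist u z) := sin_pos_of_pos_of_lt_pi h0 h1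
  have hr0 : 0 ≤ r * sin (dist u z) := (mul_pos hr.1 hsθ).le
  have hr1 : r * sin (dist u z) ≤ sin (dist u z) := mul_le_of_le_one_left hsθ.le hr.2
  have a0 : 0 ≤ arcsin (r * sin (dist u z)) := arcsin_nonneg.2 hr0
  have a1 : arcsin (r * sin (dist u z)) ≤ π / 2 := arcsin_le_pi_div_two _
  have a2 : arcsin (r * sin (dist u z)) ≤ dist u z := by
    rcases le_total (dist u z) (π / 2) with c | c
    · refine (arcsin_le_arcsin hr1).trans_eq (arcsin_sin (by linarith) c)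
    · linarith
  have a3 : sin (arcsin (r * sin (dist u z))) = r * sin (dist u z) :=
    sin_arcsin (by linarith) (hr1.trans (sin_le_one _))
  set a := arcsin (r * sin (dist u z))
  have mt : dist u z - a ∈ Icc 0 (dist u z) := ⟨by linarith, by linarith⟩
  refine fin (γ (dist u z - a)) (by rw [hγ.dist_right mt]; linarith) fun q => (h' q).trans ?_
  have k := hU.tc_concave hγ h1 mt (f q)
  rw [sub_sub_cancel, a3] at k
  have k2 : 0 ≤ sin (dist u z - a) * tc z (f q) :=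
    mul_nonneg (sin_nonneg_of_nonneg_of_le_pi mt.1 (by linarith)) (hz0 q)
  have k3 : sin (dist u z) * (r * tc u (f q)) ≤ sin (dist u z) * tc (γ (dist u z - a)) (f q) := by
    linarith
  exact le_of_mul_le_mul_left k3 hsθ

omit [MetricSpace L] in
theorem approx_neg (hU : IsCATOne U) (hc : ¬ ∃ z : U, ∀ q, dist z (f q) ≤ π / 2)
    {ν : Q →₀ ℝ} (hν : 0 ≤ ν) {ε : ℝ} (hε : 0 < ε) :
    ∃ μ : Q →₀ ℝ, 0 ≤ μ ∧ pr (fun i j => tc (f i) (f j)) (ν + μ) (ν + μ) ≤ ε ^ 2 := by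
  have key : ∃ μ : Q →₀ ℝ, 0 ≤ μ ∧ ∀ u, lc (fun q => tc u (f q)) (ν + μ) ≤ ε := by
    by_contra hcon
    push Not at hcon
    rcases farkas hU (fun ψ c => ∃ (s : ℝ) (μ : Q →₀ ℝ), 0 ≤ s ∧ 0 ≤ μ ∧
        (ψ = fun u => lc (fun q => tc u (f q)) (s • ν + μ)) ∧ c = s * ε)
      (by
        rintro _ _ ⟨s, μ, hs, hμ, rfl, -⟩
        exact conc_lc hU f (add_nonneg (smul_nonneg hs hν) hμ))
      (by
        rintro _ _ _ _ ⟨s, μ, hs, hμ, rfl, rfl⟩ ⟨t, ρ, ht, hρ, rfl, rfl⟩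
        refine ⟨s + t, μ + ρ, add_nonneg hs ht, add_nonneg hμ hρ, ?_, by ring⟩
        ext u
        simp only [map_add, map_smul, smul_eq_mul]; ring)
      (by
        rintro _ _ r hr ⟨s, μ, hs, hμ, rfl, rfl⟩
        refine ⟨r * s, r • μ, mul_nonneg hr hs, smul_nonneg hr hμ, ?_, by ring⟩
        ext u
        simp only [map_add, map_smul, smul_eq_mul]; ring)
      (by
        rintro _ _ ⟨s, μ, hs, hμ, rfl, rfl⟩ hc
        have hs0 : 0 < s := (mul_pos_iff_of_pos_right hε).1 hc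
        obtain ⟨u, hu⟩ := hcon (s⁻¹ • μ) (smul_nonneg (by positivity) hμ)
        refine ⟨u, ?_⟩
        simp only [map_add, map_smul, smul_eq_mul] at hu ⊢
        have := mul_le_mul_of_nonneg_left hu.le hs
        rw [mul_add, ← mul_assoc, mul_inv_cancel₀ hs0.ne', one_mul] at this
        exact this) with h | ⟨r, hr, u, h⟩
    · have := h _ _ ⟨1, 0, zero_le_one, le_rfl, rfl, rfl⟩
      linarith
    · refine hc ⟨u, fun q => ?_⟩
      have := h _ _ ⟨0, Finsupp.single q 1, le_rfl, Finsupp.single_nonneg.2 zero_le_one, rfl, rfl⟩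
      simp only [zero_mul, zero_smul, zero_add, lc_single, one_mul] at this
      have h0 : 0 ≤ tc u (f q) := nonneg_of_mul_nonneg_right this hr.1
      by_contra hcon'
      have h1 : π / 2 < min π (dist u (f q)) := lt_min (by linarith [pi_pos]) (not_le.1 hcon')
      have := cos_lt_cos_of_nonneg_of_le_pi (by linarith [pi_pos]) (min_le_left _ _) h1
      rw [cos_pi_div_two] at this
      unfold tc at h0
      linarith
  obtain ⟨μ, hμ, h⟩ := key
  refine ⟨μ, hμ, ?_⟩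
  rcases pr_tc_le hU f (add_nonneg hν hμ) with h1 | ⟨u, h0, h1⟩
  · exact h1.trans (sq_nonneg _)
  · exact h1.trans (pow_le_pow_left₀ h0.le (h u) 2)

end Pool.Agent.Lib.MP_6bc951_gt
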