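import Pool.Agent.Lib.MP_6bc951_gt.Main1

open Real Set Filter Topology

namespace Pool.Agent.Lib.MP_6bc951_gt

universe u v

variable {L : Type u} {U : Type v} [MetricSpace L] [MetricSpace U] {Q : Set L} {f : Q → U}

structure Ctx (Q : Set L) (f : Q → U) : Prop where
  hL : IsAlexOne L
  hU : IsCATOne U
  hQ : Q ≠ univ
  hf : LipschitzWith 1 f
  hmax : IsMaximalShort Q f

lemma Ctx.neg (h : Ctx Q f) {ν : Q →₀ ℝ} (hν : 0 ≤ ν) {ε : ℝ} (hε : 0 < ε) :
    ∃ μ : Q →₀ ℝ, 0 ≤ μ ∧ pr (fun i j => tc (f i) (f j)) (ν + μ) (ν + μ) ≤ ε ^ 2 :=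
  approx_neg h.hU (no_center h.hL h.hU h.hQ h.hf h.hmax) hν hε

lemma Ctx.nonempty (h : Ctx Q f) : ∃ p, p ∉ Q := (ne_univ_iff_exists_notMem Q).1 h.hQ

lemma Ctx.short (h : Ctx Q f) (a b : Q) : dist (f a) (f b) ≤ dist (a : L) b := by
  simpa [Subtype.dist_eq] using h.hf.dist_le_mul a b

lemma Ctx.tc_eq (h : Ctx Q f) (a b : Q) : tc (f a) (f b) = kq Q a b := by
  obtain ⟨p, -⟩ := h.nonempty
  set D : Q → Q → ℝ := fun i j => tc (f i) (f j) - kq Q i j with hD
  have hD0 : ∀ i j, 0 ≤ D i j := fun i j => sub_nonneg.2 (kq_le h.hL h.hf i j)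
  have hDs : ∀ i j, D i j = D j i := fun i j => by simp only [hD]; rw [tc_comm, kq_symm]
  have s1 : (0 : Q →₀ ℝ) ≤ Finsupp.single a 1 := Finsupp.single_nonneg.2 zero_le_one
  have s2 : (0 : Q →₀ ℝ) ≤ Finsupp.single b 1 := Finsupp.single_nonneg.2 zero_le_one
  have key : ∀ ε > 0, D a b ≤ 0 + ε := by
    intro ε hε
    obtain ⟨μ, hμ, hle⟩ := h.neg (add_nonneg s1 s2) (sqrt_pos.2 hε)
    rw [sq_sqrt hε.le] at hle
    have k1 := (sq_nonneg _).trans (sq_lc_le h.hL p (add_nonneg (add_nonneg s1 s2) hμ))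
    have k2 := pr_sub (fun i j => tc (f i) (f j)) (kq Q)
      (Finsupp.single a 1 + Finsupp.single b 1 + μ) (Finsupp.single a 1 + Finsupp.single b 1 + μ)
    rw [← hD, pr_add_add hDs, pr_add_add hDs] at k2
    have k3 := pr_nonneg hD0 (add_nonneg s1 s2) hμ
    have k4 := pr_nonneg hD0 hμ hμ
    have k5 := pr_nonneg hD0 s1 s1
    have k6 := pr_nonneg hD0 s2 s2
    have k7 : pr D (Finsupp.single a 1) (Finsupp.single b 1) = D a b := by
      rw [pr_single_left]; simp
    linarith [hD0 a b]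
  have := le_antisymm (le_of_forall_pos_le_add key) (hD0 a b)
  simp only [hD] at this
  linarith

lemma Ctx.dist_eq (h : Ctx Q f) (a b : Q) : dist (f a) (f b) = dist (a : L) b := by
  have h1 := (h.short a b).trans (h.hL.diam_le _ _)
  have := h.tc_eq a b
  rw [tc_of_le h1] at this
  exact injOn_cos ⟨dist_nonneg, h1⟩ ⟨dist_nonneg, h.hL.diam_le _ _⟩ this

lemma Ctx.neg_seq (h : Ctx Q f) {ν : Q →₀ ℝ} (hν : 0 ≤ ν) :
    ∃ μ : ℕ → Q →₀ ℝ, (∀ n, 0 ≤ μ n) ∧
      Tendsto (fun n => pr (kq Q) (ν + μ n) (ν + μ n)) atTop (𝓝 0) ∧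
      ∀ x, Tendsto (fun n => lc (cq Q x) (ν + μ n)) atTop (𝓝 0) := by
  obtain ⟨p, -⟩ := h.nonempty
  have := fun n : ℕ => h.neg hν (ε := 1 / ((n : ℝ) + 1)) (by positivity)
  choose μ h0 h1 using this
  have h2 : Tendsto (fun n : ℕ => (1 / ((n : ℝ) + 1)) ^ 2) atTop (𝓝 0) := by
    simpa using (tendsto_one_div_add_atTop_nhds_zero_nat (𝕜 := ℝ)).pow 2
  have h3 : ∀ n, pr (kq Q) (ν + μ n) (ν + μ n) ≤ (1 / ((n : ℝ) + 1)) ^ 2 := fun n =>
    (pr_kq_le h.hL h.hf (add_nonneg hν (h0 n))).trans (h1 n)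
  refine ⟨μ, h0, squeeze_zero (fun n => (sq_nonneg _).trans
    (sq_lc_le h.hL p (add_nonneg hν (h0 n)))) h3 h2, fun x => ?_⟩
  refine squeeze_zero_norm (fun n => ?_) tendsto_one_div_add_atTop_nhds_zero_nat
  exact abs_le_of_sq_le_sq ((sq_lc_le h.hL x (add_nonneg hν (h0 n))).trans (h3 n))
    (by positivity)

lemma Ctx.mixed (h : Ctx Q f) (m x : L) {s : ℝ} (hs : 0 ≤ s) (ν : Q →₀ ℝ) :
    (s * cos (dist m x) + lc (cq Q m) ν) ^ 2 ≤ s ^ 2 + 2 * s * lc (cq Q x) ν + pr (kq Q) ν ν := by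
  obtain ⟨μ, h0, h1, h2⟩ := h.neg_seq (negPart_nonneg ν)
  have e : ∀ n, ν + (ν⁻ + μ n) = ν⁺ + μ n := fun n => by
    rw [← add_assoc]; congr 1
    exact (sub_eq_iff_eq_add.1 (posPart_sub_negPart ν)).symm
  have h3 : Tendsto (fun n => pr (kq Q) ν (ν⁻ + μ n)) atTop (𝓝 0) := by
    unfold pr
    simp only [lc_apply _ ν]
    have := tendsto_finsetSum ν.support fun (i : Q) _ => (h2 i).const_mul (ν i)
    simp only [mul_zero, Finset.sum_const_zero] at this
    exact this
  have l1 := (((h2 m).const_add (lc (cq Q m) ν)).const_add (s * cos (dist m x))).pow 2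
  have l2 := ((((h2 x).const_add (lc (cq Q x) ν)).const_mul (2 * s)).const_add (s ^ 2)).add
    (((h3.const_mul 2).const_add (pr (kq Q) ν ν)).add h1)
  have := le_of_tendsto_of_tendsto' l1 l2 fun n => by
    have := mixed_pos h.hL m x hs (add_nonneg (posPart_nonneg ν) (h0 n))
    rw [← e, pr_add_add kq_symm, map_add _ ν, map_add _ ν] at this
    exact this
  simpa using this

lemma cauchy_of_cos (hd : ∀ x y : L, dist x y ≤ π) {x : ℕ → L}
    (h : Tendsto (fun p : ℕ × ℕ => cos (dist (x p.1) (x p.2))) atTop (𝓝 1)) : CauchySeq x := by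
  rw [cauchySeq_iff_tendsto_dist_atTop_0]
  have := (continuous_arccos.tendsto 1).comp h
  rw [arccos_one] at this
  exact this.congr fun p => arccos_cos dist_nonneg (hd _ _)

lemma IsAlexOne.approx_between (hL : IsAlexOne L) (a b : L) {t : ℝ} (ht : t ∈ Icc 0 (dist a b)) :
    ∃ x : ℕ → L, (∀ n, dist a (x n) = t) ∧
      Tendsto (fun n => dist (x n) b) atTop (𝓝 (dist a b - t)) := by
  have := fun n : ℕ => hL.length.approx a b (ε := 1 / ((n : ℝ) + 1)) (by positivity)
  choose c h1 h2 using this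
  refine ⟨fun n => c n t, fun n => h1 n t ht, ?_⟩
  have h3 : Tendsto (fun n : ℕ => dist a b - t + 1 / ((n : ℝ) + 1)) atTop (𝓝 (dist a b - t)) := by
    simpa using tendsto_one_div_add_atTop_nhds_zero_nat.const_add (dist a b - t)
  refine tendsto_of_tendsto_of_tendsto_of_le_of_le tendsto_const_nhds h3 (fun n => ?_) fun n => ?_
  · have := dist_triangle a (c n t) b
    rw [h1 n t ht] at this
    simp only; linarith
  · have := h2 n t ht t ht le_rfl
    rw [dist_self] at this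
    simp only; linarith

lemma Ctx.closed (h : Ctx Q f) {q : ℕ → Q} {x : L} (hx : Tendsto (fun n => (q n : L)) atTop (𝓝 x)) :
    x ∈ Q := by
  have := h.hU.complete
  have hc : CauchySeq fun n => f (q n) := by
    rw [cauchySeq_iff_tendsto_dist_atTop_0]
    simp only [h.dist_eq]
    exact cauchySeq_iff_tendsto_dist_atTop_0.1 hx.cauchySeq
  obtain ⟨y, hy⟩ := cauchySeq_tendsto_of_complete hc
  refine mem_of_ext h.hf h.hmax x y fun a => ?_
  exact le_of_tendsto_of_tendsto' (hy.dist tendsto_const_nhds) (hx.dist tendsto_const_nhds)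
    fun n => h.short _ _

lemma Ctx.between (h : Ctx Q f) (a b : Q) (h0 : 0 < dist (a : L) b) (hπ : dist (a : L) b < π)
    {t : ℝ} (ht : t ∈ Icc 0 (dist (a : L) b)) :
    ∃ q : Q, dist (a : L) q = t ∧ dist (q : L) b = dist (a : L) b - t := by
  have := h.hL.complete
  obtain ⟨x, hx1, hx2⟩ := h.hL.approx_between a b ht
  set θ := dist (a : L) b with hθ
  have hs : 0 < sin θ := sin_pos_of_pos_of_lt_pi h0 hπ
  set ν : Q →₀ ℝ := Finsupp.single a (-(sin (θ - t) / sin θ)) + Finsupp.single b (-(sin t / sin θ))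
    with hν
  have e1 : ∀ y : L, lc (cq Q y) ν =
      -((sin (θ - t) * cos (dist y a) + sin t * cos (dist y b)) / sin θ) := fun y => by
    simp only [hν, map_add, lc_single, cq]; ring
  have id1 : sin (θ - t) * cos t + sin t * cos (θ - t) = sin θ := by
    rw [mul_comm (sin t), ← sin_add]; congr 1; ring
  have e2 : pr (kq Q) ν ν = 1 := by
    have ea : lc (kq Q a) ν = -cos t := by
      have := e1 a
      rw [dist_self, cos_zero, ← hθ, sin_sub] at this
      refine this.trans ?_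
      field_simp; ring
    have eb : lc (kq Q b) ν = -cos (θ - t) := by
      have := e1 b
      rw [dist_self, cos_zero, dist_comm, ← hθ] at this
      refine this.trans ?_
      have a4 : sin t = sin θ * cos (θ - t) - cos θ * sin (θ - t) := by
        rw [← sin_sub]; congr 1; ring
      rw [a4]
      field_simp; ring
    conv_lhs => rw [hν, pr_add_left, pr_single_left, pr_single_left, ← hν, ea, eb]
    field_simp
    linarith
  have l1 : Tendsto (fun n => lc (cq Q (x n)) ν) atTop (𝓝 (-1)) := by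
    simp only [e1, dist_comm _ (a : L), hx1]
    have := ((((tcos hx2).const_mul (sin t)).const_add (sin (θ - t) * cos t)).div_const (sin θ)).neg
    rwa [id1, div_self hs.ne'] at this
  have hcau : CauchySeq x := by
    apply cauchy_of_cos h.hL.diam_le
    have t1 : Tendsto (fun p : ℕ × ℕ => lc (cq Q (x p.1)) ν) atTop (𝓝 (-1)) :=
      l1.comp (prod_atTop_atTop_eq (α := ℕ) (β := ℕ) ▸ tendsto_fst)
    have t2 : Tendsto (fun p : ℕ × ℕ => lc (cq Q (x p.2)) ν) atTop (𝓝 (-1)) :=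
      l1.comp (prod_atTop_atTop_eq (α := ℕ) (β := ℕ) ▸ tendsto_snd)
    have t3 : Tendsto (fun p : ℕ × ℕ => √(2 + 2 * lc (cq Q (x p.2)) ν)) atTop (𝓝 0) := by
      simpa using ((t2.const_mul 2).const_add 2).sqrt
    have t4 : Tendsto (fun p : ℕ × ℕ => cos (dist (x p.1) (x p.2)) + lc (cq Q (x p.1)) ν)
        atTop (𝓝 0) := by
      refine squeeze_zero_norm (fun p => ?_) t3
      apply abs_le_sqrt
      have := h.mixed (x p.1) (x p.2) zero_le_one ν
      rw [e2] at this
      linarith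
    simpa using t4.sub t1
  obtain ⟨y, hy⟩ := cauchySeq_tendsto_of_complete hcau
  have d1 : dist (a : L) y = t :=
    tendsto_nhds_unique (tendsto_const_nhds.dist hy) (by simp [hx1])
  have d2 : dist y b = θ - t := tendsto_nhds_unique (hy.dist tendsto_const_nhds) hx2
  have e3 : lc (cq Q y) ν = -1 := by
    rw [e1, dist_comm y, d1, d2, id1, div_self hs.ne']
  have hfd : dist (f a) (f b) = θ := h.dist_eq a b
  obtain ⟨γ, hγ⟩ := h.hU.geodesic (f a) (f b) (by rw [hfd]; exact hπ)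
  have ht' : t ∈ Icc 0 (dist (f a) (f b)) := by rw [hfd]; exact ht
  refine ⟨⟨y, mem_of_ext h.hf h.hmax y (γ t) fun q => ?_⟩, d1, d2⟩
  have k1 := h.mixed q y zero_le_one ν
  rw [e2, e3] at k1
  have k2 : cos (dist (q : L) y) + lc (cq Q q) ν = 0 := by
    apply pow_eq_zero_iff (n := 2) two_ne_zero |>.1
    apply le_antisymm _ (sq_nonneg _)
    linarith
  rw [e1, ← sub_eq_add_neg, sub_eq_zero, eq_div_iff hs.ne'] at k2
  have k3 := h.hU.tc_concave hγ (by rw [hfd]; exact hπ) ht' (f q)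
  rw [hfd, h.tc_eq, h.tc_eq] at k3
  unfold kq at k3
  rw [dist_comm (a : L), dist_comm (b : L), ← k2, mul_comm, dist_comm] at k3
  have k4 := le_of_mul_le_mul_left k3 hs
  rcases (h.hL.diam_le y q).eq_or_lt with c | c
  · rw [c]
    have k5 := dist_triangle_left (γ t) (f q) (f a)
    rw [hγ.dist_left ht', h.dist_eq] at k5
    have k6 : cos (dist (a : L) q) ≤ cos (π - t) := by
      have := h.hL.sturm_ineq (Finset.univ : Finset (Fin 2)) (a : L) ![y, q] ![1, 1] (by
        intro i _; fin_cases i <;> simp)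
      simp only [Fin.sum_univ_two, Matrix.cons_val_zero, Matrix.cons_val_one, dist_self, cos_zero,
        dist_comm (q : L) y, c, cos_pi, d1] at this
      rw [cos_pi_sub]
      nlinarith
    have k7 := dist_triangle_left y q a
    have k8 : cos (π - t) ≤ cos (dist (a : L) q) := by
      have := h.hL.sturm_ineq (Finset.univ : Finset (Fin 2)) (a : L) ![y, q] ![1, 1] (by
        intro i _; fin_cases i <;> simp)
      simp only [Fin.sum_univ_two, Matrix.cons_val_zero, Matrix.cons_val_one, dist_self, cos_zero,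
        dist_comm (q : L) y, c, cos_pi, d1] at this
      rw [cos_pi_sub]
      nlinarith
    have := injOn_cos ⟨dist_nonneg, h.hL.diam_le _ _⟩
      ⟨by linarith [ht.2], by linarith [ht.1]⟩ (le_antisymm k6 k8)
    linarith
  · by_contra hcon
    have h1 : dist y q < min π (dist (γ t) (f q)) := lt_min c (not_le.1 hcon)
    have := cos_lt_cos_of_nonneg_of_le_pi dist_nonneg (min_le_left _ _) h1
    unfold tc at k4
    linarith

end Pool.Agent.Lib.MP_6bc951_gt
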