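import Pool.Agent.Lib.MP_6bc951_gt.Main2

open Real Set Filter Topology

namespace Pool.Agent.Lib.MP_6bc951_gt

universe u v

variable {L : Type u} {U : Type v} [MetricSpace L] [MetricSpace U] {Q : Set L} {f : Q → U}
variable {H : Type*} [NormedAddCommGroup H] [InnerProductSpace ℝ H]

lemma norm_one_of_inner {e : Q → H} (he : ∀ a b, inner ℝ (e a) (e b) = cos (dist (a : L) b))
    (a : Q) : ‖e a‖ = 1 := by
  have := he a a
  rw [real_inner_self_eq_norm_sq, dist_self, cos_zero] at this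
  exact (pow_eq_one_iff_of_nonneg (norm_nonneg _) two_ne_zero).1 this

lemma Ctx.add_cone (h : Ctx Q f) {e : Q → H}
    (he : ∀ a b, inner ℝ (e a) (e b) = cos (dist (a : L) b)) (a b : Q) {r s : ℝ} (hr : 0 ≤ r)
    (hs : 0 ≤ s) : ∃ c : ℝ, 0 ≤ c ∧ ∃ q, r • e a + s • e b = c • e q := by
  rcases hr.eq_or_lt with rfl | hr0
  · exact ⟨s, hs, b, by simp⟩
  rcases hs.eq_or_lt with rfl | hs0
  · exact ⟨r, hr, a, by simp⟩
  rcases (dist_nonneg (x := (a : L)) (y := b)).eq_or_lt with h0 | h0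
  · have : a = b := Subtype.ext (eq_of_dist_eq_zero h0.symm)
    subst this
    exact ⟨r + s, by positivity, a, by rw [add_smul]⟩
  rcases (h.hL.diam_le a b).eq_or_lt with hπ | hπ
  · have : e a = -e b := (inner_eq_neg_one_iff_of_norm_eq_one (𝕜 := ℝ) (norm_one_of_inner he a)
      (norm_one_of_inner he b)).1 (by rw [he, hπ, cos_pi])
    rcases le_total r s with c | c
    · exact ⟨s - r, by linarith, b, by rw [this]; module⟩
    · exact ⟨r - s, by linarith, a, by rw [this]; module⟩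
  have hsin : 0 < sin (dist (a : L) b) := sin_pos_of_pos_of_lt_pi h0 hπ
  obtain ⟨t, ht, hte⟩ := intermediate_value_Icc h0.le
    (f := fun t => r * sin t - s * sin (dist (a : L) b - t)) (Continuous.continuousOn (by fun_prop))
    (show (0 : ℝ) ∈ Icc _ _ from ⟨by simp; positivity, by simp; positivity⟩)
  obtain ⟨q, d1, d2⟩ := h.between a b h0 hπ ht
  set θ := dist (a : L) b with hθ
  simp only at hte
  have i1 : cos θ = cos t * cos (θ - t) - sin t * sin (θ - t) := by
    rw [← cos_add]; congr 1; ring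
  have i2 : sin θ = sin t * cos (θ - t) + cos t * sin (θ - t) := by
    rw [← sin_add]; congr 1; ring
  have s1 : 0 ≤ sin (θ - t) := sin_nonneg_of_nonneg_of_le_pi (by linarith [ht.2]) (by linarith [ht.1])
  refine ⟨r * cos t + s * cos (θ - t), ?_, q, ?_⟩
  · have : (r * cos t + s * cos (θ - t)) * sin (θ - t) = r * sin θ := by
      rw [i2]; linear_combination (-cos (θ - t)) * hte
    by_contra hcon
    have := mul_nonpos_of_nonpos_of_nonneg (not_le.1 hcon).le s1
    have := mul_pos hr0 hsin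
    linarith
  · rw [← sub_eq_zero, ← inner_self_eq_zero (𝕜 := ℝ)]
    simp only [inner_sub_left, inner_sub_right, inner_add_left, inner_add_right,
      real_inner_smul_left, real_inner_smul_right, he, dist_self, cos_zero, dist_comm (b : L) a,
      dist_comm (q : L) a, dist_comm (b : L) q, ← hθ, d1, d2, i1]
    have a1 := sin_sq_add_cos_sq t
    have a2 := sin_sq_add_cos_sq (θ - t)
    linear_combination (r * sin t - s * sin (θ - t)) * hte - r ^ 2 * a1 - s ^ 2 * a2

lemma Ctx.surj (h : Ctx Q f) {J : (Q →₀ ℝ) →ₗ[ℝ] H} (hJ : DenseRange J)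
    (hi : ∀ μ ν, inner ℝ (J μ) (J ν) = pr (kq Q) μ ν) (v : H) (hv : ‖v‖ = 1) :
    ∃ q : Q, J (Finsupp.single q 1) = v := by
  have := h.hL.complete
  set e : Q → H := fun q => J (Finsupp.single q 1) with hedef
  have he : ∀ a b, inner ℝ (e a) (e b) = cos (dist (a : L) b) := fun a b => by
    simp only [hedef]; rw [hi, pr_single_left]; simp [kq]
  have cone : ∀ σ : Q →₀ ℝ, 0 ≤ σ → J σ = 0 ∨ ∃ c : ℝ, 0 ≤ c ∧ ∃ q, J σ = c • e q := by
    intro σ hσ
    have : J σ = ∑ i ∈ σ.support, σ i • e i := by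
      conv_lhs => rw [← Finsupp.sum_single σ, Finsupp.sum, map_sum]
      refine Finset.sum_congr rfl fun i _ => ?_
      simp only [hedef]; rw [← map_smul]; simp
    rw [this]
    refine Finset.sum_induction _ (fun w => w = 0 ∨ ∃ c : ℝ, 0 ≤ c ∧ ∃ q, w = c • e q) ?_
      (Or.inl rfl) fun i _ => Or.inr ⟨σ i, hσ i, i, rfl⟩
    rintro _ _ (rfl | ⟨r, hr, a, rfl⟩) (rfl | ⟨s, hs, b, rfl⟩)
    · simp
    · exact Or.inr ⟨s, hs, b, by simp⟩
    · exact Or.inr ⟨r, hr, a, by simp⟩
    · exact Or.inr (h.add_cone he a b hr hs)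
  have near : ∀ ε > 0, ∃ q, ‖e q - v‖ < ε := by
    intro ε hε
    have d0 : 0 < min (ε / 4) (1 / 2) := lt_min (by linarith) (by norm_num)
    have d1 := min_le_left (ε / 4) (1 / 2)
    have d2 := min_le_right (ε / 4) (1 / 2)
    set δ := min (ε / 4) (1 / 2)
    obtain ⟨ν, hν⟩ := hJ.exists_dist_lt v d0
    obtain ⟨μ, h0, h1, -⟩ := h.neg_seq (negPart_nonneg ν)
    obtain ⟨n, hn⟩ := (h1.eventually (gt_mem_nhds (show 0 < δ ^ 2 by positivity))).exists
    rw [← hi, real_inner_self_eq_norm_sq] at hn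
    have hn' : ‖J (ν⁻ + μ n)‖ < δ := lt_of_pow_lt_pow_left₀ 2 d0.le hn
    have e1 : ν⁺ + μ n = ν + (ν⁻ + μ n) := by
      rw [← add_assoc]; congr 1
      exact sub_eq_iff_eq_add.1 (posPart_sub_negPart ν)
    have e2 : ‖J (ν⁺ + μ n) - v‖ < 2 * δ := by
      rw [e1, map_add, add_sub_right_comm]
      rw [dist_comm, dist_eq_norm] at hν
      linarith [norm_add_le (J ν - v) (J (ν⁻ + μ n))]
    rcases cone _ (add_nonneg (posPart_nonneg ν) (h0 n)) with c | ⟨c, hc, q, hq⟩
    · rw [c, zero_sub, norm_neg, hv] at e2; linarith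
    refine ⟨q, ?_⟩
    rw [hq] at e2
    have e3 := abs_norm_sub_norm_le (c • e q) v
    rw [norm_smul, norm_one_of_inner he, hv, mul_one, Real.norm_of_nonneg hc] at e3
    have e4 : ‖e q - c • e q‖ = |c - 1| := by
      rw [show e q - c • e q = (1 - c) • e q by module, norm_smul, norm_one_of_inner he, mul_one,
        Real.norm_eq_abs, abs_sub_comm]
    linarith [norm_sub_le_norm_sub_add_norm_sub (e q) (c • e q) v]
  have := fun n : ℕ => near (1 / ((n : ℝ) + 1)) (by positivity)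
  choose q hq using this
  have t0 : Tendsto (fun n => e (q n)) atTop (𝓝 v) :=
    tendsto_iff_norm_sub_tendsto_zero.2 (squeeze_zero (fun _ => norm_nonneg _) (fun n => (hq n).le)
      tendsto_one_div_add_atTop_nhds_zero_nat)
  have hcau : CauchySeq fun n => (q n : L) := by
    apply cauchy_of_cos h.hL.diam_le
    have t1 : Tendsto (fun p : ℕ × ℕ => e (q p.1)) atTop (𝓝 v) :=
      t0.comp (prod_atTop_atTop_eq (α := ℕ) (β := ℕ) ▸ tendsto_fst)
    have t2 : Tendsto (fun p : ℕ × ℕ => e (q p.2)) atTop (𝓝 v) :=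
      t0.comp (prod_atTop_atTop_eq (α := ℕ) (β := ℕ) ▸ tendsto_snd)
    have := t1.inner (𝕜 := ℝ) t2
    rw [real_inner_self_eq_norm_sq, hv, one_pow] at this
    simpa only [he] using this
  obtain ⟨x, hx⟩ := cauchySeq_tendsto_of_complete hcau
  refine ⟨⟨x, h.closed hx⟩, ?_⟩
  have t3 := t0.inner (𝕜 := ℝ) (tendsto_const_nhds (x := e ⟨x, h.closed hx⟩))
  simp only [he] at t3
  have t4 := tcos (hx.dist (tendsto_const_nhds (x := x)))
  rw [dist_self, cos_zero] at t4
  exact ((inner_eq_one_iff_of_norm_eq_one (𝕜 := ℝ) hv (norm_one_of_inner he _)).1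
    (tendsto_nhds_unique t3 t4)).symm

lemma dist_eq_of_cos_zero (hd : ∀ x y : L, dist x y ≤ π) {x y : L} (h : cos (dist x y) = 0) :
    dist x y = π / 2 :=
  injOn_cos ⟨dist_nonneg, hd _ _⟩ ⟨by linarith [pi_pos], by linarith [pi_pos]⟩
    (by rw [h, cos_pi_div_two])

lemma Ctx.pole [CompleteSpace H] (h : Ctx Q f) {J : (Q →₀ ℝ) →ₗ[ℝ] H} (hJ : DenseRange J)
    (hi : ∀ μ ν, inner ℝ (J μ) (J ν) = pr (kq Q) μ ν) : ∃ p : L, ∀ q ∈ Q, dist p q = π / 2 := by
  have := h.hL.complete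
  obtain ⟨x, hx⟩ := h.nonempty
  have hr : ∀ y : L, ∃ g : H, ∀ ν, inner ℝ g (J ν) = lc (cq Q y) ν := fun y =>
    exists_riesz hJ _ fun ν => by
      have := h.mixed y y le_rfl ν
      rw [← hi, real_inner_self_eq_norm_sq] at this
      rw [one_mul]
      exact abs_le_of_sq_le_sq (by simpa using this) (norm_nonneg _)
  choose g hg using hr
  have hg1 : ∀ (y : L) (q : Q), inner ℝ (g y) (J (Finsupp.single q 1)) = cos (dist y q) :=
    fun y q => by rw [hg]; simp [cq]
  have M : ∀ (m y : L) (s : ℝ), 0 ≤ s → ∀ w : H, (s * cos (dist m y) + inner ℝ (g m) w) ^ 2 ≤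
      s ^ 2 + 2 * s * inner ℝ (g y) w + inner ℝ w w := by
    intro m y s hs w
    refine hJ.induction_on w (isClosed_le (by fun_prop) (by fun_prop)) fun ν => ?_
    rw [hg, hg, hi]
    exact h.mixed m y hs ν
  have n1 : ∀ y, ‖g y‖ ≤ 1 := fun y => by
    have := M y y 0 le_rfl (g y)
    rw [real_inner_self_eq_norm_sq] at this
    by_contra hcon
    have h1 : 1 < ‖g y‖ ^ 2 := by nlinarith [not_le.1 hcon]
    nlinarith
  rcases (norm_nonneg (g x)).eq_or_lt with h0 | h0
  · refine ⟨x, fun q hq => dist_eq_of_cos_zero h.hL.diam_le ?_⟩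
    rw [← hg1 x ⟨q, hq⟩, norm_eq_zero.1 h0.symm, inner_zero_left]
  rcases (n1 x).eq_or_lt with h1 | h1
  · obtain ⟨q, hq⟩ := h.surj hJ hi (g x) h1
    have := hg1 x q
    rw [hq, real_inner_self_eq_norm_sq, h1, one_pow, ← cos_zero] at this
    have := injOn_cos ⟨le_rfl, pi_pos.le⟩ ⟨dist_nonneg, h.hL.diam_le _ _⟩ this
    exact absurd (eq_of_dist_eq_zero this.symm ▸ q.2) hx
  set σ := ‖g x‖ with hσ
  have hn : ‖σ⁻¹ • g x‖ = 1 := by
    rw [norm_smul, norm_inv, Real.norm_of_nonneg h0.le, inv_mul_cancel₀ h0.ne']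
  obtain ⟨qp, hqp⟩ := h.surj hJ hi _ hn
  obtain ⟨qm, hqm⟩ := h.surj hJ hi (-(σ⁻¹ • g x)) (by rw [norm_neg, hn])
  have hα0 : 0 < arcsin σ := arcsin_pos.2 h0
  have hα1 : arcsin σ < π / 2 := arcsin_lt_pi_div_two.2 h1
  have hα2 : sin (arcsin σ) = σ := sin_arcsin (by linarith) h1.le
  set α := arcsin σ
  have hc : 0 < cos α := cos_pos_of_mem_Ioo ⟨by linarith, hα1⟩
  have hcs : σ ^ 2 + cos α ^ 2 = 1 := by rw [← hα2]; exact sin_sq_add_cos_sq α
  have c1 : cos (dist x qp) = σ := by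
    rw [← hg1, hqp, real_inner_smul_right, real_inner_self_eq_norm_sq, ← hσ]; field_simp
  have c2 : dist x qm = α + π / 2 := by
    refine injOn_cos ⟨dist_nonneg, h.hL.diam_le _ _⟩ ⟨by linarith, by linarith⟩ ?_
    rw [← hg1, hqm, inner_neg_right, real_inner_smul_right, real_inner_self_eq_norm_sq, ← hσ,
      cos_add_pi_div_two, hα2]
    field_simp
  obtain ⟨p, hp1, hp2⟩ := h.hL.approx_between x qm (t := α) ⟨hα0.le, by linarith⟩
  rw [c2, add_sub_cancel_left] at hp2
  have t1 : Tendsto (fun n => inner ℝ (g (p n)) (g x)) atTop (𝓝 0) := by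
    have := (tcos hp2).const_mul (-σ)
    rw [cos_pi_div_two, mul_zero] at this
    refine this.congr fun n => ?_
    rw [← hg1, hqm, inner_neg_right, real_inner_smul_right]
    field_simp
  have t2 : Tendsto (fun n => ‖g (p n)‖ ^ 2) atTop (𝓝 0) := by
    have : Tendsto (fun n => 4 * |inner ℝ (g (p n)) (g x)| / cos α) atTop (𝓝 0) := by
      simpa using (t1.abs.const_mul 4).div_const (cos α)
    refine squeeze_zero (fun _ => sq_nonneg _) (fun n => ?_) this
    have k := M (p n) x 1 zero_le_one (-g x + cos α • g (p n))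
    simp only [inner_add_left, inner_add_right, inner_neg_left, inner_neg_right,
      real_inner_smul_left, real_inner_smul_right, real_inner_self_eq_norm_sq, ← hσ,
      real_inner_comm (g (p n)) (g x), dist_comm (p n) x, hp1, norm_smul, mul_pow,
      Real.norm_eq_abs, sq_abs] at k
    rw [le_div_iff₀ hc]
    have G0 := sq_nonneg ‖g (p n)‖
    have G1 : ‖g (p n)‖ ^ 2 ≤ 1 := by nlinarith [n1 (p n), norm_nonneg (g (p n))]
    set G := ‖g (p n)‖ ^ 2
    set a := inner ℝ (g (p n)) (g x)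
    have a1 := le_abs_self a
    have a2 := abs_nonneg a
    have k2 : cos α * (G * cos α) ≤ cos α * (4 * |a|) := by
      have b1 : a * (1 + G) ≤ |a| * 2 :=
        (mul_le_mul_of_nonneg_right a1 (by linarith)).trans
          (mul_le_mul_of_nonneg_left (by linarith) a2)
      have b2 := mul_le_mul_of_nonneg_left b1 hc.le
      nlinarith [sq_nonneg a, sq_nonneg (cos α * G)]
    exact le_of_mul_le_mul_left k2 hc
  have t3 : Tendsto (fun n => g (p n)) atTop (𝓝 0) := by
    rw [tendsto_zero_iff_norm_tendsto_zero]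
    simpa using t2.sqrt
  have t4 : ∀ q : Q, Tendsto (fun n => cos (dist (p n) q)) atTop (𝓝 0) := fun q => by
    have := t3.inner (𝕜 := ℝ) (tendsto_const_nhds (x := J (Finsupp.single q 1)))
    simpa only [hg1, inner_zero_left] using this
  have hcau : CauchySeq p := by
    apply cauchy_of_cos h.hL.diam_le
    have u1 : Tendsto (fun r : ℕ × ℕ => cos (dist (p r.1) qp)) atTop (𝓝 0) :=
      (t4 qp).comp (prod_atTop_atTop_eq (α := ℕ) (β := ℕ) ▸ tendsto_fst)
    have u2 : Tendsto (fun r : ℕ × ℕ => cos (dist (p r.2) qp)) atTop (𝓝 0) :=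
      (t4 qp).comp (prod_atTop_atTop_eq (α := ℕ) (β := ℕ) ▸ tendsto_snd)
    have u3 : Tendsto (fun r : ℕ × ℕ => 1 - 2 * σ / cos α *
        (cos (dist (p r.1) qp) + cos (dist (p r.2) qp))) atTop (𝓝 1) := by
      simpa using ((u1.add u2).const_mul (2 * σ / cos α)).const_sub 1
    refine tendsto_of_tendsto_of_tendsto_of_le_of_le u3 tendsto_const_nhds (fun r => ?_)
      fun r => cos_le_one _
    have k := h.hL.sturm_ineq (Finset.univ : Finset (Fin 3)) x ![p r.1, p r.2, qp]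
      ![cos α, cos α, 2 * σ] (by intro i _; fin_cases i <;> simp [hc.le, h0.le])
    simp only [Fin.sum_univ_three, Matrix.cons_val_zero, Matrix.cons_val_one, Matrix.cons_val,
      dist_self, cos_zero, hp1, c1, dist_comm (qp : L), dist_comm (p r.2) (p r.1)] at k
    have e : cos α * cos α + cos α * cos α + 2 * σ * σ = 2 := by linarith
    rw [e] at k
    simp only
    rw [sub_le_comm, div_mul_eq_mul_div, le_div_iff₀ hc]
    have k2 : cos α * ((1 - cos (dist (p r.1) (p r.2))) * cos α) ≤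
        cos α * (2 * σ * (cos (dist (p r.1) qp) + cos (dist (p r.2) qp))) := by linarith
    exact le_of_mul_le_mul_left k2 hc
  obtain ⟨z, hz⟩ := cauchySeq_tendsto_of_complete hcau
  refine ⟨z, fun q hq => dist_eq_of_cos_zero h.hL.diam_le ?_⟩
  exact tendsto_nhds_unique (tcos (hz.dist tendsto_const_nhds)) (t4 ⟨q, hq⟩)

theorem main (hL : IsAlexOne L) (hU : IsCATOne U) (hQ : Q ⊂ univ) (hf : LipschitzWith 1 f)
    (hmax : IsMaximalShort Q f) :
    (IsHilbertSphere Q ∧ ∃ p : L, ∀ q ∈ Q, dist p q = π / 2) ∧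
      (Isometry f ∧ ¬ ∃ p' : U, ∀ q : Q, dist p' (f q) = π / 2) := by
  have h : Ctx Q f := ⟨hL, hU, hQ.ne, hf, hmax⟩
  obtain ⟨x, -⟩ := h.nonempty
  obtain ⟨H, _, _, _, J, hJ, hi⟩ := exists_hilbert (kq Q) kq_symm fun ν => by
    have := h.mixed x x le_rfl ν
    simp only [zero_mul, zero_add, mul_zero, ne_eq, OfNat.ofNat_ne_zero, not_false_eq_true,
      zero_pow] at this
    exact (sq_nonneg _).trans this
  have he : ∀ a b : Q, inner ℝ (J (Finsupp.single a 1)) (J (Finsupp.single b 1)) =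
      cos (dist (a : L) b) := fun a b => by rw [hi, pr_single_left]; simp [kq]
  refine ⟨⟨⟨H, inferInstance, inferInstance, inferInstance, Equiv.ofBijective (fun q => ⟨J (Finsupp.single q 1),
    mem_sphere_zero_iff_norm.2 (norm_one_of_inner he q)⟩) ⟨fun a b hab => ?_, fun v => ?_⟩,
    fun a b => ?_⟩, h.pole hJ hi⟩, Isometry.of_dist_eq h.dist_eq, ?_⟩
  · have h1 : J (Finsupp.single a 1) = J (Finsupp.single b 1) := congrArg Subtype.val hab
    have h2 := he a b
    rw [h1, he, dist_self] at h2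
    exact Subtype.ext (eq_of_dist_eq_zero
      (injOn_cos ⟨le_rfl, pi_pos.le⟩ ⟨dist_nonneg, hL.diam_le _ _⟩ h2).symm)
  · obtain ⟨q, hq⟩ := h.surj hJ hi v (mem_sphere_zero_iff_norm.1 v.2)
    exact ⟨q, Subtype.ext hq⟩
  · change _ = arccos (inner ℝ (J (Finsupp.single a 1)) (J (Finsupp.single b 1)))
    rw [he, arccos_cos dist_nonneg (hL.diam_le _ _), Subtype.dist_eq]
  · rintro ⟨z, hz⟩
    exact no_center hL hU hQ.ne hf hmax ⟨z, fun q => (hz q).le⟩

end Pool.Agent.Lib.MP_6bc951_gt
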