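import Pool.Agent.Lib.MP_6bc951_gt.Convex

open Real Set Filter Topology

namespace Pool.Agent.Lib.MP_6bc951_gt

/-- abstract induction -/
lemma list_form_nonneg {T : Type*} (β : T → T → ℝ) (hsymm : ∀ a b, β a b = β b a)
    (hdiag : ∀ a, 0 ≤ β a a)
    (hmerge : ∀ (a b : T) (l : List T), ∃ (ω : T → ℝ) (D : ℝ), ∀ ε > 0, ∃ c,
      β c c ≤ β a a + 2 * β a b + β b b + ε * D ∧ ∀ k ∈ l, β c k ≤ β a k + β b k + ε * ω k) :
    ∀ (n : ℕ) (l : List T), l.length = n → 0 ≤ (l.map fun a => (l.map fun b => β a b).sum).sum := by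
  have cons : ∀ (a : T) (l : List T),
      ((a :: l).map fun x => ((a :: l).map fun y => β x y).sum).sum =
      β a a + 2 * (l.map fun k => β a k).sum + (l.map fun x => (l.map fun y => β x y).sum).sum := by
    intro a l
    simp only [List.map_cons, List.sum_cons, List.sum_map_add]
    have : (l.map fun x => β x a) = l.map fun x => β a x := by
      congr 1; ext x; exact hsymm _ _
    rw [this]; ring
  intro n
  induction n with
  | zero => intro l hl; rw [List.length_eq_zero_iff.1 hl]; simp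
  | succ n ih =>
    intro l hl
    match l, hl with
    | [a], _ => simpa using hdiag a
    | a :: b :: l, hl =>
      obtain ⟨ω, D, h⟩ := hmerge a b l
      have key : ∀ ε > 0, 0 ≤ ((a :: b :: l).map fun x =>
          ((a :: b :: l).map fun y => β x y).sum).sum + ε * (D + 2 * (l.map ω).sum) := by
        intro ε hε
        obtain ⟨c, h1, h2⟩ := h ε hε
        have h3 := ih (c :: l) (by simpa using hl)
        have h4 : (l.map fun k => β c k).sum ≤ (l.map fun k => β a k + β b k + ε * ω k).sum :=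
          List.sum_le_sum h2
        rw [List.sum_map_add, List.sum_map_add, List.sum_map_mul_left] at h4
        rw [cons] at h3
        rw [cons, cons]
        simp only [List.map_cons, List.sum_cons]
        have e : (l.map fun k => ω k) = l.map ω := rfl
        rw [e] at h4
        linarith
      have ht : Tendsto (fun ε : ℝ => ((a :: b :: l).map fun x =>
          ((a :: b :: l).map fun y => β x y).sum).sum + ε * (D + 2 * (l.map ω).sum)) (𝓝[>] 0)
          (𝓝 (((a :: b :: l).map fun x => ((a :: b :: l).map fun y => β x y).sum).sum +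
            0 * (D + 2 * (l.map ω).sum))) :=
        Tendsto.mono_left (Continuous.tendsto (by fun_prop) 0) nhdsWithin_le_nhds
      have := ge_of_tendsto ht (by
        filter_upwards [self_mem_nhdsWithin] with ε hε using key ε hε)
      simpa using this

variable {X : Type*} [MetricSpace X]

noncomputable def bil (p x y : X) : ℝ := cos (dist x y) - cos (dist p x) * cos (dist p y)

lemma bil_comm (p x y : X) : bil p x y = bil p y x := by
  unfold bil; rw [dist_comm x y, mul_comm]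

structure IsRay (p : X) (γ : ℝ → X) (l : ℝ) : Prop where
  pos : 0 < l
  lt : l < π
  zero : γ 0 = p
  unit : UnitSpeed γ 0 l

lemma IsRay.dist_eq {p : X} {γ : ℝ → X} {l : ℝ} (h : IsRay p γ l) {s : ℝ} (hs : s ∈ Ioc 0 l) :
    dist p (γ s) = s := by
  rw [← h.zero, h.unit 0 ⟨le_rfl, h.pos.le⟩ s ⟨hs.1.le, hs.2⟩, zero_sub, abs_neg, abs_of_pos hs.1]

lemma IsRay.sin_pos {p : X} {γ : ℝ → X} {l : ℝ} (h : IsRay p γ l) {s : ℝ} (hs : s ∈ Ioc 0 l) :
    0 < sin s := sin_pos_of_pos_of_lt_pi hs.1 (hs.2.trans_lt h.lt)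

lemma IsRay.mono (hX : GoodSpace X) {p : X} {γ : ℝ → X} {l : ℝ} (h : IsRay p γ l) (w : X)
    {s t : ℝ} (hs : 0 < s) (hst : s ≤ t) (ht : t ≤ l) :
    bil p (γ s) w / sin s ≤ bil p (γ t) w / sin t := by
  have ms : s ∈ Ioc 0 l := ⟨hs, hst.trans ht⟩
  have mt : t ∈ Ioc 0 l := ⟨hs.trans_le hst, ht⟩
  have := hX.convex (h.unit.mono le_rfl ht) mt.1.le (by linarith [h.lt]) w s ⟨hs.le, hst⟩
  rw [h.zero, sub_zero, sub_zero, sin_sub] at this
  rw [div_le_div_iff₀ (h.sin_pos ms) (h.sin_pos mt)]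
  unfold bil
  rw [h.dist_eq ms, h.dist_eq mt]
  linarith

noncomputable def ratio (p : X) (γ σ : ℝ → X) (s t : ℝ) : ℝ :=
  bil p (γ s) (σ t) / (sin s * sin t)

lemma ratio_comm (p : X) (γ σ : ℝ → X) (s t : ℝ) : ratio p γ σ s t = ratio p σ γ t s := by
  unfold ratio; rw [bil_comm, mul_comm]

lemma ratio_mono (hX : GoodSpace X) {p : X} {γ σ : ℝ → X} {l k : ℝ} (h : IsRay p γ l)
    (h' : IsRay p σ k) {s s' t t' : ℝ} (hs : 0 < s) (hss : s ≤ s') (hs' : s' ≤ l)
    (ht : 0 < t) (htt : t ≤ t') (ht' : t' ≤ k) : ratio p γ σ s t ≤ ratio p γ σ s' t' := by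
  have a1 := h.mono hX (σ t) hs hss hs'
  have a2 := h'.mono hX (γ s') ht htt ht'
  have p1 := h'.sin_pos ⟨ht, htt.trans ht'⟩
  have p2 := h.sin_pos ⟨hs.trans_le hss, hs'⟩
  calc ratio p γ σ s t = bil p (γ s) (σ t) / sin s / sin t := by unfold ratio; rw [div_div]
    _ ≤ bil p (γ s') (σ t) / sin s' / sin t := div_le_div_of_nonneg_right a1 p1.le
    _ = bil p (σ t) (γ s') / sin t / sin s' := by rw [bil_comm, div_right_comm]
    _ ≤ bil p (σ t') (γ s') / sin t' / sin s' := div_le_div_of_nonneg_right a2 p2.le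
    _ = ratio p γ σ s' t' := by unfold ratio; rw [bil_comm, div_div, mul_comm]

lemma ratio_ge (hX : GoodSpace X) {p : X} {γ σ : ℝ → X} {l k : ℝ} (h : IsRay p γ l)
    (h' : IsRay p σ k) {s t : ℝ} (hs : s ∈ Ioc 0 l) (ht : t ∈ Ioc 0 k) :
    -1 ≤ ratio p γ σ s t := by
  have h2 : 0 < π / 2 := by linarith [pi_pos]
  refine le_trans ?_ (ratio_mono hX h h' (lt_min hs.1 h2) (min_le_left _ _) hs.2
    (lt_min ht.1 h2) (min_le_left _ _) ht.2)
  have ms : min s (π / 2) ∈ Ioc 0 l := ⟨lt_min hs.1 h2, (min_le_left _ _).trans hs.2⟩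
  have mt : min t (π / 2) ∈ Ioc 0 k := ⟨lt_min ht.1 h2, (min_le_left _ _).trans ht.2⟩
  have b1 := min_le_right s (π / 2)
  have b2 := min_le_right t (π / 2)
  set s' := min s (π / 2)
  set t' := min t (π / 2)
  unfold ratio bil
  rw [le_div_iff₀ (mul_pos (h.sin_pos ms) (h'.sin_pos mt)), h.dist_eq ms, h'.dist_eq mt]
  have tri := dist_triangle_left (γ s') (σ t') p
  rw [h.dist_eq ms, h'.dist_eq mt] at tri
  have := cos_le_cos_of_nonneg_of_le_pi dist_nonneg (by linarith) tri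
  rw [cos_add] at this
  linarith

noncomputable def cosAng (p : X) (γ : ℝ → X) (l : ℝ) (σ : ℝ → X) (k : ℝ) : ℝ :=
  sInf {r | ∃ s ∈ Ioc 0 l, ∃ t ∈ Ioc 0 k, r = ratio p γ σ s t}

lemma cosAng_comm (p : X) (γ : ℝ → X) (l : ℝ) (σ : ℝ → X) (k : ℝ) :
    cosAng p γ l σ k = cosAng p σ k γ l := by
  unfold cosAng
  congr 1
  ext r
  constructor <;> rintro ⟨s, hs, t, ht, e⟩ <;> exact ⟨t, ht, s, hs, by rw [e, ratio_comm]⟩

lemma cosAng_le (hX : GoodSpace X) {p : X} {γ σ : ℝ → X} {l k : ℝ} (h : IsRay p γ l)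
    (h' : IsRay p σ k) {s t : ℝ} (hs : s ∈ Ioc 0 l) (ht : t ∈ Ioc 0 k) :
    cosAng p γ l σ k ≤ ratio p γ σ s t :=
  csInf_le ⟨-1, by rintro r ⟨s, hs, t, ht, rfl⟩; exact ratio_ge hX h h' hs ht⟩ ⟨s, hs, t, ht, rfl⟩

lemma cosAng_self {p : X} {γ : ℝ → X} {l : ℝ} (h : IsRay p γ l) : cosAng p γ l γ l = 1 := by
  have e : ∀ s ∈ Ioc 0 l, ∀ t ∈ Ioc 0 l, ratio p γ γ s t = 1 := by
    intro s hs t ht
    unfold ratio bil
    rw [h.dist_eq hs, h.dist_eq ht, h.unit s ⟨hs.1.le, hs.2⟩ t ⟨ht.1.le, ht.2⟩, cos_abs, cos_sub,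
      div_eq_one_iff_eq (mul_pos (h.sin_pos hs) (h.sin_pos ht)).ne']
    ring
  have : {r | ∃ s ∈ Ioc 0 l, ∃ t ∈ Ioc 0 l, r = ratio p γ γ s t} = {1} := by
    ext r
    constructor
    · rintro ⟨s, hs, t, ht, rfl⟩; exact e s hs t ht
    · rintro rfl
      exact ⟨l, ⟨h.pos, le_rfl⟩, l, ⟨h.pos, le_rfl⟩, (e _ ⟨h.pos, le_rfl⟩ _ ⟨h.pos, le_rfl⟩).symm⟩
  unfold cosAng
  rw [this, csInf_singleton]

lemma cosAng_eventually (hX : GoodSpace X) {p : X} {γ σ : ℝ → X} {l k : ℝ} (h : IsRay p γ l)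
    (h' : IsRay p σ k) {ε : ℝ} (hε : 0 < ε) : ∀ᶠ δ in 𝓝[>] (0 : ℝ), δ ≤ l ∧ δ ≤ k ∧
      ∀ s ∈ Ioc 0 δ, ∀ t ∈ Ioc 0 δ, ratio p γ σ s t ≤ cosAng p γ l σ k + ε := by
  obtain ⟨r, ⟨s0, hs0, t0, ht0, rfl⟩, hr⟩ := exists_lt_of_csInf_lt
    (s := {r | ∃ s ∈ Ioc 0 l, ∃ t ∈ Ioc 0 k, r = ratio p γ σ s t})
    ⟨_, l, ⟨h.pos, le_rfl⟩, k, ⟨h'.pos, le_rfl⟩, rfl⟩ (lt_add_of_pos_right _ hε)
  filter_upwards [Ioc_mem_nhdsGT hs0.1, Ioc_mem_nhdsGT ht0.1] with δ d1 d2
  refine ⟨d1.2.trans hs0.2, d2.2.trans ht0.2, fun s hs t ht => ?_⟩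
  exact (ratio_mono hX h h' hs.1 (hs.2.trans d1.2) hs0.2 ht.1 (ht.2.trans d2.2) ht0.2).trans hr.le

/-- weighted rays -/
structure WRay (p : X) where
  μ : ℝ
  γ : ℝ → X
  l : ℝ
  nonneg : 0 ≤ μ
  valid : μ = 0 ∨ IsRay p γ l

noncomputable def WRay.pair {p : X} (a b : WRay p) : ℝ := a.μ * b.μ * cosAng p a.γ a.l b.γ b.l

lemma WRay.pair_comm {p : X} (a b : WRay p) : a.pair b = b.pair a := by
  unfold WRay.pair; rw [cosAng_comm, mul_comm a.μ]

lemma WRay.pair_self {p : X} (a : WRay p) : a.pair a = a.μ ^ 2 := by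
  unfold WRay.pair
  rcases a.valid with h | h
  · simp [h]
  · rw [cosAng_self h]; ring

/-- weighted ray towards a point at distance less than `π` -/
lemma exists_wray (hX : GoodSpace X) (p m : X) {c : ℝ} (hc : 0 ≤ c) :
    ∃ a : WRay p, a.μ = c * sin (dist p m) ∧ (∀ (k : WRay p) (w : X) (e : ℝ), 0 ≤ e →
      k.μ = e * sin (dist p w) → (k.μ = 0 ∨ dist p w ∈ Ioc 0 k.l ∧ k.γ (dist p w) = w) →
      a.pair k ≤ c * e * bil p m w) ∧
      (a.μ = 0 ∨ dist p m ∈ Ioc 0 a.l ∧ a.γ (dist p m) = m) := by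
  obtain ⟨γ, g0, g1, hγ⟩ := hX.geodesic p m
  have hs : 0 ≤ sin (dist p m) := sin_nonneg_of_nonneg_of_le_pi dist_nonneg (hX.diam_le _ _)
  have hb : ∀ x w : X, sin (dist p x) = 0 → 0 ≤ bil p x w := by
    intro x w hx
    unfold bil
    rcases (hX.diam_le p x).eq_or_lt with h | h
    · have := hX.antipodal h w
      rw [h, cos_pi]; linarith
    · rcases (dist_nonneg (x := p) (y := x)).eq_or_lt with h0 | h0
      · have := eq_of_dist_eq_zero h0.symm
        subst this; simp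
      · exact absurd hx (sin_pos_of_pos_of_lt_pi h0 h).ne'
  have hv : c * sin (dist p m) = 0 ∨ IsRay p γ (dist p m) := by
    rcases (hX.diam_le p m).eq_or_lt with h | h
    · left; rw [h, sin_pi, mul_zero]
    · rcases (dist_nonneg (x := p) (y := m)).eq_or_lt with h0 | h0
      · left; rw [← h0, sin_zero, mul_zero]
      · exact Or.inr ⟨h0, h, g0, hγ⟩
  refine ⟨⟨c * sin (dist p m), γ, dist p m, mul_nonneg hc hs, hv⟩, rfl, ?_, ?_⟩
  · intro k w e he hk hw
    unfold WRay.pair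
    simp only
    by_cases h1 : c * sin (dist p m) = 0
    · rw [h1, zero_mul, zero_mul]
      rcases mul_eq_zero.1 h1 with h | h
      · simp [h]
      · exact mul_nonneg (mul_nonneg hc he) (hb _ _ h)
    by_cases h2 : k.μ = 0
    · rw [h2, mul_zero, zero_mul]
      rw [hk] at h2
      rcases mul_eq_zero.1 h2 with h | h
      · simp [h]
      · rw [bil_comm]; exact mul_nonneg (mul_nonneg hc he) (hb _ _ h)
    have r1 := hv.resolve_left h1
    have r2 := k.valid.resolve_left h2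
    obtain ⟨w1, w2⟩ := hw.resolve_left h2
    have := cosAng_le hX r1 r2 ⟨r1.pos, le_rfl⟩ w1
    unfold ratio at this
    rw [g1, w2, le_div_iff₀ (mul_pos (r1.sin_pos ⟨r1.pos, le_rfl⟩) (r2.sin_pos w1))] at this
    have := mul_le_mul_of_nonneg_left this (mul_nonneg hc he)
    rw [hk]
    linarith
  · rcases hv with h | h
    · exact Or.inl h
    · exact Or.inr ⟨⟨h.pos, le_rfl⟩, g1⟩

end Pool.Agent.Lib.MP_6bc951_gt
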