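import Pool.Agent.Lib.MP_6bc951_gt.Ultra

open Real Set Filter Topology NNReal

namespace Pool.Agent.Lib.MP_6bc951_gt.Theta

universe v

/-- length of the arc number `n` -/
noncomputable def len (d : ℝ≥0) (n : ℕ) : ℝ := d + 1 / ((n : ℝ) + 1)

lemma d_lt_len (d : ℝ≥0) (n : ℕ) : (d : ℝ) < len d n := by
  unfold len
  have : (0 : ℝ) < 1 / ((n : ℝ) + 1) := by positivity
  linarith

lemma len_pos (d : ℝ≥0) (n : ℕ) : 0 < len d n := d.2.trans_lt (d_lt_len d n)

/-- points of the disjoint union of the arcs -/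
structure Pt (d : ℝ≥0) : Type v where
  k : ULift.{v} ℕ
  s : ℝ
  h0 : 0 ≤ s
  h1 : s ≤ len d k.down

variable {d : ℝ≥0}

namespace Pt

def n (p : Pt.{v} d) : ℕ := p.k.down
noncomputable def r (p : Pt.{v} d) : ℝ := len d p.n - p.s
noncomputable def a (p : Pt.{v} d) : ℝ := min p.s (p.r + d)
noncomputable def b (p : Pt.{v} d) : ℝ := min p.r (p.s + d)

lemma r_nonneg (p : Pt.{v} d) : 0 ≤ p.r := sub_nonneg.2 p.h1
lemma sr (p : Pt.{v} d) : p.s + p.r = len d p.n := by unfold r; ring
lemma d_lt (p : Pt.{v} d) : (d : ℝ) < p.s + p.r := by rw [sr]; exact d_lt_len _ _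
lemma sr_eq {p q : Pt.{v} d} (h : p.n = q.n) : p.s + p.r = q.s + q.r := by rw [sr, sr, h]
lemma a_le_s (p : Pt.{v} d) : p.a ≤ p.s := min_le_left _ _
lemma a_le_r (p : Pt.{v} d) : p.a ≤ p.r + d := min_le_right _ _
lemma b_le_r (p : Pt.{v} d) : p.b ≤ p.r := min_le_left _ _
lemma b_le_s (p : Pt.{v} d) : p.b ≤ p.s + d := min_le_right _ _
lemma a_cases (p : Pt.{v} d) : p.a = p.s ∨ p.a = p.r + d := min_choice _ _
lemma b_cases (p : Pt.{v} d) : p.b = p.r ∨ p.b = p.s + d := min_choice _ _

lemma a_nonneg (p : Pt.{v} d) : 0 ≤ p.a := by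
  have := p.h0; have := p.r_nonneg; have := d.2
  rcases p.a_cases with h | h <;> simp only [val_eq_coe] at * <;> linarith

lemma b_nonneg (p : Pt.{v} d) : 0 ≤ p.b := by
  have := p.h0; have := p.r_nonneg; have := d.2
  rcases p.b_cases with h | h <;> simp only [val_eq_coe] at * <;> linarith

lemma d_le_ab (p : Pt.{v} d) : (d : ℝ) ≤ p.a + p.b := by
  have := p.h0; have := p.r_nonneg; have := p.d_lt; have : (0 : ℝ) ≤ d := d.2
  rcases p.a_cases with h | h <;> rcases p.b_cases with h' | h' <;> linarith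

lemma a_le_b (p : Pt.{v} d) : p.a ≤ p.b + d := by
  have := p.a_le_s; have := p.a_le_r; have : (0 : ℝ) ≤ d := d.2
  rcases p.b_cases with h' | h' <;> linarith

lemma b_le_a (p : Pt.{v} d) : p.b ≤ p.a + d := by
  have := p.b_le_s; have := p.b_le_r; have : (0 : ℝ) ≤ d := d.2
  rcases p.a_cases with h' | h' <;> linarith

lemma a_lip {p q : Pt.{v} d} (h : p.n = q.n) : p.a ≤ q.a + |p.s - q.s| := by
  have := p.a_le_s; have := p.a_le_r; have := sr_eq h
  have := le_abs_self (p.s - q.s); have := neg_abs_le (p.s - q.s)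
  rcases q.a_cases with h' | h' <;> linarith

lemma b_lip {p q : Pt.{v} d} (h : p.n = q.n) : p.b ≤ q.b + |p.s - q.s| := by
  have := p.b_le_s; have := p.b_le_r; have := sr_eq h
  have := le_abs_self (p.s - q.s); have := neg_abs_le (p.s - q.s)
  rcases q.b_cases with h' | h' <;> linarith

/-- the distance of the graph -/
noncomputable def D (p q : Pt.{v} d) : ℝ :=
  if p.n = q.n then min (min (p.a + q.a) (p.b + q.b)) |p.s - q.s| else min (p.a + q.a) (p.b + q.b)

lemma D_le_a (p q : Pt.{v} d) : D p q ≤ p.a + q.a := by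
  unfold D; split_ifs
  · exact (min_le_left _ _).trans (min_le_left _ _)
  · exact min_le_left _ _

lemma D_le_b (p q : Pt.{v} d) : D p q ≤ p.b + q.b := by
  unfold D; split_ifs
  · exact (min_le_left _ _).trans (min_le_right _ _)
  · exact min_le_right _ _

lemma D_le_s {p q : Pt.{v} d} (h : p.n = q.n) : D p q ≤ |p.s - q.s| := by
  unfold D; rw [if_pos h]; exact min_le_right _ _

lemma D_cases (p q : Pt.{v} d) :
    D p q = p.a + q.a ∨ D p q = p.b + q.b ∨ (p.n = q.n ∧ D p q = |p.s - q.s|) := by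
  unfold D; split_ifs with h
  · rcases min_choice (min (p.a + q.a) (p.b + q.b)) |p.s - q.s| with h1 | h1
    · rw [h1]; rcases min_choice (p.a + q.a) (p.b + q.b) with h2 | h2
      · exact Or.inl h2
      · exact Or.inr (Or.inl h2)
    · exact Or.inr (Or.inr ⟨h, h1⟩)
  · rcases min_choice (p.a + q.a) (p.b + q.b) with h2 | h2
    · exact Or.inl h2
    · exact Or.inr (Or.inl h2)

lemma D_nonneg (p q : Pt.{v} d) : 0 ≤ D p q := by
  have := p.a_nonneg; have := q.a_nonneg; have := p.b_nonneg; have := q.b_nonneg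
  have := abs_nonneg (p.s - q.s)
  rcases D_cases p q with h | h | ⟨-, h⟩ <;> linarith

lemma D_comm (p q : Pt.{v} d) : D p q = D q p := by
  unfold D
  rw [add_comm p.a, add_comm p.b, abs_sub_comm]
  simp only [eq_comm (a := p.n)]

lemma D_tri (p q w : Pt.{v} d) : D p w ≤ D p q + D q w := by
  have := D_le_a p w; have := D_le_b p w
  have := q.a_nonneg; have := q.b_nonneg; have := q.d_le_ab
  have := p.a_le_b; have := p.b_le_a; have := w.a_le_b; have := w.b_le_a
  rcases D_cases p q with h | h | ⟨e, h⟩ <;> rcases D_cases q w with h' | h' | ⟨e', h'⟩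
  · linarith
  · linarith
  · have := a_lip e'.symm; rw [abs_sub_comm] at this; linarith
  · linarith
  · linarith
  · have := b_lip e'.symm; rw [abs_sub_comm] at this; linarith
  · have := a_lip e; linarith
  · have := b_lip e; linarith
  · have := D_le_s (e.trans e'); have := abs_sub_le p.s q.s w.s; linarith

noncomputable instance : PseudoMetricSpace (Pt.{v} d) where
  dist := D
  dist_self p := le_antisymm (by simpa using D_le_s (p := p) (q := p) rfl) (D_nonneg _ _)
  dist_comm := D_comm
  dist_triangle := D_tri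

lemma dist_eq (p q : Pt.{v} d) : dist p q = D p q := rfl

lemma short_cases {p q : Pt.{v} d} (h : D p q < d) :
    D p q = p.s + q.s ∨ D p q = p.r + q.r ∨ (p.n = q.n ∧ D p q = |p.s - q.s|) := by
  have := p.a_nonneg; have := q.a_nonneg; have := p.b_nonneg; have := q.b_nonneg
  have := p.h0; have := q.h0; have := p.r_nonneg; have := q.r_nonneg
  rcases D_cases p q with h1 | h1 | h1
  · left
    rcases p.a_cases with h2 | h2 <;> rcases q.a_cases with h3 | h3 <;> linarith
  · right; left
    rcases p.b_cases with h2 | h2 <;> rcases q.b_cases with h3 | h3 <;> linarith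
  · exact Or.inr (Or.inr h1)

lemma low {p q : Pt.{v} d} (h : D p q < d) :
    p.s + q.s ≤ D p q ∨ p.r + q.r ≤ D p q ∨
      (p.n = q.n ∧ p.s + p.r = q.s + q.r ∧ p.s - q.s ≤ D p q ∧ q.s - p.s ≤ D p q) := by
  rcases short_cases h with h1 | h1 | ⟨e, h1⟩
  · exact Or.inl h1.ge
  · exact Or.inr (Or.inl h1.ge)
  · refine Or.inr (Or.inr ⟨e, sr_eq e, ?_, ?_⟩)
    · rw [h1]; exact le_abs_self _
    · rw [h1, abs_sub_comm]; exact le_abs_self _

lemma up (p q : Pt.{v} d) : p.n ≠ q.n ∨ D p q ≤ p.s - q.s ∨ D p q ≤ q.s - p.s := by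
  by_cases e : p.n = q.n
  · right
    have := D_le_s e
    rcases abs_cases (p.s - q.s) with h | h
    · left; linarith [h.1]
    · right; linarith [h.1]
  · exact Or.inl e

/-- a closed quadrilateral of length less than `2 d` satisfies the inequality of trees -/
lemma four (x y z p : Pt.{v} d) (h : D x y + D y z + D z p + D p x < 2 * d) :
    D x z + D y p ≤ max (D x y + D z p) (D y z + D p x) := by
  by_contra hc
  rw [not_le, max_lt_iff] at hc
  obtain ⟨c1, c2⟩ := hc
  have t1 : D x y < d := by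
    have := D_tri x p y; have := D_tri p z y
    rw [D_comm x p, D_comm p z, D_comm z y] at *; linarith
  have t2 : D y z < d := by
    have := D_tri y x z; have := D_tri x p z
    rw [D_comm y x, D_comm x p, D_comm p z] at *; linarith
  have t3 : D z p < d := by
    have := D_tri z y p; have := D_tri y x p
    rw [D_comm z y, D_comm y x, D_comm x p] at *; linarith
  have t4 : D p x < d := by
    have := D_tri p z x; have := D_tri z y x
    rw [D_comm p z, D_comm z y, D_comm y x] at *; linarith
  have u1 : D x z ≤ x.s + z.s := by linarith [D_le_a x z, x.a_le_s, z.a_le_s]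
  have u2 : D x z ≤ x.r + z.r := by linarith [D_le_b x z, x.b_le_r, z.b_le_r]
  have u3 : D y p ≤ y.s + p.s := by linarith [D_le_a y p, y.a_le_s, p.a_le_s]
  have u4 : D y p ≤ y.r + p.r := by linarith [D_le_b y p, y.b_le_r, p.b_le_r]
  have := x.h0; have := y.h0; have := z.h0; have := p.h0
  have := x.r_nonneg; have := y.r_nonneg; have := z.r_nonneg; have := p.r_nonneg
  have := x.d_lt; have := y.d_lt; have := z.d_lt; have := p.d_lt
  have l1 := low t1; have l2 := low t2; have l3 := low t3; have l4 := low t4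
  have w1 := up x z; have w2 := up y p
  clear t1 t2 t3 t4
  generalize D x y = A at *
  generalize D y z = B at *
  generalize D z p = C at *
  generalize D p x = E at *
  generalize D x z = F at *
  generalize D y p = G at *
  rcases l1 with l1 | l1 | ⟨e1, l1, l1', l1''⟩ <;> rcases l2 with l2 | l2 | ⟨e2, l2, l2', l2''⟩ <;>
    rcases l3 with l3 | l3 | ⟨e3, l3, l3', l3''⟩ <;>
    rcases l4 with l4 | l4 | ⟨e4, l4, l4', l4''⟩ <;>
    first
      | linarith
      | (rcases w1 with w1 | w1 | w1 <;> rcases w2 with w2 | w2 | w2 <;>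
          first | omega | linarith)

end Pt

end Pool.Agent.Lib.MP_6bc951_gt.Theta
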