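import Pool.Agent.Lib.MP_6bc951_gt.Theta1

open Real Set Filter Topology NNReal

namespace Pool.Agent.Lib.MP_6bc951_gt.Theta

universe v

variable {d : ℝ≥0}

open Pt

/-- the point of the arc `n` with clamped parameter -/
noncomputable def pt (d : ℝ≥0) (n : ℕ) (t : ℝ) : Pt.{v} d :=
  ⟨⟨n⟩, max 0 (min (len d n) t), le_max_left _ _, max_le (len_pos d n).le (min_le_left _ _)⟩

lemma pt_n (n : ℕ) (t : ℝ) : (pt.{v} d n t).n = n := rfl

lemma pt_s {n : ℕ} {t : ℝ} (h0 : 0 ≤ t) (h1 : t ≤ len d n) : (pt.{v} d n t).s = t := by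
  simp only [pt]; rw [min_eq_right h1, max_eq_right h0]

lemma pt_self (p : Pt.{v} d) : pt d p.n p.s = p := by
  obtain ⟨⟨k⟩, s, h0, h1⟩ := p
  simp only [pt, Pt.n, Pt.mk.injEq, true_and]
  rw [min_eq_right h1, max_eq_right h0]

lemma pt_lip (n : ℕ) (t t' : ℝ) : D (pt.{v} d n t) (pt d n t') ≤ |t - t'| := by
  refine (D_le_s (p := pt d n t) (q := pt d n t') rfl).trans ?_
  simp only [pt]
  refine (abs_max_sub_max_le_max _ _ _ _).trans (max_le (by simp) ?_)
  refine (abs_min_sub_min_le_max _ _ _ _).trans (max_le (by simp) le_rfl)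

lemma a_pt0 (n : ℕ) : (pt.{v} d n 0).a = 0 :=
  le_antisymm ((a_le_s _).trans (pt_s le_rfl (len_pos d n).le).le) (a_nonneg _)

lemma r_pt1 (n : ℕ) : (pt.{v} d n (len d n)).r = 0 := by
  unfold Pt.r; rw [pt_n, pt_s (len_pos d n).le le_rfl, sub_self]

lemma b_pt1 (n : ℕ) : (pt.{v} d n (len d n)).b = 0 :=
  le_antisymm ((b_le_r _).trans (r_pt1 n).le) (b_nonneg _)

lemma D_pt0 (n : ℕ) (p : Pt.{v} d) : D p (pt d n 0) = p.a := by
  have h1 := D_le_a p (pt d n 0)
  have h2 := a_pt0.{v} (d := d) n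
  have h3 := (pt.{v} d n 0).d_le_ab
  have h4 := p.a_le_b
  rcases D_cases p (pt d n 0) with h | h | ⟨e, h⟩
  · linarith
  · linarith
  · have := a_lip e; linarith

lemma D_pt1 (n : ℕ) (p : Pt.{v} d) : D p (pt d n (len d n)) = p.b := by
  have h1 := D_le_b p (pt d n (len d n))
  have h2 := b_pt1.{v} (d := d) n
  have h3 := (pt.{v} d n (len d n)).d_le_ab
  have h4 := p.b_le_a
  rcases D_cases p (pt d n (len d n)) with h | h | ⟨e, h⟩
  · linarith
  · linarith
  · have := b_lip e; linarith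

instance : CompleteSpace (Pt.{v} d) := by
  refine Metric.complete_of_cauchySeq_tendsto fun u hu => ?_
  by_contra hc
  push Not at hc
  have key : ∀ z : Pt.{v} d, ∃ δ > 0, ∃ N, ∀ n ≥ N, δ ≤ dist (u n) z := by
    intro z
    have h1 := hc z
    rw [Metric.tendsto_atTop] at h1
    push Not at h1
    obtain ⟨ε, hε, h1⟩ := h1
    obtain ⟨N, hN⟩ := Metric.cauchySeq_iff.1 hu (ε / 2) (by positivity)
    obtain ⟨m, hm, h2⟩ := h1 N
    refine ⟨ε / 2, by positivity, N, fun n hn => ?_⟩
    have := dist_triangle (u m) (u n) z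
    have := hN m hm n hn
    linarith
  obtain ⟨δ1, h1, N1, hN1⟩ := key (pt d 0 0)
  obtain ⟨δ2, h2, N2, hN2⟩ := key (pt d 0 (len d 0))
  obtain ⟨N3, hN3⟩ := Metric.cauchySeq_iff.1 hu (min δ1 δ2) (by positivity)
  set N := max N1 (max N2 N3) with hN
  have hs : ∀ m ≥ N, ∀ n ≥ N, (u m).n = (u n).n ∧ D (u m) (u n) = |(u m).s - (u n).s| := by
    intro m hm n hn
    have a1 := hN1 m (le_trans (le_max_left _ _) hm)
    have a2 := hN2 m (le_trans ((le_max_left _ _).trans (le_max_right _ _)) hm)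
    have a3 := hN3 m (le_trans ((le_max_right _ _).trans (le_max_right _ _)) hm) n
      (le_trans ((le_max_right _ _).trans (le_max_right _ _)) hn)
    rw [Pt.dist_eq] at a1 a2 a3
    rw [D_pt0] at a1
    rw [D_pt1] at a2
    have := min_le_left δ1 δ2
    have := min_le_right δ1 δ2
    have := (u n).a_nonneg
    have := (u n).b_nonneg
    rcases D_cases (u m) (u n) with h | h | h
    · linarith
    · linarith
    · exact h
  have hcs : CauchySeq fun n => (u n).s := by
    refine Metric.cauchySeq_iff.2 fun ε hε => ?_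
    obtain ⟨M, hM⟩ := Metric.cauchySeq_iff.1 hu ε hε
    refine ⟨max M N, fun m hm n hn => ?_⟩
    have := hM m ((le_max_left _ _).trans hm) n ((le_max_left _ _).trans hn)
    rw [Pt.dist_eq, (hs m ((le_max_right _ _).trans hm) n ((le_max_right _ _).trans hn)).2] at this
    rwa [Real.dist_eq]
  obtain ⟨t, ht⟩ := cauchySeq_tendsto_of_complete hcs
  refine hc (pt d (u N).n t) (Metric.tendsto_atTop.2 fun ε hε => ?_)
  obtain ⟨M, hM⟩ := Metric.tendsto_atTop.1 ht ε hε
  refine ⟨max M N, fun n hn => ?_⟩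
  have h3 := hM n ((le_max_left _ _).trans hn)
  rw [Real.dist_eq] at h3
  rw [Pt.dist_eq, ← pt_self (u n), (hs n ((le_max_right _ _).trans hn) N le_rfl).1]
  exact (pt_lip _ _ _).trans_lt h3

/-- two points are joined by a short curve defined on `[0, r]` -/
def Conn {U : Type v} [MetricSpace U] (p q : U) (r : ℝ) : Prop :=
  0 ≤ r ∧ ∃ c : ℝ → U, (∀ s t, dist (c s) (c t) ≤ |s - t|) ∧ c 0 = p ∧ c r = q

section conn
variable {U : Type v} [MetricSpace U] {p q w : U} {r r' : ℝ}

lemma Conn.symm (h : Conn p q r) : Conn q p r := by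
  obtain ⟨h0, c, hc, h1, h2⟩ := h
  refine ⟨h0, fun t => c (r - t), fun s t => (hc _ _).trans (le_of_eq ?_), by simpa, by simpa⟩
  rw [abs_sub_comm]; congr 1; ring

lemma Conn.trans (h : Conn p q r) (h' : Conn q w r') : Conn p w (r + r') := by
  obtain ⟨h0, c, hc, h1, h2⟩ := h
  obtain ⟨h0', c', hc', h1', h2'⟩ := h'
  have mix : ∀ s t, s ≤ r → ¬ t ≤ r → dist (c s) (c' (t - r)) ≤ |s - t| := by
    intro s t hs ht
    have a1 := hc s r
    have a2 := hc' 0 (t - r)
    rw [h2, abs_of_nonpos (by linarith)] at a1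
    rw [h1', abs_of_nonpos (by linarith)] at a2
    rw [abs_of_nonpos (by linarith)]
    linarith [dist_triangle (c s) q (c' (t - r))]
  refine ⟨by linarith, fun t => if t ≤ r then c t else c' (t - r), fun s t => ?_, by simpa [h0],
    ?_⟩
  · by_cases hs : s ≤ r <;> by_cases ht : t ≤ r <;> simp only [hs, ht, if_true, if_false]
    · exact hc _ _
    · exact mix s t hs ht
    · rw [dist_comm, abs_sub_comm]; exact mix t s ht hs
    · exact (hc' _ _).trans (le_of_eq (by congr 1; ring))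
  · by_cases h : r + r' ≤ r
    · have e : r' = 0 := by linarith
      subst e
      simp only [add_zero, le_refl, if_true]
      rw [h2, ← h1', h2']
    · simp only [h, if_false, add_sub_cancel_left]; exact h2'

lemma Conn.path (h : Conn p q r) : ∃ γ : Path p q, eVariationOn γ univ ≤ ENNReal.ofReal r := by
  obtain ⟨h0, c, hc, h1, h2⟩ := h
  have hl : LipschitzWith 1 c := LipschitzWith.mk_one fun s t => by rw [Real.dist_eq]; exact hc s t
  let g : unitInterval → ℝ := fun τ => (τ : ℝ) * r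
  have hg : Continuous g := by fun_prop
  refine ⟨⟨⟨c ∘ g, hl.continuous.comp hg⟩, by simpa [g], by simpa [g]⟩, ?_⟩
  have a1 := (hl.lipschitzOnWith (s := univ)).comp_eVariationOn_le (g := g) (s := univ)
    (mapsTo_univ _ _)
  have hm : MonotoneOn g univ := fun a _ b _ hab => mul_le_mul_of_nonneg_right hab h0
  have a2 := (hm.eVariationOn_eq (a := 0) (b := 1) (mem_univ _) (mem_univ _)).le
  have e : (univ : Set unitInterval) ∩ Icc 0 1 = univ := by
    ext x
    simp only [mem_inter_iff, mem_univ, true_and, iff_true]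
    exact ⟨x.2.1, x.2.2⟩
  rw [e] at a2
  simp only [g, Icc.coe_one, one_mul, Icc.coe_zero, zero_mul, sub_zero] at a2
  simp only [ENNReal.coe_one, one_mul] at a1
  exact a1.trans a2

lemma Conn.geodesic (h : Conn p q (dist p q)) : ∃ γ, IsGeodesic γ p q := by
  obtain ⟨h0, c, hc, h1, h2⟩ := h
  have key : ∀ s ∈ Icc 0 (dist p q), ∀ t ∈ Icc 0 (dist p q), s ≤ t → dist (c s) (c t) = |s - t| := by
    intro s hs t ht hst
    refine le_antisymm (hc s t) ?_
    have a1 := hc 0 s
    have a2 := hc t (dist p q)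
    rw [h1, abs_of_nonpos (by linarith [hs.1])] at a1
    rw [h2, abs_of_nonpos (by linarith [ht.2])] at a2
    rw [abs_of_nonpos (by linarith)]
    linarith [dist_triangle4 p (c s) (c t) q]
  refine ⟨c, h1, h2, fun s hs t ht => ?_⟩
  rcases le_total s t with h | h
  · exact key s hs t ht h
  · rw [dist_comm, abs_sub_comm]; exact key t ht s hs h

lemma length_of_conn (h : ∀ p q : U, ∀ ε > 0, ∃ r ≤ dist p q + ε, Conn p q r) :
    IsLengthSpace U := by
  intro x y
  refine le_antisymm (le_iInf fun γ => ?_) ?_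
  · simpa using eVariationOn.edist_le γ (mem_univ 0) (mem_univ 1)
  · refine ENNReal.le_of_forall_pos_le_add fun ε hε _ => ?_
    obtain ⟨r, hr, hc⟩ := h x y ε hε
    obtain ⟨γ, hγ⟩ := hc.path
    refine (iInf_le _ γ).trans (hγ.trans ((ENNReal.ofReal_le_ofReal hr).trans (le_of_eq ?_)))
    rw [ENNReal.ofReal_add dist_nonneg (NNReal.coe_nonneg ε), edist_dist]
    simp

end conn

end Pool.Agent.Lib.MP_6bc951_gt.Theta
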