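import Pool.Agent.Lib.MP_6bc951_gt.Theta2
import Pool.Agent.Lib.MP_6bc951_gt.Defs2

open Real Set Filter Topology NNReal

namespace Pool.Agent.Lib.MP_6bc951_gt.Theta

universe u v

variable {d : ℝ≥0}

open Pt SeparationQuotient

/-- two vertices joined by arcs of lengths `d + 1 / (n + 1)` -/
abbrev Th (d : ℝ≥0) : Type v := SeparationQuotient (Pt.{v} d)

lemma dmk (p q : Pt.{v} d) : dist (mk p : Th.{v} d) (mk q) = D p q := SeparationQuotient.dist_mk p q

/-- first vertex -/
noncomputable def V (d : ℝ≥0) : Th.{v} d := mk (pt d 0 0)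

/-- second vertex -/
noncomputable def W (d : ℝ≥0) : Th.{v} d := mk (pt d 0 (len d 0))

lemma mk_pt0 (n : ℕ) : (mk (pt d n 0) : Th.{v} d) = V d := by
  rw [← dist_eq_zero, V, dmk, D_pt0, a_pt0]

lemma mk_pt1 (n : ℕ) : (mk (pt d n (len d n)) : Th.{v} d) = W d := by
  rw [← dist_eq_zero, W, dmk, D_pt1, b_pt1]

lemma dist_V (p : Pt.{v} d) : dist (mk p : Th.{v} d) (V d) = p.a := by rw [V, dmk, D_pt0]

lemma dist_W (p : Pt.{v} d) : dist (mk p : Th.{v} d) (W d) = p.b := by rw [W, dmk, D_pt1]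

lemma dist_VW : dist (V.{v} d) (W d) = d := by
  rw [V, dist_W]
  have h1 : (pt.{v} d 0 0).s = 0 := pt_s le_rfl (len_pos d 0).le
  have h2 := (pt.{v} d 0 0).d_lt
  unfold Pt.b
  rw [h1] at h2 ⊢
  rw [min_eq_right (by linarith), zero_add]

lemma conn_arc (n : ℕ) {s t : ℝ} (h : s ≤ t) :
    Conn (mk (pt d n s) : Th.{v} d) (mk (pt d n t)) (t - s) := by
  refine ⟨by linarith, fun x => mk (pt d n (s + x)), fun x y => ?_, by simp, by simp⟩
  rw [dmk]
  exact (pt_lip _ _ _).trans (le_of_eq (by congr 1; ring))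

lemma conn_V (p : Pt.{v} d) : Conn (mk p : Th.{v} d) (V d) p.s := by
  have := (conn_arc.{v} (d := d) p.n p.h0).symm
  rwa [pt_self, mk_pt0, sub_zero] at this

lemma conn_W (p : Pt.{v} d) : Conn (mk p : Th.{v} d) (W d) p.r := by
  have := conn_arc.{v} (d := d) p.n (s := p.s) (t := len d p.n) p.h1
  rwa [pt_self, mk_pt1] at this

lemma conn_VW (n : ℕ) : Conn (V.{v} d) (W d) (len d n) := by
  have := conn_arc.{v} (d := d) n (len_pos d n).le
  rwa [mk_pt0, mk_pt1, sub_zero] at this

lemma conn_same {p q : Pt.{v} d} (h : p.n = q.n) :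
    Conn (mk p : Th.{v} d) (mk q) |p.s - q.s| := by
  rcases le_total p.s q.s with h1 | h1
  · have := conn_arc.{v} (d := d) p.n h1
    rw [pt_self, h, pt_self] at this
    rwa [abs_sub_comm, abs_of_nonneg (by linarith)]
  · have := (conn_arc.{v} (d := d) p.n h1).symm
    rw [pt_self, h, pt_self] at this
    rwa [abs_of_nonneg (by linarith)]

lemma len_small {ε : ℝ} (hε : 0 < ε) : ∃ n, len d n ≤ d + ε := by
  obtain ⟨n, hn⟩ := exists_nat_one_div_lt hε
  exact ⟨n, by unfold len; linarith⟩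

lemma conn_a (p : Pt.{v} d) {ε : ℝ} (hε : 0 < ε) : ∃ r ≤ p.a + ε, Conn (mk p : Th.{v} d) (V d) r := by
  rcases p.a_cases with h | h
  · exact ⟨_, by linarith, conn_V p⟩
  · obtain ⟨n, hn⟩ := len_small (d := d) hε
    exact ⟨_, by linarith, (conn_W p).trans (conn_VW n).symm⟩

lemma conn_b (p : Pt.{v} d) {ε : ℝ} (hε : 0 < ε) : ∃ r ≤ p.b + ε, Conn (mk p : Th.{v} d) (W d) r := by
  rcases p.b_cases with h | h
  · exact ⟨_, by linarith, conn_W p⟩
  · obtain ⟨n, hn⟩ := len_small (d := d) hε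
    exact ⟨_, by linarith, (conn_V p).trans (conn_VW n)⟩

lemma th_length : IsLengthSpace (Th.{v} d) := by
  refine length_of_conn fun p q ε hε => ?_
  obtain ⟨p, rfl⟩ := surjective_mk p
  obtain ⟨q, rfl⟩ := surjective_mk q
  rw [dmk]
  rcases D_cases p q with h | h | ⟨e, h⟩
  · obtain ⟨r, hr, hc⟩ := conn_a p (half_pos hε)
    obtain ⟨r', hr', hc'⟩ := conn_a q (half_pos hε)
    exact ⟨_, by linarith, hc.trans hc'.symm⟩
  · obtain ⟨r, hr, hc⟩ := conn_b p (half_pos hε)
    obtain ⟨r', hr', hc'⟩ := conn_b q (half_pos hε)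
    exact ⟨_, by linarith, hc.trans hc'.symm⟩
  · exact ⟨_, by linarith, conn_same e⟩

lemma th_geodesic (p q : Th.{v} d) (h : dist p q < d) : ∃ γ, IsGeodesic γ p q := by
  refine Conn.geodesic ?_
  obtain ⟨p, rfl⟩ := surjective_mk p
  obtain ⟨q, rfl⟩ := surjective_mk q
  rw [dmk] at h ⊢
  rcases short_cases h with h | h | ⟨e, h⟩ <;> rw [h]
  · exact (conn_V p).trans (conn_V q).symm
  · exact (conn_W p).trans (conn_W q).symm
  · exact conn_same e

lemma th_four (x y z p : Th.{v} d) (h : dist x y + dist y z + dist z p + dist p x < 2 * d) :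
    dist x z + dist y p ≤ max (dist x y + dist z p) (dist y z + dist p x) := by
  obtain ⟨x, rfl⟩ := surjective_mk x
  obtain ⟨y, rfl⟩ := surjective_mk y
  obtain ⟨z, rfl⟩ := surjective_mk z
  obtain ⟨p, rfl⟩ := surjective_mk p
  simp only [dmk] at h ⊢
  exact four x y z p h

lemma sph_angle {H : Type*} [NormedAddCommGroup H] [InnerProductSpace ℝ H]
    (a b : Metric.sphere (0 : H) 1) : sphDist a b = InnerProductGeometry.angle (a : H) b := by
  unfold sphDist InnerProductGeometry.angle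
  rw [norm_eq_of_mem_sphere, norm_eq_of_mem_sphere]; simp

lemma sph_tri {H : Type*} [NormedAddCommGroup H] [InnerProductSpace ℝ H]
    (a b c : Metric.sphere (0 : H) 1) : sphDist a c ≤ sphDist a b + sphDist b c := by
  simp only [sph_angle]; exact InnerProductGeometry.angle_le_angle_add_angle _ _ _

lemma sph_comm {H : Type*} [NormedAddCommGroup H] [InnerProductSpace ℝ H]
    (a b : Metric.sphere (0 : H) 1) : sphDist a b = sphDist b a := by
  simp only [sph_angle]; exact InnerProductGeometry.angle_comm _ _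

theorem th_cat (hd : π ≤ d) : IsCATOne (Th.{v} d) where
  complete := inferInstance
  length := th_length
  geodesic x y h := th_geodesic x y (h.trans_le hd)
  comparison := by
    intro p x y γ σ hper hγ hσ s hs t ht p' x' y' a b e1 e2 e3 e4 e5 e6 e7
    unfold perim at hper
    have g1 : dist p (γ s) = s := by
      have := hγ.2.2 0 ⟨le_rfl, dist_nonneg⟩ s hs
      rwa [hγ.1, zero_sub, abs_neg, abs_of_nonneg hs.1] at this
    have g2 : dist (γ s) x = dist p x - s := by
      have := hγ.2.2 s hs _ ⟨dist_nonneg, le_rfl⟩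
      rwa [hγ.2.1, abs_sub_comm, abs_of_nonneg (by linarith [hs.2])] at this
    have g3 : dist p (σ t) = t := by
      have := hσ.2.2 0 ⟨le_rfl, dist_nonneg⟩ t ht
      rwa [hσ.1, zero_sub, abs_neg, abs_of_nonneg ht.1] at this
    have g4 : dist (σ t) y = dist p y - t := by
      have := hσ.2.2 t ht _ ⟨dist_nonneg, le_rfl⟩
      rwa [hσ.2.1, abs_sub_comm, abs_of_nonneg (by linarith [ht.2])] at this
    have t0 := dist_triangle (γ s) x y
    have f1 := th_four (γ s) x y p (by rw [dist_comm y p]; linarith)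
    have f2 := th_four (γ s) y (σ t) p (by
      rw [dist_comm y (σ t), dist_comm (σ t) p]; linarith)
    rw [dist_comm x p, dist_comm y p] at f1
    rw [dist_comm y p, dist_comm y (σ t), dist_comm (σ t) p] at f2
    have s1 := sph_tri p' a b
    have s2 := sph_tri p' b a
    have s3 := sph_tri x' a y'
    have s4 := sph_tri a b y'
    rw [sph_comm b a] at s2
    rw [sph_comm x' a] at s3
    rcases le_max_iff.1 f1 with f1 | f1 <;> rcases le_max_iff.1 f2 with f2 | f2 <;> linarith

end Pool.Agent.Lib.MP_6bc951_gt.Theta
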