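import Pool.Agent.Lib.MP_6bc951_gt.Theta3
import Pool.Agent.Lib.MP_6bc951_gt.Main3

open Real Set Filter Topology NNReal

namespace Pool.Agent.Lib.MP_6bc951_gt.Theta

universe u v

open Pt SeparationQuotient

/-- every short assignment on two points extends to a maximal short map -/
lemma exists_maximal {L : Type u} {U : Type v} [MetricSpace L] [MetricSpace U] (x y : L) (a b : U)
    (h : dist a b ≤ dist x y) :
    ∃ (Q : Set L) (f : Q → U) (hx : x ∈ Q) (hy : y ∈ Q), LipschitzWith 1 f ∧ IsMaximalShort Q f ∧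
      f ⟨x, hx⟩ = a ∧ f ⟨y, hy⟩ = b := by
  let S : Set (Set (L × U)) := {G | ∀ g ∈ G, ∀ g' ∈ G, dist g.2 g'.2 ≤ dist g.1 g'.1}
  have h0 : ({(x, a), (y, b)} : Set (L × U)) ∈ S := by
    rintro g (rfl | rfl) g' (rfl | rfl)
    · simp
    · exact h
    · simpa [dist_comm] using h
    · simp
  obtain ⟨G, hG0, hG⟩ := zorn_subset_nonempty S (fun c hc hch _ => by
    refine ⟨⋃₀ c, ?_, fun s hs => subset_sUnion_of_mem hs⟩
    rintro g ⟨s, hs, hg⟩ g' ⟨s', hs', hg'⟩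
    rcases hch.total hs hs' with h1 | h1
    · exact hc hs' g (h1 hg) g' hg'
    · exact hc hs g hg g' (h1 hg')) _ h0
  have hex : ∀ q : (Prod.fst '' G), ∃ w : U, (q.1, w) ∈ G := by
    rintro ⟨_, ⟨g, hg, rfl⟩⟩
    exact ⟨g.2, hg⟩
  choose f hf using hex
  have huniq : ∀ (q : (Prod.fst '' G)) (w : U), (q.1, w) ∈ G → f q = w := by
    intro q w hw
    have := hG.prop _ (hf q) _ hw
    simpa using this
  have hxa : (x, a) ∈ G := hG0 (Or.inl rfl)
  have hyb : (y, b) ∈ G := hG0 (Or.inr rfl)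
  refine ⟨Prod.fst '' G, f, ⟨_, hxa, rfl⟩, ⟨_, hyb, rfl⟩,
    LipschitzWith.mk_one fun q q' => hG.prop _ (hf q) _ (hf q'), ?_, huniq _ _ hxa, huniq _ _ hyb⟩
  rintro ⟨Q', hQ', g, hg, hgf⟩
  obtain ⟨z, hz, hzQ⟩ := exists_of_ssubset hQ'
  have hS : (range fun q : Q' => (q.1, g q)) ∈ S := by
    rintro _ ⟨q, rfl⟩ _ ⟨q', rfl⟩
    simpa [Subtype.dist_eq] using hg.dist_le_mul q q'
  have hsub : G ⊆ range fun q : Q' => (q.1, g q) := by
    intro p hp
    refine ⟨⟨p.1, hQ'.subset ⟨p, hp, rfl⟩⟩, ?_⟩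
    have := hgf ⟨p.1, p, hp, rfl⟩
    rw [huniq ⟨p.1, p, hp, rfl⟩ p.2 hp] at this
    simp only [this]
  exact hzQ ⟨_, hG.le_of_ge hS hsub ⟨⟨z, hz⟩, rfl⟩, rfl⟩

lemma angle_big {L : Type u} [MetricSpace L] {x z z' : L} (h1 : dist x z = 1) (h2 : dist x z' = 1)
    (h3 : 2 - sin 1 ^ 2 / 4 ≤ dist z z') : 2 * π / 3 < modelAngle x z z' := by
  have hs : 0 < sin 1 := sin_pos_of_pos_of_lt_pi one_pos (by linarith [pi_gt_three])
  have h4 : dist z z' ≤ 2 := by
    have := dist_triangle_left z z' x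
    linarith
  have h5 : cos (dist z z') ≤ cos 2 + sin 1 ^ 2 / 4 := by
    have := abs_cos_sub_cos_le (dist z z') 2
    rw [abs_of_nonpos (a := dist z z' - 2) (by linarith)] at this
    linarith [le_abs_self (cos (dist z z') - cos 2)]
  have h6 : cos 2 = cos 1 ^ 2 - sin 1 ^ 2 := by
    have := cos_two_mul' 1
    rwa [mul_one] at this
  unfold modelAngle
  rw [h1, h2]
  have h7 : (cos (dist z z') - cos 1 * cos 1) / (sin 1 * sin 1) ≤ -(3 / 4) := by
    rw [div_le_iff₀ (by positivity)]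
    nlinarith
  have h8 : arccos (-(1 / 2)) = 2 * π / 3 := by
    have : cos (2 * π / 3) = -(1 / 2) := by
      rw [show 2 * π / 3 = π - π / 3 by ring, cos_pi_sub, cos_pi_div_three]
    rw [← this, arccos_cos (by positivity) (by linarith [Real.pi_pos])]
  rw [← h8]
  exact (arccos_lt_arccos (by norm_num) (by norm_num) (by norm_num)).trans_le
    (arccos_le_arccos h7)

/-- no short map of the whole space sends two far points to the two vertices -/
lemma not_total {L : Type u} [MetricSpace L] (hL : IsCBBOne L) {x y : L} {d : ℝ≥0}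
    (hd : (d : ℝ) = dist x y) (h3 : 3 < (d : ℝ)) (F : L → Th.{v} d)
    (hF : ∀ a b, dist (F a) (F b) ≤ dist a b) (hx : F x = V d) (hy : F y = W d) : False := by
  have hs : 0 < sin 1 := sin_pos_of_pos_of_lt_pi one_pos (by linarith [pi_gt_three])
  have hs1 : sin 1 ^ 2 ≤ 1 := sin_sq_le_one 1
  have step : ∀ N : ℕ, ∃ (z : L) (p : Pt.{v} d), dist x z = 1 ∧ F z = mk p ∧ N < p.n ∧
      1 - sin 1 ^ 2 / 8 ≤ p.a ∧ 1 ≤ p.b := by
    intro N
    set ε := min (sin 1 ^ 2 / 8) (1 / ((N : ℝ) + 2)) with hε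
    have e1 : ε ≤ sin 1 ^ 2 / 8 := min_le_left _ _
    have e2 : ε ≤ 1 / ((N : ℝ) + 2) := min_le_right _ _
    obtain ⟨c, hc1, hc2⟩ := hL.length.approx x y (ε := ε) (by positivity)
    have hm : (1 : ℝ) ∈ Icc 0 (dist x y) := ⟨zero_le_one, by linarith⟩
    have a1 := hc1 1 hm
    have a2 := hc2 1 hm 1 hm le_rfl
    rw [dist_self] at a2
    obtain ⟨p, hp⟩ := surjective_mk (F (c 1))
    have b1 := hF (c 1) x
    have b2 := hF (c 1) y
    rw [← hp, hx, dist_V, dist_comm, a1] at b1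
    rw [← hp, hy, dist_W] at b2
    have := p.d_le_ab
    have := p.h0
    have := p.r_nonneg
    refine ⟨c 1, p, a1, hp.symm, ?_, by linarith, by linarith⟩
    have b3 : p.s + p.r ≤ d + ε := by
      rcases p.a_cases with h | h <;> rcases p.b_cases with h' | h' <;> linarith
    rw [sr, len] at b3
    have b4 : 1 / ((p.n : ℝ) + 1) ≤ 1 / ((N : ℝ) + 2) := by linarith
    have b5 := le_of_one_div_le_one_div (by positivity) b4
    have b6 : (N : ℝ) < p.n := by linarith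
    exact_mod_cast b6
  obtain ⟨z1, p1, a1, b1, -, c1, d1⟩ := step 0
  obtain ⟨z2, p2, a2, b2, n2, c2, d2⟩ := step p1.n
  obtain ⟨z3, p3, a3, b3, n3, c3, d3⟩ := step p2.n
  have far : ∀ (z z' : L) (p p' : Pt.{v} d), F z = mk p → F z' = mk p' → p.n ≠ p'.n →
      1 - sin 1 ^ 2 / 8 ≤ p.a → 1 ≤ p.b → 1 - sin 1 ^ 2 / 8 ≤ p'.a → 1 ≤ p'.b →
      2 - sin 1 ^ 2 / 4 ≤ dist z z' := by
    intro z z' p p' e e' hn c1 d1 c2 d2
    have := hF z z'
    rw [e, e', dmk] at this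
    have h0 : 0 ≤ sin 1 ^ 2 := sq_nonneg _
    rcases D_cases p p' with h | h | ⟨h, -⟩
    · linarith
    · linarith
    · exact absurd h hn
  have ne : ∀ z : L, dist x z = 1 → z ≠ x := by
    rintro z hz rfl
    simp at hz
  have per : ∀ z z' : L, dist x z = 1 → dist x z' = 1 → perim x z z' < 2 * π := by
    intro z z' h h'
    have := dist_triangle_left z z' x
    unfold perim
    linarith [pi_gt_three]
  have k1 := angle_big a1 a2 (far _ _ _ _ b1 b2 (by omega) c1 d1 c2 d2)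
  have k2 := angle_big a2 a3 (far _ _ _ _ b2 b3 (by omega) c2 d2 c3 d3)
  have k3 := angle_big a3 a1 (far _ _ _ _ b3 b1 (by omega) c3 d3 c1 d1)
  have := hL.comparison x z1 z2 z3 (ne _ a1) (ne _ a2) (ne _ a3) (per _ _ a1 a2) (per _ _ a2 a3)
    (per _ _ a3 a1)
  linarith

theorem counter {L : Type u} [MetricSpace L] (hL : IsCBBOne L) {x y : L} (h : π < dist x y) :
    ∃ (U : Type v) (_ : MetricSpace U) (Q : Set L) (f : Q → U), IsCATOne U ∧ Q ⊂ univ ∧
      LipschitzWith 1 f ∧ IsMaximalShort Q f ∧ ¬ IsHilbertSphere Q := by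
  let d : ℝ≥0 := ⟨dist x y, dist_nonneg⟩
  have hd : (d : ℝ) = dist x y := rfl
  obtain ⟨Q, f, hx, hy, hf, hmax, e1, e2⟩ :=
    exists_maximal x y (V.{v} d) (W d) (by rw [dist_VW, hd])
  refine ⟨Th d, inferInstance, Q, f, th_cat (by rw [hd]; exact h.le), ?_, hf, hmax, ?_⟩
  · refine ssubset_univ_iff.2 fun hQ => ?_
    subst hQ
    exact not_total hL hd (by rw [hd]; linarith [pi_gt_three]) (fun z => f ⟨z, mem_univ z⟩)
      (fun a b => by simpa [Subtype.dist_eq] using hf.dist_le_mul ⟨a, mem_univ a⟩ ⟨b, mem_univ b⟩) e1 e2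
  · rintro ⟨H, _, _, _, e, he⟩
    have := he ⟨x, hx⟩ ⟨y, hy⟩
    rw [Subtype.dist_eq] at this
    have h2 : sphDist (e ⟨x, hx⟩) (e ⟨y, hy⟩) ≤ π := arccos_le_pi _
    simp only at this
    linarith

theorem main_iff (L : Type u) [MetricSpace L] (hL : IsCBBOne L) :
    (∀ (U : Type v) [MetricSpace U], IsCATOne U → ∀ (Q : Set L), Q ⊂ Set.univ →
      ∀ f : Q → U, LipschitzWith 1 f → IsMaximalShort Q f →
        (IsHilbertSphere Q ∧ ∃ p : L, ∀ q ∈ Q, dist p q = Real.pi / 2) ∧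
          (Isometry f ∧ ¬ ∃ p' : U, ∀ q : Q, dist p' (f q) = Real.pi / 2)) ↔
    ∀ x y : L, dist x y ≤ Real.pi := by
  constructor
  · intro H x y
    by_contra h
    obtain ⟨U, _, Q, f, hU, hQ, hf, hmax, hn⟩ := counter.{u, v} hL (not_le.1 h)
    exact hn (H U hU Q hQ f hf hmax).1.1
  · intro hd U _ hU Q hQ f hf hmax
    exact main ⟨hL.complete, hL.length, hd, hL.comparison⟩ hU hQ hf hmax

end Pool.Agent.Lib.MP_6bc951_gt.Theta
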