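import Pool.Agent.Lib.MP_6bc951_gt.Defs

open Real Set Filter Topology

namespace Pool.Agent.Lib.MP_6bc951_gt

lemma cos_add_cos_ge {α β γ : ℝ} (hα : 0 ≤ α) (hα' : α ≤ π) (hβ : 0 ≤ β) (hβ' : β ≤ π)
    (hγ : 0 ≤ γ) (hγ' : γ ≤ π) (h : α + β + γ ≤ 2 * π) :
    -√(2 * (1 + cos γ)) ≤ cos α + cos β := by
  have h1 : cos α + cos β = 2 * cos ((α + β) / 2) * cos ((α - β) / 2) := cos_add_cos α β
  have h2 : 2 * (1 + cos γ) = (2 * cos (γ / 2)) ^ 2 := by
    have := cos_sq (γ / 2)
    rw [show 2 * (γ / 2) = γ by ring] at this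
    nlinarith
  have h3 : 0 ≤ cos (γ / 2) := cos_nonneg_of_mem_Icc ⟨by linarith [pi_pos], by linarith⟩
  have h4 : 0 ≤ cos ((α - β) / 2) := cos_nonneg_of_mem_Icc ⟨by linarith, by linarith⟩
  have h5 : cos ((α - β) / 2) ≤ 1 := cos_le_one _
  have h6 : -cos (γ / 2) ≤ cos ((α + β) / 2) := by
    rw [← cos_pi_sub]
    exact cos_le_cos_of_nonneg_of_le_pi (by linarith) (by linarith) (by linarith)
  rw [h2, sqrt_sq (by linarith), h1]
  nlinarith

/-- the cosine law quotient lies in `[-1,1]` -/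
lemma cos_sides {a b c : ℝ} (hc : 0 ≤ c) (h1 : c ≤ a + b)
    (h2 : a ≤ b + c) (h3 : b ≤ a + c) (hp : a + b + c ≤ 2 * π) :
    cos (a + b) ≤ cos c ∧ cos c ≤ cos (a - b) := by
  have hcπ : c ≤ π := by linarith
  constructor
  · rcases le_total (a + b) π with h | h
    · exact cos_le_cos_of_nonneg_of_le_pi hc h h1
    · rw [← cos_two_pi_sub (a + b)]
      exact cos_le_cos_of_nonneg_of_le_pi hc (by linarith) (by linarith)
  · rw [← cos_abs (a - b)]
    exact cos_le_cos_of_nonneg_of_le_pi (abs_nonneg _) hcπ (abs_le.2 ⟨by linarith, by linarith⟩)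

lemma cos_modelAngle {X : Type*} [MetricSpace X] {p x y : X} (hx : x ≠ p) (hy : y ≠ p)
    (h : perim p x y < 2 * π) :
    cos (dist x y) = cos (dist p x) * cos (dist p y) +
      sin (dist p x) * sin (dist p y) * cos (modelAngle p x y) := by
  unfold perim at h
  have t1 := dist_triangle_left x y p
  have t2 := dist_triangle_right p x y
  have t3 := dist_triangle p x y
  have hs := cos_sides (dist_nonneg (x := x) (y := y)) t1 t2 t3 h.le
  have ha : 0 < sin (dist p x) := sin_pos_of_pos_of_lt_pi (dist_pos.2 hx.symm) (by linarith)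
  have hb : 0 < sin (dist p y) := sin_pos_of_pos_of_lt_pi (dist_pos.2 hy.symm) (by linarith)
  have hab := mul_pos ha hb
  rw [cos_add, cos_sub] at hs
  unfold modelAngle
  rw [cos_arccos]
  · field_simp
    ring
  · rw [le_div_iff₀ hab]; linarith [hs.1]
  · rw [div_le_iff₀ hab]; linarith [hs.2]

/-- four point inequality -/
def FourPt {X : Type*} [PseudoMetricSpace X] (m a b w : X) : Prop :=
  sin (dist m a + dist m b) * cos (dist m w) -
    √(2 * sin (dist m a) * sin (dist m b) * (cos (dist a b) - cos (dist m a + dist m b))) ≤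
    sin (dist m b) * cos (dist a w) + sin (dist m a) * cos (dist b w)

lemma IsAlexOne.fourPt {L : Type*} [MetricSpace L] (hL : IsAlexOne L) (m a b w : L)
    (h1 : perim m a w < 2 * π) (h2 : perim m w b < 2 * π) (h3 : perim m b a < 2 * π) :
    FourPt m a b w := by
  unfold FourPt
  by_cases ha : a = m
  · subst ha; simp
  by_cases hb : b = m
  · subst hb; simp
  by_cases hw : w = m
  · subst hw
    simp only [dist_self, cos_zero, mul_one]
    rw [dist_comm a w, dist_comm b w, sin_add]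
    have := sqrt_nonneg (2 * sin (dist w a) * sin (dist w b) *
      (cos (dist a b) - cos (dist w a + dist w b)))
    linarith
  have hc := hL.comparison m a w b ha hw hb h1 h2 h3
  have e1 := cos_modelAngle ha hw h1
  have e2 := cos_modelAngle hw hb h2
  have e3 := cos_modelAngle hb ha h3
  have key := cos_add_cos_ge (α := modelAngle m a w) (β := modelAngle m w b)
    (γ := modelAngle m b a) (arccos_nonneg _) (arccos_le_pi _) (arccos_nonneg _) (arccos_le_pi _)
    (arccos_nonneg _) (arccos_le_pi _) hc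
  have hs : 0 ≤ sin (dist m a) := sin_nonneg_of_nonneg_of_le_pi dist_nonneg (hL.diam_le _ _)
  have ht : 0 ≤ sin (dist m b) := sin_nonneg_of_nonneg_of_le_pi dist_nonneg (hL.diam_le _ _)
  have hr : 0 ≤ sin (dist m w) := sin_nonneg_of_nonneg_of_le_pi dist_nonneg (hL.diam_le _ _)
  have hr1 : sin (dist m w) ≤ 1 := sin_le_one _
  set s := sin (dist m a)
  set t := sin (dist m b)
  set r := sin (dist m w)
  have e4 : 2 * s * t * (cos (dist a b) - cos (dist m a + dist m b)) =
      (s * t) ^ 2 * (2 * (1 + cos (modelAngle m b a))) := by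
    rw [dist_comm a b, e3, cos_add]; ring
  rw [e4, sqrt_mul (sq_nonneg _), sqrt_sq (mul_nonneg hs ht), dist_comm b w, e1, e2, sin_add]
  have hq := sqrt_nonneg (2 * (1 + cos (modelAngle m b a)))
  set q := √(2 * (1 + cos (modelAngle m b a)))
  have : -(s * t * q) ≤ s * t * r * (cos (modelAngle m a w) + cos (modelAngle m w b)) := by
    have h5 : -q ≤ r * (cos (modelAngle m a w) + cos (modelAngle m w b)) := by nlinarith
    have := mul_le_mul_of_nonneg_left h5 (mul_nonneg hs ht)
    linarith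
  linarith

/-- derivative at zero -/
lemma le_mul_cos_of_forall {θ A N : ℝ} (hθ : 0 < θ)
    (h : ∀ s ∈ Ioo 0 θ, sin s * A ≤ N * (sin θ - sin (θ - s))) : A ≤ N * cos θ := by
  have hd : HasDerivAt (fun s => N * (sin θ - sin (θ - s)) - sin s * A) (N * cos θ - A) 0 := by
    have h1 : HasDerivAt (fun s : ℝ => θ - s) (-1) 0 := by
      simpa using (hasDerivAt_id (0 : ℝ)).const_sub θ
    have h2 := (h1.sin.const_sub (sin θ)).const_mul N
    have h3 := (hasDerivAt_sin 0).mul_const A
    have h4 := h2.sub h3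
    simp only [sub_zero, cos_zero, one_mul, mul_neg, mul_one, neg_neg] at h4
    exact h4
  have ht := hd.tendsto_slope_zero_right
  have : 0 ≤ N * cos θ - A := by
    refine ge_of_tendsto ht ?_
    filter_upwards [Ioo_mem_nhdsGT hθ] with s hs
    have := h s hs
    simp only [zero_add, sub_zero, sub_self, mul_zero, sin_zero, zero_mul, smul_eq_mul]
    exact mul_nonneg (inv_nonneg.2 hs.1.le) (by linarith)
  linarith

/-- Sturm type maximum principle -/
lemma sturm {y : ℝ → ℝ} {a b : ℝ} (hab : a ≤ b) (hπ : b - a < π) (hc : ContinuousOn y (Icc a b))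
    (hloc : ∀ t ∈ Ioo a b, ∃ δ > 0, a ≤ t - δ ∧ t + δ ≤ b ∧
      2 * cos δ * y t ≤ y (t - δ) + y (t + δ)) :
    ∀ t ∈ Icc a b, sin (b - a) * y t ≤ sin (b - t) * y a + sin (t - a) * y b := by
  set g : ℝ → ℝ := fun t => sin (b - a) * y t - sin (b - t) * y a - sin (t - a) * y b with hg
  set c : ℝ → ℝ := fun t => cos (t - (a + b) / 2) with hcdef
  have hcpos : ∀ t ∈ Icc a b, 0 < c t := fun t ht =>
    cos_pos_of_mem_Ioo ⟨by linarith [ht.1], by linarith [ht.2]⟩
  have hgc : ContinuousOn g (Icc a b) := by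
    refine ContinuousOn.sub (ContinuousOn.sub (continuousOn_const.mul hc) ?_) ?_
    · exact Continuous.continuousOn (by fun_prop)
    · exact Continuous.continuousOn (by fun_prop)
  have hh : ContinuousOn (fun t => g t / c t) (Icc a b) :=
    hgc.div (Continuous.continuousOn (by fun_prop)) fun t ht => (hcpos t ht).ne'
  obtain ⟨t1, ht1, hmax⟩ := isCompact_Icc.exists_isMaxOn (nonempty_Icc.2 hab) hh
  set M := g t1 / c t1 with hM
  by_contra hcon
  push Not at hcon
  obtain ⟨t2, ht2, hlt⟩ := hcon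
  have hMpos : 0 < M := by
    have h1 : 0 < g t2 / c t2 := div_pos (by simp only [hg]; linarith) (hcpos t2 ht2)
    exact h1.trans_le (hmax ht2)
  have hS : IsCompact (Icc a b ∩ (fun t => g t / c t) ⁻¹' {M}) :=
    isCompact_Icc.of_isClosed_subset (hh.preimage_isClosed_of_isClosed isClosed_Icc
      isClosed_singleton) inter_subset_left
  obtain ⟨t0, ⟨ht0, ht0M⟩, hub⟩ := hS.exists_isGreatest ⟨t1, ht1, rfl⟩
  have ht0M' : g t0 = M * c t0 := by
    have : g t0 / c t0 = M := ht0M
    rw [← this, div_mul_cancel₀ _ (hcpos t0 ht0).ne']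
  have hg0 : 0 < g t0 := by rw [ht0M']; exact mul_pos hMpos (hcpos t0 ht0)
  have hta : a < t0 := by
    rcases ht0.1.eq_or_lt with h | h
    · rw [← h] at hg0; simp [hg] at hg0
    · exact h
  have htb : t0 < b := by
    rcases ht0.2.eq_or_lt with h | h
    · rw [h] at hg0; simp [hg] at hg0
    · exact h
  obtain ⟨δ, hδ, hδa, hδb, hy⟩ := hloc t0 ⟨hta, htb⟩
  have m1 : t0 - δ ∈ Icc a b := ⟨hδa, by linarith⟩
  have m2 : t0 + δ ∈ Icc a b := ⟨by linarith, hδb⟩
  have l1 : g (t0 - δ) ≤ M * c (t0 - δ) := by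
    have : g (t0 - δ) / c (t0 - δ) ≤ M := hmax m1
    rwa [div_le_iff₀ (hcpos _ m1)] at this
  have l2 : g (t0 + δ) < M * c (t0 + δ) := by
    have h1 : g (t0 + δ) / c (t0 + δ) ≤ M := hmax m2
    have h2 : g (t0 + δ) / c (t0 + δ) ≠ M := fun h => by
      have := hub ⟨m2, h⟩
      linarith
    have := lt_of_le_of_ne h1 h2
    rwa [div_lt_iff₀ (hcpos _ m2)] at this
  have hsin : 0 ≤ sin (b - a) := sin_nonneg_of_nonneg_of_le_pi (by linarith) hπ.le
  have e1 : c (t0 - δ) + c (t0 + δ) = 2 * cos δ * c t0 := by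
    simp only [hcdef]
    rw [show t0 - δ - (a + b) / 2 = (t0 - (a + b) / 2) - δ by ring,
      show t0 + δ - (a + b) / 2 = (t0 - (a + b) / 2) + δ by ring, cos_sub, cos_add]
    ring
  have e2 : 2 * cos δ * g t0 ≤ g (t0 - δ) + g (t0 + δ) := by
    simp only [hg]
    rw [show b - (t0 - δ) = (b - t0) + δ by ring, show b - (t0 + δ) = (b - t0) - δ by ring,
      show t0 - δ - a = (t0 - a) - δ by ring, show t0 + δ - a = (t0 - a) + δ by ring,
      sin_add (b - t0), sin_sub (b - t0), sin_add (t0 - a), sin_sub (t0 - a)]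
    have := mul_le_mul_of_nonneg_left hy hsin
    linarith
  have e3 : M * c (t0 - δ) + M * c (t0 + δ) = 2 * cos δ * g t0 := by
    rw [← mul_add, e1, ht0M']; ring
  linarith

end Pool.Agent.Lib.MP_6bc951_gt
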