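import Pool.Agent.Lib.MP_6bc951_gt.Trig

open Real Set Filter Topology

namespace Pool.Agent.Lib.MP_6bc951_gt

universe u

lemma IsLengthSpace.approx {L : Type*} [MetricSpace L] (hL : IsLengthSpace L) (x y : L) {ε : ℝ}
    (hε : 0 < ε) : ∃ c : ℝ → L, (∀ t ∈ Icc 0 (dist x y), dist x (c t) = t) ∧
      ∀ s ∈ Icc 0 (dist x y), ∀ t ∈ Icc 0 (dist x y), s ≤ t →
        s + dist (c s) (c t) + dist (c t) y ≤ dist x y + ε := by
  have h1 : (⨅ γ : Path x y, eVariationOn γ Set.univ) < ENNReal.ofReal (dist x y + ε) := by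
    rw [← hL x y, edist_dist]
    exact (ENNReal.ofReal_lt_ofReal_iff (by positivity)).2 (by linarith)
  obtain ⟨γ, hγ⟩ := iInf_lt_iff.1 h1
  set φ : unitInterval → ℝ := fun τ => dist x (γ τ) with hφ
  have hφc : Continuous φ := by fun_prop
  have hφ0 : φ 0 = 0 := by simp [hφ]
  have hφ1 : φ 1 = dist x y := by simp [hφ]
  have hex : ∀ (b : unitInterval) (t : ℝ), 0 ≤ t → t ≤ φ b → ∃ τ, τ ≤ b ∧ φ τ = t := by
    intro b t h0 hb
    have := intermediate_value_Icc (f := φ) (a := 0) (b := b) bot_le hφc.continuousOn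
    obtain ⟨τ, hτ, e⟩ := this ⟨by rw [hφ0]; exact h0, hb⟩
    exact ⟨τ, hτ.2, e⟩
  set T : ℝ → unitInterval := fun t => sInf (φ ⁻¹' {t}) with hT
  have hTmem : ∀ t ∈ Icc 0 (dist x y), φ (T t) = t := by
    intro t ht
    obtain ⟨τ, -, e⟩ := hex 1 t ht.1 (by rw [hφ1]; exact ht.2)
    exact (isClosed_singleton.preimage hφc).csInf_mem ⟨τ, e⟩ (OrderBot.bddBelow _)
  refine ⟨fun t => γ (T t), hTmem, fun s hs t ht hst => ?_⟩
  have hmono : T s ≤ T t := by
    obtain ⟨τ, hτ, e⟩ := hex (T t) s hs.1 (by rw [hTmem t ht]; exact hst)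
    have hm : τ ∈ φ ⁻¹' {s} := e
    exact (csInf_le (OrderBot.bddBelow _) hm).trans hτ
  let v : ℕ → unitInterval := fun i => match i with
    | 0 => 0
    | 1 => T s
    | 2 => T t
    | _ => 1
  have hv : Monotone v := monotone_nat_of_le_succ fun i => match i with
    | 0 => bot_le
    | 1 => hmono
    | 2 => le_top
    | _ + 3 => le_rfl
  have h2 := (eVariationOn.sum_le (f := γ) (s := univ) (n := 3) hv fun _ => mem_univ _).trans_lt hγ
  simp only [Finset.sum_range_succ, Finset.sum_range_zero, zero_add, v, edist_dist] at h2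
  rw [← ENNReal.ofReal_add dist_nonneg dist_nonneg,
    ← ENNReal.ofReal_add (by positivity) dist_nonneg,
    ENNReal.ofReal_lt_ofReal_iff (by positivity)] at h2
  have h3 := hTmem s hs
  simp only [hφ] at h3
  simp only [γ.source, γ.target] at h2
  rw [dist_comm (γ (T s)) x, h3, dist_comm (γ (T t)), dist_comm y] at h2
  exact h2.le

/-- geodesic spaces of diameter at most `π` with the local comparison along geodesics -/
structure GoodSpace (X : Type*) [MetricSpace X] : Prop where
  diam_le : ∀ x y : X, dist x y ≤ π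
  geodesic : ∀ x y : X, ∃ γ, IsGeodesic γ x y
  loc : ∀ m a b w : X, dist a b = dist m a + dist m b → perim m a w < 2 * π →
    perim m w b < 2 * π → perim m b a < 2 * π →
    sin (dist m a + dist m b) * cos (dist m w) ≤
      sin (dist m b) * cos (dist a w) + sin (dist m a) * cos (dist b w)

lemma tsin {ι : Type*} {l : Filter ι} {f : ι → ℝ} {a : ℝ} (h : Tendsto f l (𝓝 a)) :
    Tendsto (fun n => sin (f n)) l (𝓝 (sin a)) := (continuous_sin.tendsto a).comp h

lemma tcos {ι : Type*} {l : Filter ι} {f : ι → ℝ} {a : ℝ} (h : Tendsto f l (𝓝 a)) :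
    Tendsto (fun n => cos (f n)) l (𝓝 (cos a)) := (continuous_cos.tendsto a).comp h

/-- sequences -/
def UP (L : Type u) : Type u := ℕ → L

noncomputable def udist {L : Type u} [MetricSpace L] (x y : UP L) : ℝ :=
  limUnder (hyperfilter ℕ : Filter ℕ) fun n => dist (x n) (y n)

lemma tendsto_udist {L : Type u} [MetricSpace L] (hd : ∀ x y : L, dist x y ≤ π) (x y : UP L) :
    Tendsto (fun n => dist (x n) (y n)) (hyperfilter ℕ : Filter ℕ) (𝓝 (udist x y)) := by
  apply tendsto_nhds_limUnder
  obtain ⟨a, -, ha⟩ := isCompact_Icc.ultrafilter_le_nhds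
    ((hyperfilter ℕ).map fun n => dist (x n) (y n)) (s := Icc 0 π) (by
      rw [le_principal_iff, Ultrafilter.coe_map, mem_map]
      exact Eventually.of_forall fun n => ⟨dist_nonneg, hd _ _⟩)
  exact ⟨a, ha⟩

@[reducible] noncomputable def upMetric {L : Type u} [MetricSpace L]
    (hd : ∀ x y : L, dist x y ≤ π) : PseudoMetricSpace (UP L) where
  dist := udist
  dist_self x := tendsto_nhds_unique (tendsto_udist hd x x) (by simp)
  dist_comm x y := tendsto_nhds_unique (tendsto_udist hd x y)
    (by simpa [dist_comm] using tendsto_udist hd y x)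
  dist_triangle x y z := le_of_tendsto_of_tendsto' (tendsto_udist hd x z)
    ((tendsto_udist hd x y).add (tendsto_udist hd y z)) fun n => dist_triangle _ _ _

theorem IsAlexOne.exists_good {L : Type u} [MetricSpace L] (hL : IsAlexOne L) :
    ∃ (X : Type u) (_ : MetricSpace X) (j : L → X), (∀ a b, dist (j a) (j b) = dist a b) ∧
      GoodSpace X := by
  let _ := upMetric hL.diam_le
  have ht : ∀ x y : UP L, Tendsto (fun n => dist (x n) (y n)) (hyperfilter ℕ : Filter ℕ)
      (𝓝 (dist x y)) := tendsto_udist hL.diam_le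
  have hle : (hyperfilter ℕ : Filter ℕ) ≤ atTop := by
    rw [← Nat.cofinite_eq_atTop]; exact hyperfilter_le_cofinite
  have h0 : Tendsto (fun n : ℕ => 1 / ((n : ℝ) + 1)) (hyperfilter ℕ : Filter ℕ) (𝓝 0) :=
    tendsto_one_div_add_atTop_nhds_zero_nat.mono_left hle
  refine ⟨SeparationQuotient (UP L), inferInstance, fun a => SeparationQuotient.mk (fun _ => a),
    fun a b => ?_, ?_, ?_, ?_⟩
  · exact (SeparationQuotient.dist_mk _ _).trans
      (tendsto_nhds_unique (ht _ _) tendsto_const_nhds)
  · intro x y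
    obtain ⟨x, rfl⟩ := SeparationQuotient.surjective_mk x
    obtain ⟨y, rfl⟩ := SeparationQuotient.surjective_mk y
    rw [SeparationQuotient.dist_mk]
    exact le_of_tendsto' (ht x y) fun n => hL.diam_le _ _
  · intro x y
    obtain ⟨x, rfl⟩ := SeparationQuotient.surjective_mk x
    obtain ⟨y, rfl⟩ := SeparationQuotient.surjective_mk y
    have hc := fun n : ℕ => hL.length.approx (x n) (y n) (ε := 1 / ((n : ℝ) + 1)) (by positivity)
    choose c hc1 hc2 using hc
    set g : ℝ → UP L := fun t n => c n (min t (dist (x n) (y n))) with hg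
    have hmin : ∀ t, t ≤ dist x y → Tendsto (fun n => min t (dist (x n) (y n)))
        (hyperfilter ℕ : Filter ℕ) (𝓝 t) := by
      intro t htl
      have := (tendsto_const_nhds (x := t)).min (ht x y)
      rwa [min_eq_left htl] at this
    have hmem : ∀ t, 0 ≤ t → ∀ n, min t (dist (x n) (y n)) ∈ Icc 0 (dist (x n) (y n)) :=
      fun t h n => ⟨le_min h dist_nonneg, min_le_right _ _⟩
    have e1 : ∀ t ∈ Icc 0 (dist x y), dist x (g t) = t := by
      intro t htm
      refine tendsto_nhds_unique (ht _ _) ((hmin t htm.2).congr fun n => ?_)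
      exact (hc1 n _ (hmem t htm.1 n)).symm
    have e2 : ∀ s ∈ Icc 0 (dist x y), ∀ t ∈ Icc 0 (dist x y), s ≤ t →
        s + dist (g s) (g t) + dist (g t) y ≤ dist x y := by
      intro s hs t htm hst
      have := le_of_tendsto_of_tendsto' (((hmin s hs.2).add (ht (g s) (g t))).add (ht (g t) y))
        ((ht x y).add h0) fun n => hc2 n _ (hmem s hs.1 n) _ (hmem t htm.1 n)
          (min_le_min_right _ hst)
      linarith
    have e3 : ∀ s ∈ Icc 0 (dist x y), ∀ t ∈ Icc 0 (dist x y), s ≤ t →
        dist (g s) (g t) = t - s := by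
      intro s hs t htm hst
      have a1 := e2 s hs t htm hst
      have a2 := dist_triangle x (g t) y
      have a3 := dist_triangle x (g s) (g t)
      rw [e1 t htm] at a2 a3
      rw [e1 s hs] at a3
      linarith
    refine ⟨fun t => SeparationQuotient.mk (g t), ?_, ?_, ?_⟩
    · apply eq_of_dist_eq_zero
      rw [SeparationQuotient.dist_mk, dist_comm]
      exact e1 0 ⟨le_rfl, dist_nonneg⟩
    · apply eq_of_dist_eq_zero
      rw [SeparationQuotient.dist_mk, SeparationQuotient.dist_mk]
      have a1 := e2 _ ⟨dist_nonneg, le_rfl⟩ _ ⟨dist_nonneg, le_rfl⟩ le_rfl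
      have a2 := dist_nonneg (x := g (dist x y)) (y := y)
      rw [dist_self] at a1
      linarith
    · intro s hs t htm
      rw [SeparationQuotient.dist_mk] at hs htm ⊢
      rcases le_total s t with h | h
      · rw [e3 s hs t htm h, abs_of_nonpos (by linarith)]; ring
      · rw [dist_comm, e3 t htm s hs h, abs_of_nonneg (by linarith)]
  · intro m a b w
    obtain ⟨m, rfl⟩ := SeparationQuotient.surjective_mk m
    obtain ⟨a, rfl⟩ := SeparationQuotient.surjective_mk a
    obtain ⟨b, rfl⟩ := SeparationQuotient.surjective_mk b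
    obtain ⟨w, rfl⟩ := SeparationQuotient.surjective_mk w
    simp only [perim, SeparationQuotient.dist_mk]
    intro hab h1 h2 h3
    have f1 := (((ht m a).add (ht m w)).add (ht a w)).eventually (gt_mem_nhds h1)
    have f2 := (((ht m w).add (ht m b)).add (ht w b)).eventually (gt_mem_nhds h2)
    have f3 := (((ht m b).add (ht m a)).add (ht b a)).eventually (gt_mem_nhds h3)
    have l1 := ((tsin ((ht m a).add (ht m b))).mul (tcos (ht m w))).sub
      ((((tendsto_const_nhds (x := (2 : ℝ))).mul (tsin (ht m a))).mul (tsin (ht m b))).mul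
        ((tcos (ht a b)).sub (tcos ((ht m a).add (ht m b))))).sqrt
    have l2 := ((tsin (ht m b)).mul (tcos (ht a w))).add ((tsin (ht m a)).mul (tcos (ht b w)))
    have := le_of_tendsto_of_tendsto l1 l2 (by
      filter_upwards [f1, f2, f3] with n g1 g2 g3
      exact hL.fourPt _ _ _ _ g1 g2 g3)
    rw [hab] at this
    simpa using this

end Pool.Agent.Lib.MP_6bc951_gt
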